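import Pool.Agent.H73.Hyp.Riesz

/-! Chaining: continuous versions. -/

namespace Pool.Agent.H73.Hyp

open MeasureTheory FourierTransform Filter Topology Finset
open scoped ENNReal

/-- Sums of integrable nonnegative functions. -/
theorem exists_sum {ι : Type*} [Countable ι] (g : ι → E2 → ℝ) (hg : ∀ n, Integrable (g n))
    (h0 : ∀ n x, 0 ≤ g n x) (hs : Summable fun n => ∫ x, g n x) :
    ∃ G : E2 → ℝ, Integrable G ∧ (∀ x, 0 ≤ G x) ∧ (∀ᵐ x, HasSum (fun n => g n x) (G x)) ∧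
      ∫ x, G x = ∑' n, ∫ x, g n x := by
  set F : E2 → ℝ≥0∞ := fun x => ∑' n, ENNReal.ofReal (g n x) with hF
  have hFm : AEMeasurable F volume := AEMeasurable.tsum fun n =>
    (hg n).aestronglyMeasurable.aemeasurable.ennreal_ofReal
  have hi0 : ∀ n, 0 ≤ ∫ x, g n x := fun n => integral_nonneg (h0 n)
  have hFi : ∫⁻ x, F x = ENNReal.ofReal (∑' n, ∫ x, g n x) := by
    rw [hF, lintegral_tsum fun n => (hg n).aestronglyMeasurable.aemeasurable.ennreal_ofReal,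
      ENNReal.ofReal_tsum_of_nonneg hi0 hs]
    refine tsum_congr fun n => ?_
    rw [ofReal_integral_eq_lintegral_ofReal (hg n) (Filter.Eventually.of_forall (h0 n))]
  have hne : ∫⁻ x, F x ≠ ∞ := by rw [hFi]; exact ENNReal.ofReal_ne_top
  refine ⟨fun x => (F x).toReal, integrable_toReal_of_lintegral_ne_top hFm hne,
    fun x => ENNReal.toReal_nonneg, ?_, ?_⟩
  · filter_upwards [ae_lt_top' hFm hne] with x hx
    have h1 : Summable fun n => g n x := by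
      have := ENNReal.summable_toReal hx.ne
      refine this.congr fun n => ?_
      rw [ENNReal.toReal_ofReal (h0 n x)]
    have h2 : (F x).toReal = ∑' n, g n x := by
      rw [hF]
      simp only
      rw [← ENNReal.ofReal_tsum_of_nonneg (fun n => h0 n x) h1,
        ENNReal.toReal_ofReal (tsum_nonneg fun n => h0 n x)]
    rw [h2]
    exact h1.hasSum
  · rw [integral_toReal hFm (ae_lt_top' hFm hne), hFi,
      ENNReal.toReal_ofReal (tsum_nonneg hi0)]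

theorem ae_of_countable {ι : Type*} [Countable ι] {p : ι → E2 → Prop}
    (h : ∀ i, ∀ᵐ x, p i x) : ∀ᵐ x, ∀ i, p i x := ae_all_iff.2 h

section chain

variable (Φ : ℝ → L2)

/-- the dyadic point of level `n` -/
noncomputable def pt (n : ℕ) (t : ℝ) : ℝ := (⌊t * 2 ^ n⌋ : ℝ) / 2 ^ n

/-- the increments -/
noncomputable def inc (n : ℕ) (q : ℤ) (x : E2) : ℝ :=
  ‖Φ (((q : ℝ) + 1) / 2 ^ n) x - Φ ((q : ℝ) / 2 ^ n) x‖

/-- the weighted square sum of the increments of level `n` over the unit interval `k` -/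
noncomputable def gk (r : ℝ) (k : ℤ) (n : ℕ) (x : E2) : ℝ :=
  (r⁻¹) ^ n * ∑ q ∈ Ico (k * 2 ^ n) ((k + 1) * 2 ^ n), inc Φ n q x ^ 2

theorem integral_inc (n : ℕ) (q : ℤ) :
    Integrable (fun x => inc Φ n q x ^ 2) ∧
      ∫ x, inc Φ n q x ^ 2 = ‖Φ (((q : ℝ) + 1) / 2 ^ n) - Φ ((q : ℝ) / 2 ^ n)‖ ^ 2 := by
  have h : (fun x => ‖(Φ (((q : ℝ) + 1) / 2 ^ n) - Φ ((q : ℝ) / 2 ^ n) : L2) x‖ ^ 2) =ᵐ[volume]
      fun x => inc Φ n q x ^ 2 := by
    filter_upwards [Lp.coeFn_sub (Φ (((q : ℝ) + 1) / 2 ^ n)) (Φ ((q : ℝ) / 2 ^ n))] with x hx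
    rw [hx, Pi.sub_apply]; rfl
  refine ⟨(integrable_sq _).congr h, ?_⟩
  rw [norm_sq_eq]
  exact (integral_congr_ae h).symm

theorem gk_nonneg {r : ℝ} (h : 0 < r) (k : ℤ) (n : ℕ) (x : E2) : 0 ≤ gk Φ r k n x := by
  unfold gk
  exact mul_nonneg (by positivity) (sum_nonneg fun q _ => sq_nonneg _)

theorem gk_integrable (r : ℝ) (k : ℤ) (n : ℕ) : Integrable (gk Φ r k n) := by
  unfold gk
  exact (integrable_finsetSum _ fun q _ => (integral_inc Φ n q).1).const_mul _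

theorem gk_integral {δ : ℝ} (hδ : 0 < δ) {b : ℤ → ℝ}
    (hΦ : ∀ (k : ℤ) (t t' : ℝ), (k : ℝ) ≤ t → t ≤ t' → t' ≤ k + 1 →
      ‖Φ t' - Φ t‖ ^ 2 ≤ (t' - t) ^ (1 + 2 * δ) * b k) (k : ℤ) (n : ℕ) :
    ∫ x, gk Φ ((1 / 2 : ℝ) ^ δ) k n x ≤ ((1 / 2 : ℝ) ^ δ) ^ n * b k := by
  set r := (1 / 2 : ℝ) ^ δ with hr
  have hr0 : 0 < r := by positivity
  have hp : (0 : ℝ) < 2 ^ n := by positivity
  unfold gk
  rw [integral_const_mul, integral_finsetSum _ fun q _ => (integral_inc Φ n q).1]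
  have h1 : ∀ q ∈ Ico (k * 2 ^ n) ((k + 1) * 2 ^ n), ∫ x, inc Φ n q x ^ 2 ≤
      (1 / 2) ^ n * (r ^ n * r ^ n) * b k := by
    intro q hq
    rw [mem_Ico] at hq
    obtain ⟨q1, q2⟩ := hq
    have q1' : (k : ℝ) * 2 ^ n ≤ q := by exact_mod_cast q1
    have q2' : (q : ℝ) + 1 ≤ (k + 1) * 2 ^ n := by
      have : q + 1 ≤ (k + 1) * 2 ^ n := q2
      exact_mod_cast this
    rw [(integral_inc Φ n q).2]
    refine (hΦ k _ _ ?_ ?_ ?_).trans (le_of_eq ?_)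
    · rw [le_div_iff₀ hp]; exact q1'
    · gcongr; linarith
    · rw [div_le_iff₀ hp]; exact q2'
    · congr 1
      have e1 : ((q : ℝ) + 1) / 2 ^ n - q / 2 ^ n = (1 / 2) ^ n := by
        rw [← sub_div, add_sub_cancel_left, one_div, one_div, inv_pow]
      rw [e1, Real.rpow_add (by positivity), Real.rpow_one]
      congr 1
      rw [hr, ← Real.rpow_natCast (1 / 2) n, ← Real.rpow_mul (by norm_num),
        ← Real.rpow_natCast ((1 / 2 : ℝ) ^ δ) n, ← Real.rpow_mul (by norm_num),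
        ← Real.rpow_add (by norm_num)]
      congr 1; ring
  have h2 : ∑ q ∈ Ico (k * 2 ^ n) ((k + 1) * 2 ^ n), ∫ x, inc Φ n q x ^ 2 ≤
      (r ^ n * r ^ n) * b k := by
    refine (sum_le_sum h1).trans (le_of_eq ?_)
    rw [sum_const, nsmul_eq_mul, Int.card_Ico]
    have e2 : (((k + 1) * 2 ^ n - k * 2 ^ n : ℤ).toNat : ℝ) = 2 ^ n := by
      have : (k + 1) * 2 ^ n - k * 2 ^ n = (2 ^ n : ℤ) := by ring
      rw [this]
      have h3 : ((2 ^ n : ℤ).toNat : ℤ) = 2 ^ n := Int.toNat_of_nonneg (by positivity)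
      exact_mod_cast h3
    rw [e2]
    have e3 : (2 : ℝ) ^ n * (1 / 2) ^ n = 1 := by rw [← mul_pow]; norm_num
    calc (2 : ℝ) ^ n * ((1 / 2) ^ n * (r ^ n * r ^ n) * b k) =
        ((2 : ℝ) ^ n * (1 / 2) ^ n) * ((r ^ n * r ^ n) * b k) := by ring
      _ = _ := by rw [e3, one_mul]
  calc r⁻¹ ^ n * ∑ q ∈ Ico (k * 2 ^ n) ((k + 1) * 2 ^ n), ∫ x, inc Φ n q x ^ 2
      ≤ r⁻¹ ^ n * ((r ^ n * r ^ n) * b k) := mul_le_mul_of_nonneg_left h2 (by positivity)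
    _ = (r⁻¹ * r) ^ n * (r ^ n * b k) := by rw [mul_pow]; ring
    _ = r ^ n * b k := by rw [inv_mul_cancel₀ hr0.ne', one_pow, one_mul]

/-- the bound of the increments of level `n` over the unit interval `k` -/
noncomputable def ek (r : ℝ) (k : ℤ) (n : ℕ) (x : E2) : ℝ := Real.sqrt (r ^ n * gk Φ r k n x)

theorem ek_nonneg (r : ℝ) (k : ℤ) (n : ℕ) (x : E2) : 0 ≤ ek Φ r k n x := Real.sqrt_nonneg _

theorem inc_le_ek {r : ℝ} (hr : 0 < r) (k : ℤ) (n : ℕ) (x : E2) {q : ℤ} (h1 : k * 2 ^ n ≤ q)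
    (h2 : q < (k + 1) * 2 ^ n) : inc Φ n q x ≤ ek Φ r k n x := by
  unfold ek
  refine Real.le_sqrt_of_sq_le ?_
  unfold gk
  rw [← mul_assoc, ← mul_pow, mul_inv_cancel₀ hr.ne', one_pow, one_mul]
  exact single_le_sum (f := fun q => inc Φ n q x ^ 2) (fun q _ => sq_nonneg _)
    (mem_Ico.2 ⟨h1, h2⟩)

theorem ek_summable {r : ℝ} (hr : 0 < r) (hr1 : r < 1) {k : ℤ} {x : E2} {w : ℝ}
    (h : HasSum (fun n => gk Φ r k n x) w) :
    Summable (fun n => ek Φ r k n x) ∧ (∑' n, ek Φ r k n x) ≤ Real.sqrt (w / (1 - r)) := by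
  have h1r : 0 < 1 - r := by linarith
  have hbound : ∀ s : Finset ℕ, ∑ n ∈ s, ek Φ r k n x ≤ Real.sqrt (w / (1 - r)) := by
    intro s
    refine Real.le_sqrt_of_sq_le ?_
    have e1 : (∑ n ∈ s, ek Φ r k n x) ^ 2 ≤ (∑ n ∈ s, r ^ n) * ∑ n ∈ s, gk Φ r k n x := by
      refine sum_sq_le_sum_mul_sum_of_sq_le_mul s (fun n _ => by positivity)
        (fun n _ => gk_nonneg Φ hr k n x) fun n _ => ?_
      unfold ek
      rw [Real.sq_sqrt (mul_nonneg (by positivity) (gk_nonneg Φ hr k n x))]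
    have e2 : ∑ n ∈ s, r ^ n ≤ 1 / (1 - r) := by
      rw [one_div, ← tsum_geometric_of_lt_one hr.le hr1]
      exact (summable_geometric_of_lt_one hr.le hr1).sum_le_tsum _ fun n _ => by positivity
    have e3 : ∑ n ∈ s, gk Φ r k n x ≤ w := sum_le_hasSum s (fun n _ => gk_nonneg Φ hr k n x) h
    refine e1.trans ?_
    calc (∑ n ∈ s, r ^ n) * ∑ n ∈ s, gk Φ r k n x ≤ (1 / (1 - r)) * w :=
          mul_le_mul e2 e3 (sum_nonneg fun n _ => gk_nonneg Φ hr k n x) (by positivity)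
      _ = w / (1 - r) := by ring
  have hs : Summable (fun n => ek Φ r k n x) :=
    summable_of_sum_le (fun n => ek_nonneg Φ r k n x) hbound
  exact ⟨hs, hs.tsum_le_of_sum_le hbound⟩

/-- the continuous version -/
noncomputable def ver (t : ℝ) (x : E2) : ℂ :=
  Φ (pt 0 t) x + ∑' n : ℕ, (Φ (pt (n + 1) t) x - Φ (pt n t) x)

theorem floor_mem (n : ℕ) (t : ℝ) :
    ⌊t⌋ * 2 ^ n ≤ ⌊t * 2 ^ n⌋ ∧ ⌊t * 2 ^ n⌋ < (⌊t⌋ + 1) * 2 ^ n := by
  have hp : (0 : ℝ) < 2 ^ n := by positivity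
  constructor
  · rw [Int.le_floor]
    push_cast
    exact mul_le_mul_of_nonneg_right (Int.floor_le t) hp.le
  · rw [Int.floor_lt]
    push_cast
    exact mul_lt_mul_of_pos_right (Int.lt_floor_add_one t) hp

theorem floor_succ (n : ℕ) (t : ℝ) : ⌊t * 2 ^ (n + 1)⌋ = 2 * ⌊t * 2 ^ n⌋ ∨
    ⌊t * 2 ^ (n + 1)⌋ = 2 * ⌊t * 2 ^ n⌋ + 1 := by
  have h1 := Int.floor_le (t * 2 ^ n)
  have h2 := Int.lt_floor_add_one (t * 2 ^ n)
  have e : t * 2 ^ (n + 1) = 2 * (t * 2 ^ n) := by ring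
  have h3 : 2 * ⌊t * 2 ^ n⌋ ≤ ⌊t * 2 ^ (n + 1)⌋ := by
    rw [Int.le_floor, e]; push_cast; linarith
  have h4 : ⌊t * 2 ^ (n + 1)⌋ < 2 * ⌊t * 2 ^ n⌋ + 2 := by
    rw [Int.floor_lt, e]; push_cast; linarith
  omega

theorem pt_step {r : ℝ} (hr : 0 < r) (n : ℕ) (t : ℝ) (x : E2) :
    ‖Φ (pt (n + 1) t) x - Φ (pt n t) x‖ ≤ ek Φ r ⌊t⌋ (n + 1) x := by
  have hp : (2 : ℝ) ^ n ≠ 0 := by positivity
  rcases floor_succ n t with h | h
  · have : pt (n + 1) t = pt n t := by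
      unfold pt
      rw [h]
      push_cast
      rw [pow_succ]
      field_simp
    rw [this, sub_self, norm_zero]
    exact ek_nonneg Φ r _ _ _
  · have e1 : pt n t = ((2 * ⌊t * 2 ^ n⌋ : ℤ) : ℝ) / 2 ^ (n + 1) := by
      unfold pt
      push_cast
      rw [pow_succ]
      field_simp
    have e2 : pt (n + 1) t = (((2 * ⌊t * 2 ^ n⌋ : ℤ) : ℝ) + 1) / 2 ^ (n + 1) := by
      unfold pt
      rw [h]
      push_cast
      ring
    rw [e1, e2]
    have m1 := floor_mem n t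
    have m2 := floor_mem (n + 1) t
    rw [h] at m2
    exact inc_le_ek Φ hr ⌊t⌋ (n + 1) x (by rw [pow_succ]; nlinarith [m1.1]) (by omega)

theorem pt_zero (t : ℝ) : pt 0 t = (⌊t⌋ : ℝ) := by unfold pt; simp

/-- distance to the approximations -/
theorem ver_sub {r : ℝ} (hr : 0 < r) (t : ℝ) (x : E2)
    (hs : Summable (fun n => ek Φ r ⌊t⌋ n x)) (N : ℕ) :
    ‖ver Φ t x - Φ (pt N t) x‖ ≤ ∑' n, ek Φ r ⌊t⌋ (n + (N + 1)) x := by
  have hsum : Summable fun n : ℕ => (Φ (pt (n + 1) t) x - Φ (pt n t) x) := by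
    refine Summable.of_norm_bounded ((summable_nat_add_iff 1).2 hs) fun n => ?_
    exact pt_step Φ hr n t x
  have htel : ∀ N : ℕ, Φ (pt 0 t) x + ∑ n ∈ range N, (Φ (pt (n + 1) t) x - Φ (pt n t) x) =
      Φ (pt N t) x := by
    intro N
    rw [sum_range_sub (fun n => Φ (pt n t) x)]
    ring
  have e1 : ver Φ t x - Φ (pt N t) x =
      ∑' n : ℕ, (Φ (pt (n + N + 1) t) x - Φ (pt (n + N) t) x) := by
    unfold ver
    rw [← htel N, ← hsum.sum_add_tsum_nat_add N]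
    ring
  rw [e1]
  exact tsum_of_norm_bounded ((summable_nat_add_iff (N + 1)).2 hs).hasSum
    fun n => pt_step Φ hr (n + N) t x

theorem pt_near {r : ℝ} (hr : 0 < r) (N : ℕ) {a c : ℝ} (h1 : a ≤ c) (h2 : c < a + (1 / 2) ^ N)
    (x : E2) : ‖Φ (pt N c) x - Φ (pt N a) x‖ ≤ ek Φ r ⌊a⌋ N x := by
  have hp : (0 : ℝ) < 2 ^ N := by positivity
  have f1 := Int.floor_le (a * 2 ^ N)
  have f2 := Int.lt_floor_add_one (a * 2 ^ N)
  have h3 : ⌊a * 2 ^ N⌋ ≤ ⌊c * 2 ^ N⌋ := Int.floor_le_floor (by gcongr)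
  have h4 : ⌊c * 2 ^ N⌋ < ⌊a * 2 ^ N⌋ + 2 := by
    rw [Int.floor_lt]
    push_cast
    have e : (1 / 2 : ℝ) ^ N * 2 ^ N = 1 := by rw [← mul_pow]; norm_num
    have : c * 2 ^ N < (a + (1 / 2) ^ N) * 2 ^ N := mul_lt_mul_of_pos_right h2 hp
    rw [add_mul, e] at this
    linarith
  rcases (by omega : ⌊c * 2 ^ N⌋ = ⌊a * 2 ^ N⌋ ∨ ⌊c * 2 ^ N⌋ = ⌊a * 2 ^ N⌋ + 1) with h | h
  · have : pt N c = pt N a := by unfold pt; rw [h]
    rw [this, sub_self, norm_zero]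
    exact ek_nonneg Φ r _ _ _
  · have e1 : pt N c = ((⌊a * 2 ^ N⌋ : ℝ) + 1) / 2 ^ N := by
      unfold pt; rw [h]; push_cast; ring
    rw [e1]
    obtain ⟨m1, m2⟩ := floor_mem N a
    exact inc_le_ek Φ hr ⌊a⌋ N x m1 m2

theorem ver_continuous {r : ℝ} (hr : 0 < r) (x : E2)
    (hs : ∀ k, Summable (fun n => ek Φ r k n x)) : Continuous fun t => ver Φ t x := by
  rw [Metric.continuous_iff]
  intro t0 ε hε
  have hτ : ∀ k, ∀ᶠ N in atTop, (∑' n, ek Φ r k (n + (N + 1)) x) < ε / 3 ∧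
      ek Φ r k N x < ε / 3 := by
    intro k
    have h1 : Tendsto (fun N => ∑' n, ek Φ r k (n + N) x) atTop (𝓝 0) :=
      tendsto_sum_nat_add fun n => ek Φ r k n x
    have h2 := h1.comp (tendsto_add_atTop_nat 1)
    have h3 := (hs k).tendsto_atTop_zero
    exact (h2.eventually_lt_const (by positivity)).and (h3.eventually_lt_const (by positivity))
  obtain ⟨N, ⟨a1, a2⟩, ⟨b1, b2⟩, ⟨c1, c2⟩⟩ :=
    ((hτ (⌊t0⌋ - 1)).and ((hτ ⌊t0⌋).and (hτ (⌊t0⌋ + 1)))).exists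
  refine ⟨(1 / 2) ^ N, by positivity, fun t ht => ?_⟩
  rw [Real.dist_eq, abs_lt] at ht
  have hN1 : (1 / 2 : ℝ) ^ N ≤ 1 := pow_le_one₀ (by norm_num) (by norm_num)
  have hfl : ⌊t⌋ = ⌊t0⌋ - 1 ∨ ⌊t⌋ = ⌊t0⌋ ∨ ⌊t⌋ = ⌊t0⌋ + 1 := by
    have f1 := Int.floor_le t0
    have f2 := Int.lt_floor_add_one t0
    have g1 : ⌊t0⌋ - 1 ≤ ⌊t⌋ := by rw [Int.le_floor]; push_cast; linarith
    have g2 : ⌊t⌋ < ⌊t0⌋ + 2 := by rw [Int.floor_lt]; push_cast; linarith
    omega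
  have hbd : (∑' n, ek Φ r ⌊t⌋ (n + (N + 1)) x) < ε / 3 ∧ ek Φ r ⌊t⌋ N x < ε / 3 := by
    rcases hfl with h | h | h <;> rw [h]
    · exact ⟨a1, a2⟩
    · exact ⟨b1, b2⟩
    · exact ⟨c1, c2⟩
  have v1 := ver_sub Φ hr t x (hs _) N
  have v2 := ver_sub Φ hr t0 x (hs _) N
  have v3 : ‖Φ (pt N t) x - Φ (pt N t0) x‖ < ε / 3 := by
    rcases le_total t t0 with h | h
    · rw [norm_sub_rev]
      exact (pt_near Φ hr N h (by linarith) x).trans_lt hbd.2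
    · exact (pt_near Φ hr N h (by linarith) x).trans_lt b2
  rw [dist_eq_norm]
  have e : ver Φ t x - ver Φ t0 x = (ver Φ t x - Φ (pt N t) x) + (Φ (pt N t) x - Φ (pt N t0) x) -
      (ver Φ t0 x - Φ (pt N t0) x) := by ring
  rw [e]
  calc _ ≤ ‖(ver Φ t x - Φ (pt N t) x) + (Φ (pt N t) x - Φ (pt N t0) x)‖ +
        ‖ver Φ t0 x - Φ (pt N t0) x‖ := norm_sub_le _ _
    _ ≤ (‖ver Φ t x - Φ (pt N t) x‖ + ‖Φ (pt N t) x - Φ (pt N t0) x‖) +
        ‖ver Φ t0 x - Φ (pt N t0) x‖ := by gcongr; exact norm_add_le _ _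
    _ < ε := by linarith [hbd.1]

theorem pt_int (n : ℕ) (k : ℤ) : pt n k = k := by
  unfold pt
  have : (k : ℝ) * 2 ^ n = ((k * 2 ^ n : ℤ) : ℝ) := by push_cast; ring
  rw [this, Int.floor_intCast]
  push_cast
  field_simp

theorem ver_int (k : ℤ) (x : E2) : ver Φ k x = Φ k x := by
  unfold ver
  simp only [pt_int, sub_self, tsum_zero, add_zero]

theorem pt_le (n : ℕ) (t : ℝ) : pt n t ≤ t := by
  unfold pt
  rw [div_le_iff₀ (by positivity)]
  exact Int.floor_le _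

theorem le_pt (n : ℕ) (t : ℝ) : (⌊t⌋ : ℝ) ≤ pt n t := by
  unfold pt
  rw [le_div_iff₀ (by positivity)]
  exact_mod_cast (floor_mem n t).1

theorem sub_pt (n : ℕ) (t : ℝ) : t - pt n t ≤ (1 / 2) ^ n := by
  have hp : (0 : ℝ) < 2 ^ n := by positivity
  have h := Int.lt_floor_add_one (t * 2 ^ n)
  unfold pt
  have e : (1 / 2 : ℝ) ^ n = 1 / 2 ^ n := by rw [one_div, one_div, inv_pow]
  rw [e, sub_le_iff_le_add, ← add_div, le_div_iff₀ hp]
  linarith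

theorem chain {δ : ℝ} (hδ : 0 < δ) {b : ℤ → ℝ} (hb : ∀ k, 0 ≤ b k)
    (hΦ : ∀ (k : ℤ) (t t' : ℝ), (k : ℝ) ≤ t → t ≤ t' → t' ≤ k + 1 →
      ‖Φ t' - Φ t‖ ^ 2 ≤ (t' - t) ^ (1 + 2 * δ) * b k) :
    ∃ v : ℝ → E2 → ℂ, ∃ W : ℤ → E2 → ℝ, (∀ t, v t =ᵐ[volume] Φ t) ∧
      (∀ᵐ x, Continuous fun t => v t x) ∧ (∀ k, Integrable (W k)) ∧ (∀ k x, 0 ≤ W k x) ∧
      (∀ k, ∫ x, W k x ≤ (1 / (1 - (1 / 2 : ℝ) ^ δ)) ^ 2 * b k) ∧
      ∀ᵐ x, ∀ (k : ℤ) (t : ℝ), (k : ℝ) ≤ t → t ≤ k + 1 → ‖v t x - Φ k x‖ ^ 2 ≤ W k x := by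
  set r := (1 / 2 : ℝ) ^ δ with hr
  have hr0 : 0 < r := by positivity
  have hr1 : r < 1 := Real.rpow_lt_one (by norm_num) (by norm_num) hδ
  have h1r : 0 < 1 - r := by linarith
  have hsum : ∀ k, Summable fun n => ∫ x, gk Φ r k n x := fun k =>
    Summable.of_nonneg_of_le (fun n => integral_nonneg fun x => gk_nonneg Φ hr0 k n x)
      (fun n => gk_integral Φ hδ hΦ k n) ((summable_geometric_of_lt_one hr0.le hr1).mul_right _)
  choose W0 w1 w2 w3 w4 using fun k => exists_sum (gk Φ r k) (gk_integrable Φ r k)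
    (gk_nonneg Φ hr0 k) (hsum k)
  have hW0 : ∀ k, ∫ x, W0 k x ≤ 1 / (1 - r) * b k := by
    intro k
    rw [w4 k]
    have h1 : HasSum (fun n : ℕ => r ^ n * b k) ((1 - r)⁻¹ * b k) :=
      (hasSum_geometric_of_lt_one hr0.le hr1).mul_right _
    rw [one_div, ← h1.tsum_eq]
    exact (hsum k).tsum_le_tsum (fun n => gk_integral Φ hδ hΦ k n) h1.summable
  have hae : ∀ᵐ x, ∀ k, HasSum (fun n => gk Φ r k n x) (W0 k x) := ae_of_countable w3
  refine ⟨ver Φ, fun k x => W0 k x / (1 - r), ?_, ?_, ?_, ?_, ?_, ?_⟩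
  · intro t
    have hlim : Tendsto (fun n => Φ (pt n t)) atTop (𝓝 (Φ t)) := by
      rw [tendsto_iff_norm_sub_tendsto_zero]
      have h1 : ∀ n, ‖Φ (pt n t) - Φ t‖ ^ 2 ≤ ((1 / 2 : ℝ) ^ n) * b ⌊t⌋ := by
        intro n
        rw [norm_sub_rev]
        refine (hΦ ⌊t⌋ (pt n t) t (le_pt n t) (pt_le n t) (Int.lt_floor_add_one t).le).trans ?_
        refine mul_le_mul_of_nonneg_right ?_ (hb _)
        have a1 : 0 ≤ t - pt n t := by have := pt_le n t; linarith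
        have a2 := sub_pt n t
        have a3 : t - pt n t ≤ 1 := a2.trans (pow_le_one₀ (by norm_num) (by norm_num))
        rcases eq_or_lt_of_le a1 with h0 | h0
        · rw [← h0, Real.zero_rpow (by linarith)]; positivity
        · have := Real.rpow_le_rpow_of_exponent_ge h0 a3 (show 1 ≤ 1 + 2 * δ by linarith)
          rw [Real.rpow_one] at this
          exact this.trans a2
      have h2 : Tendsto (fun n : ℕ => ((1 / 2 : ℝ) ^ n) * b ⌊t⌋) atTop (𝓝 (0 * b ⌊t⌋)) :=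
        (tendsto_pow_atTop_nhds_zero_of_lt_one (by norm_num) (by norm_num)).mul_const _
      rw [zero_mul] at h2
      have h3 : Tendsto (fun n => ‖Φ (pt n t) - Φ t‖ ^ 2) atTop (𝓝 0) :=
        squeeze_zero (fun n => sq_nonneg _) h1 h2
      have h4 := h3.sqrt
      simp only [Real.sqrt_zero] at h4
      refine h4.congr fun n => ?_
      rw [Real.sqrt_sq (norm_nonneg _)]
    have hm := tendstoInMeasure_of_tendsto_Lp hlim
    obtain ⟨ns, hns, hns'⟩ := hm.exists_seq_tendsto_ae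
    filter_upwards [hns', hae] with x hx hx2
    have hs := (ek_summable Φ hr0 hr1 (hx2 ⌊t⌋)).1
    have h5 : Tendsto (fun N => Φ (pt N t) x) atTop (𝓝 (ver Φ t x)) := by
      rw [tendsto_iff_norm_sub_tendsto_zero]
      refine squeeze_zero (fun N => norm_nonneg _) (fun N => ?_)
        ((tendsto_sum_nat_add fun n => ek Φ r ⌊t⌋ n x).comp (tendsto_add_atTop_nat 1))
      rw [norm_sub_rev]
      exact ver_sub Φ hr0 t x hs N
    exact tendsto_nhds_unique (h5.comp hns.tendsto_atTop) hx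
  · filter_upwards [hae] with x hx
    exact ver_continuous Φ hr0 x fun k => (ek_summable Φ hr0 hr1 (hx k)).1
  · exact fun k => (w1 k).div_const _
  · exact fun k x => div_nonneg (w2 k x) h1r.le
  · intro k
    rw [integral_div]
    calc (∫ x, W0 k x) / (1 - r) ≤ (1 / (1 - r) * b k) / (1 - r) := by
          gcongr
          exact hW0 k
      _ = (1 / (1 - r)) ^ 2 * b k := by ring
  · filter_upwards [hae] with x hx k t ht1 ht2
    obtain ⟨s1, s2⟩ := ek_summable Φ hr0 hr1 (hx k)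
    have hw : 0 ≤ W0 k x / (1 - r) := div_nonneg (w2 k x) h1r.le
    have key : ‖ver Φ t x - Φ k x‖ ≤ Real.sqrt (W0 k x / (1 - r)) := by
      rcases eq_or_lt_of_le ht2 with h | h
      · have e1 : t = ((k + 1 : ℤ) : ℝ) := by rw [h]; push_cast; ring
        rw [e1, ver_int]
        have h1 := inc_le_ek Φ hr0 k 0 x (q := k) (by simp) (by simp)
        unfold inc at h1
        rw [pow_zero, div_one, div_one] at h1
        push_cast
        refine h1.trans (le_trans ?_ s2)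
        exact s1.le_tsum 0 fun n _ => ek_nonneg Φ r k n x
      · have e1 : ⌊t⌋ = k := by
          rw [Int.floor_eq_iff]
          exact ⟨ht1, h⟩
        have h1 := ver_sub Φ hr0 t x (by rw [e1]; exact s1) 0
        rw [pt_zero, e1] at h1
        refine h1.trans (le_trans ?_ s2)
        have h2 := s1.sum_add_tsum_nat_add 1
        have h3 : 0 ≤ ∑ i ∈ range 1, ek Φ r k i x := sum_nonneg fun i _ => ek_nonneg Φ r k i x
        simp only [zero_add]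
        linarith
    calc ‖ver Φ t x - Φ k x‖ ^ 2 ≤ Real.sqrt (W0 k x / (1 - r)) ^ 2 :=
          pow_le_pow_left₀ (norm_nonneg _) key 2
      _ = W0 k x / (1 - r) := Real.sq_sqrt hw

end chain

end Pool.Agent.H73.Hyp
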