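import Pool.Agent.H73.Hyp.Est3

/-! Hyperbolic cut-offs against mixed dyadic sums. -/

namespace Pool.Agent.H73.Hyp

open MeasureTheory FourierTransform Filter Topology Finset

/-- Bessel's inequality for projections with orthogonal ranges -/
theorem bessel {H ι : Type*} [NormedAddCommGroup H] [InnerProductSpace ℂ H] [DecidableEq ι]
    (X : ι → H → H) (hs : ∀ i f g, inner ℂ (X i f) g = inner ℂ f (X i g))
    (hi : ∀ i f, X i (X i f) = X i f) (ho : ∀ i j f, i ≠ j → X i (X j f) = 0)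
    (s : Finset ι) (f : H) : ∑ i ∈ s, ‖X i f‖ ^ 2 ≤ ‖f‖ ^ 2 := by
  set g := ∑ i ∈ s, X i f with hg
  have h1 : ‖g‖ ^ 2 = ∑ i ∈ s, ‖X i f‖ ^ 2 :=
    norm_sum_sq_orth s _ fun i _ j _ hij => by rw [hs, ho i j f hij, inner_zero_right]
  have h2 : (inner ℂ g f : ℂ) = ((∑ i ∈ s, ‖X i f‖ ^ 2 : ℝ) : ℂ) := by
    rw [hg, sum_inner]
    push_cast
    refine sum_congr rfl fun i _ => ?_
    rw [← hi i f, hs, hi, inner_self_eq_norm_sq_to_K]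
    norm_cast
  have h3 : ‖(inner ℂ g f : ℂ)‖ ≤ ‖g‖ * ‖f‖ := norm_inner_le_norm g f
  rw [h2, Complex.norm_real, Real.norm_eq_abs, abs_of_nonneg (sum_nonneg fun i _ => sq_nonneg _),
    ← h1] at h3
  rw [← h1]
  rcases eq_or_lt_of_le (norm_nonneg g) with h0 | h0
  · rw [← h0, zero_pow two_ne_zero]; exact sq_nonneg _
  · have : ‖g‖ ≤ ‖f‖ := by
      have h4 : ‖g‖ * ‖g‖ ≤ ‖g‖ * ‖f‖ := by rw [← sq]; exact h3
      exact le_of_mul_le_mul_left h4 h0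
    exact pow_le_pow_left₀ (norm_nonneg _) this 2

theorem Pi_disjoint {S T : Set E2} (hS : MeasurableSet S) (hT : MeasurableSet T)
    (h : ∀ ξ, ξ ∈ S → ξ ∉ T) (f : L2) : Pi S hS (Pi T hT f) = 0 := by
  refine fourier_inj ?_
  ext1
  have e0 : (𝓕 (0 : L2) : L2) = 0 := (Lp.fourierTransformₗᵢ E2 ℂ).map_zero
  rw [e0]
  filter_upwards [Pi_coe hS (Pi T hT f), Pi_coe hT f, Lp.coeFn_zero ℂ 2 (volume : Measure E2)]
    with ξ h1 h2 h3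
  rw [h1, h3]
  by_cases a : ξ ∈ S
  · rw [Set.indicator_of_mem a, h2, Set.indicator_of_notMem (h ξ a)]; rfl
  · rw [Set.indicator_of_notMem a]; rfl

theorem norm_le_of_fourier {a b : L2} (h : ∀ᵐ ξ : E2, ‖(𝓕 a : L2) ξ‖ ≤ ‖(𝓕 b : L2) ξ‖) :
    ‖a‖ ^ 2 ≤ ‖b‖ ^ 2 := by
  rw [norm_sq_fourier, norm_sq_fourier b]
  refine integral_mono_ae (integrable_sq _) (integrable_sq _) ?_
  filter_upwards [h] with ξ hξ
  exact pow_le_pow_left₀ (norm_nonneg _) hξ 2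

/-! ### Bands in the second coordinate -/

theorem band_meas (m : ℤ) : MeasurableSet {ξ : E2 | ξ 1 ∈ Bn (m + 1) \ Bn m} :=
  measurable_coord 1 ((Bn_meas _).diff (Bn_meas _))

/-- the frequencies with second coordinate between `2 ^ m` and `2 ^ (m + 1)` -/
noncomputable def Rb (m : ℤ) : L2 →L[ℂ] L2 := Pi {ξ | ξ 1 ∈ Bn (m + 1) \ Bn m} (band_meas m)

theorem Rb_eq (m : ℤ) (f : L2) : Rb m f = Pc 1 (m + 1) f - Pc 1 m f := by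
  refine fourier_inj ?_
  ext1
  rw [fourier_sub]
  filter_upwards [Pi_coe (band_meas m) f, Pc_coe 1 (m + 1) f, Pc_coe 1 m f,
    Lp.coeFn_sub (𝓕 (Pc 1 (m + 1) f) : L2) (𝓕 (Pc 1 m f))] with ξ h1 h2 h3 h4
  unfold Rb
  rw [h1, h4, Pi.sub_apply, h2, h3]
  by_cases a : ξ 1 ∈ Bn m
  · have b : ξ 1 ∈ Bn (m + 1) := Bn_mono (by omega) a
    have a' : ξ ∈ {ξ : E2 | ξ 1 ∈ Bn m} := a
    have b' : ξ ∈ {ξ : E2 | ξ 1 ∈ Bn (m + 1)} := b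
    have c' : ξ ∉ {ξ : E2 | ξ 1 ∈ Bn (m + 1) \ Bn m} := fun h => h.2 a
    rw [Set.indicator_of_mem a', Set.indicator_of_mem b', Set.indicator_of_notMem c', sub_self]
  · have a' : ξ ∉ {ξ : E2 | ξ 1 ∈ Bn m} := a
    by_cases b : ξ 1 ∈ Bn (m + 1)
    · have b' : ξ ∈ {ξ : E2 | ξ 1 ∈ Bn (m + 1)} := b
      have c' : ξ ∈ {ξ : E2 | ξ 1 ∈ Bn (m + 1) \ Bn m} := ⟨b, a⟩
      rw [Set.indicator_of_notMem a', Set.indicator_of_mem b', Set.indicator_of_mem c', sub_zero]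
    · have b' : ξ ∉ {ξ : E2 | ξ 1 ∈ Bn (m + 1)} := b
      have c' : ξ ∉ {ξ : E2 | ξ 1 ∈ Bn (m + 1) \ Bn m} := fun h => b h.1
      rw [Set.indicator_of_notMem a', Set.indicator_of_notMem b', Set.indicator_of_notMem c',
        sub_zero]

theorem Rb_inner (m : ℤ) (f g : L2) : inner ℂ (Rb m f) g = inner ℂ f (Rb m g) := Pi_inner _ f g

theorem Rb_idem (m : ℤ) (f : L2) : Rb m (Rb m f) = Rb m f := Pi_idem _ f

theorem Rb_ne {m m' : ℤ} (h : m ≠ m') (f : L2) : Rb m (Rb m' f) = 0 := by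
  refine Pi_disjoint _ _ (fun ξ h1 h2 => ?_) f
  rcases lt_or_gt_of_ne h with h | h
  · exact h2.2 (Bn_mono (by omega) h1.1)
  · exact h1.2 (Bn_mono (by omega) h2.1)

theorem Rb_Uf (m l : ℤ) (f : L2) : Rb m (Uf 0 l f) = Uf 0 l (Rb m f) :=
  Pi_Uf (by decide) l ((Bn_meas _).diff (Bn_meas _)) f

theorem Rb_Ep (m i : ℤ) (f : L2) : Rb m (Ep (Uf 0) i f) = Ep (Uf 0) i (Rb m f) :=
  (Ep_comm (Rb_inner m) (fun l g => Rb_Uf m l g) i f).symm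

theorem sum_Rb {a b : ℤ} (h : a ≤ b) (f : L2) :
    ∑ m ∈ Ico a b, Rb m f = Pc 1 b f - Pc 1 a f := by
  obtain ⟨n, rfl⟩ := Int.le.dest h
  induction n with
  | zero => simp
  | succ n ih =>
    have e : Ico a (a + (n + 1 : ℕ)) = insert (a + n) (Ico a (a + n)) := by
      ext x
      simp only [mem_Ico, mem_insert]
      push_cast
      omega
    rw [e, sum_insert (by simp), ih (by omega), Rb_eq]
    push_cast
    rw [show a + (n : ℤ) + 1 = a + ((n : ℤ) + 1) by ring]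
    abel

theorem sum_Rb_sq (s : Finset ℤ) (f : L2) : ∑ m ∈ s, ‖Rb m f‖ ^ 2 ≤ ‖f‖ ^ 2 :=
  bessel (fun m f => Rb m f) Rb_inner Rb_idem (fun _ _ f h => Rb_ne h f) s f

/-! ### The hyperbolic cut-offs -/

theorem hyp_meas (k : ℤ) : MeasurableSet {ξ : E2 | |ξ 0 * ξ 1| < (2 : ℝ) ^ k} := by
  refine measurableSet_lt ?_ measurable_const
  exact (continuous_abs.measurable).comp ((measurable_coord 0).mul (measurable_coord 1))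

/-- the cut-off to the hyperbolic cross -/
noncomputable def Hc (k : ℤ) : L2 →L[ℂ] L2 := Pi {ξ | |ξ 0 * ξ 1| < (2 : ℝ) ^ k} (hyp_meas k)

theorem shell_meas (k : ℤ) :
    MeasurableSet {ξ : E2 | |ξ 0 * ξ 1| < (2 : ℝ) ^ k ∧ (2 : ℝ) ^ (k - 1) ≤ |ξ 0 * ξ 1|} :=
  (hyp_meas k).inter (measurableSet_le measurable_const
    ((continuous_abs.measurable).comp ((measurable_coord 0).mul (measurable_coord 1))))

/-- the hyperbolic shells -/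
noncomputable def Sh (k : ℤ) : L2 →L[ℂ] L2 :=
  Pi {ξ | |ξ 0 * ξ 1| < (2 : ℝ) ^ k ∧ (2 : ℝ) ^ (k - 1) ≤ |ξ 0 * ξ 1|} (shell_meas k)

theorem sum_Sh_sq (s : Finset ℤ) (f : L2) : ∑ k ∈ s, ‖Sh k f‖ ^ 2 ≤ ‖f‖ ^ 2 := by
  refine bessel (fun k f => Sh k f) (fun k => Pi_inner _) (fun k => Pi_idem _) ?_ s f
  intro i j f h
  refine Pi_disjoint _ _ (fun ξ h1 h2 => ?_) f
  have a1 : |ξ 0 * ξ 1| < (2 : ℝ) ^ i := h1.1
  have a2 : (2 : ℝ) ^ (i - 1) ≤ |ξ 0 * ξ 1| := h1.2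
  have b1 : |ξ 0 * ξ 1| < (2 : ℝ) ^ j := h2.1
  have b2 : (2 : ℝ) ^ (j - 1) ≤ |ξ 0 * ξ 1| := h2.2
  have c1 := (zpow_lt_zpow_iff_right₀ (one_lt_two (α := ℝ))).1 (a2.trans_lt b1)
  have c2 := (zpow_lt_zpow_iff_right₀ (one_lt_two (α := ℝ))).1 (b2.trans_lt a1)
  omega

theorem Hc_Pc_aux (k m : ℤ) (f : L2) :
    ‖Hc k (Rb m f) - Pc 0 (k - m - 1) (Rb m f)‖ ^ 2 ≤ ‖Sh k (Rb m f)‖ ^ 2 := by
  refine norm_le_of_fourier ?_
  rw [fourier_sub]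
  filter_upwards [Lp.coeFn_sub (𝓕 (Hc k (Rb m f)) : L2) (𝓕 (Pc 0 (k - m - 1) (Rb m f))),
    Pi_coe (hyp_meas k) (Rb m f), Pc_coe 0 (k - m - 1) (Rb m f), Pi_coe (shell_meas k) (Rb m f),
    Pi_coe (band_meas m) f] with ξ h1 h2 h3 h4 h5
  rw [h1, Pi.sub_apply, h3]
  unfold Hc Sh
  rw [h2, h4]
  by_cases hb : ξ ∈ {ξ : E2 | ξ 1 ∈ Bn (m + 1) \ Bn m}
  · have b1 : |ξ 1| < (2 : ℝ) ^ (m + 1) := hb.1
    have b2 : (2 : ℝ) ^ m ≤ |ξ 1| := not_lt.1 hb.2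
    by_cases c : |ξ 0| < (2 : ℝ) ^ (k - m - 1)
    · have c' : ξ ∈ {ξ : E2 | ξ 0 ∈ Bn (k - m - 1)} := c
      have d' : ξ ∈ {ξ : E2 | |ξ 0 * ξ 1| < (2 : ℝ) ^ k} := by
        change |ξ 0 * ξ 1| < (2 : ℝ) ^ k
        rw [abs_mul]
        calc |ξ 0| * |ξ 1| < (2 : ℝ) ^ (k - m - 1) * (2 : ℝ) ^ (m + 1) :=
              mul_lt_mul'' c b1 (abs_nonneg _) (abs_nonneg _)
          _ = (2 : ℝ) ^ k := by
              rw [← zpow_add₀ two_ne_zero]; congr 1; ring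
      rw [Set.indicator_of_mem c', Set.indicator_of_mem d', sub_self, norm_zero]
      exact norm_nonneg _
    · have c' : ξ ∉ {ξ : E2 | ξ 0 ∈ Bn (k - m - 1)} := c
      rw [Set.indicator_of_notMem c', sub_zero]
      by_cases d : |ξ 0 * ξ 1| < (2 : ℝ) ^ k
      · have d' : ξ ∈ {ξ : E2 | |ξ 0 * ξ 1| < (2 : ℝ) ^ k ∧ (2 : ℝ) ^ (k - 1) ≤ |ξ 0 * ξ 1|} := by
          refine ⟨d, ?_⟩
          rw [abs_mul]
          calc (2 : ℝ) ^ (k - 1) = (2 : ℝ) ^ (k - m - 1) * (2 : ℝ) ^ m := by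
                rw [← zpow_add₀ two_ne_zero]; congr 1; ring
            _ ≤ |ξ 0| * |ξ 1| := mul_le_mul (not_lt.1 c) b2 (by positivity) (abs_nonneg _)
        have e' : ξ ∈ {ξ : E2 | |ξ 0 * ξ 1| < (2 : ℝ) ^ k} := d
        rw [Set.indicator_of_mem d', Set.indicator_of_mem e']
      · have e' : ξ ∉ {ξ : E2 | |ξ 0 * ξ 1| < (2 : ℝ) ^ k} := d
        rw [Set.indicator_of_notMem e', norm_zero]
        exact norm_nonneg _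
  · have h6 : (𝓕 (Rb m f) : L2) ξ = 0 := by
      unfold Rb
      rw [h5, Set.indicator_of_notMem hb]
    have h7 : ∀ S : Set E2, S.indicator (𝓕 (Rb m f) : L2) ξ = 0 := by
      intro S
      by_cases h : ξ ∈ S
      · rw [Set.indicator_of_mem h, h6]
      · rw [Set.indicator_of_notMem h]
    rw [h7, h7, h7, sub_zero]

theorem norm_sub_sq_le {H : Type*} [NormedAddCommGroup H] (a b c : H) :
    ‖a - c‖ ^ 2 ≤ 2 * ‖a - b‖ ^ 2 + 2 * ‖b - c‖ ^ 2 := by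
  have h1 : ‖a - c‖ ≤ ‖a - b‖ + ‖b - c‖ := norm_sub_le_norm_sub_add_norm_sub a b c
  have h2 := norm_nonneg (a - c)
  nlinarith [sq_nonneg (‖a - b‖ - ‖b - c‖)]

theorem Hc_Ep (m : ℤ) (K : Finset ℤ) (f : L2) :
    ∑ k ∈ K, ‖Hc k (Rb m f) - Ep (Uf 0) (k - m) (Rb m f)‖ ^ 2 ≤ 1154 * ‖Rb m f‖ ^ 2 := by
  have h1 : ∑ k ∈ K, ‖Hc k (Rb m f) - Pc 0 (k - m - 1) (Rb m f)‖ ^ 2 ≤ ‖Rb m f‖ ^ 2 :=
    (sum_le_sum fun k _ => Hc_Pc_aux k m f).trans (sum_Sh_sq K _)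
  have h2 : ∑ k ∈ K, ‖Pc 0 (k - m - 1) (Rb m f) - Ep (Uf 0) (k - m) (Rb m f)‖ ^ 2 ≤
      576 * ‖Rb m f‖ ^ 2 := by
    have h3 := sqf 0 (K.image fun k => k - m - 1) (Rb m f)
    rw [sum_image (fun a _ b _ h => by
      have h' : a - m - 1 = b - m - 1 := h
      omega)] at h3
    refine le_trans (le_of_eq (sum_congr rfl fun k _ => ?_)) h3
    rw [sub_add_cancel]
  calc ∑ k ∈ K, ‖Hc k (Rb m f) - Ep (Uf 0) (k - m) (Rb m f)‖ ^ 2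
      ≤ ∑ k ∈ K, (2 * ‖Hc k (Rb m f) - Pc 0 (k - m - 1) (Rb m f)‖ ^ 2 +
          2 * ‖Pc 0 (k - m - 1) (Rb m f) - Ep (Uf 0) (k - m) (Rb m f)‖ ^ 2) :=
        sum_le_sum fun k _ => norm_sub_sq_le _ _ _
    _ = 2 * ∑ k ∈ K, ‖Hc k (Rb m f) - Pc 0 (k - m - 1) (Rb m f)‖ ^ 2 +
          2 * ∑ k ∈ K, ‖Pc 0 (k - m - 1) (Rb m f) - Ep (Uf 0) (k - m) (Rb m f)‖ ^ 2 := by
        rw [sum_add_distrib, ← mul_sum, ← mul_sum]
    _ ≤ 1154 * ‖Rb m f‖ ^ 2 := by linarith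

theorem Rb_Hc (m k : ℤ) (f : L2) : Rb m (Hc k f) = Hc k (Rb m f) := Pi_comm _ _ f

/-- the mixed sums -/
noncomputable def Fs (M : ℕ) (k : ℤ) (f : L2) : L2 :=
  ∑ m ∈ Ico (-(M : ℤ)) M, Ep (Uf 0) (k - m) (Rb m f)

/-- band limited in the second coordinate -/
def Band (M : ℕ) (f : L2) : Prop := Pc 1 M f = f ∧ Pc 1 (-M) f = 0

theorem sum_Rb_band {M : ℕ} {f : L2} (h : Band M f) : ∑ m ∈ Ico (-(M : ℤ)) M, Rb m f = f := by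
  rw [sum_Rb (by omega), h.1, h.2, sub_zero]

/-- step 1 and 2 -/
theorem Hc_Fs {M : ℕ} {f : L2} (h : Band M f) (K : Finset ℤ) :
    ∑ k ∈ K, ‖Hc k f - Fs M k f‖ ^ 2 ≤ 1154 * ‖f‖ ^ 2 := by
  have e : ∀ k, ‖Hc k f - Fs M k f‖ ^ 2 = ∑ m ∈ Ico (-(M : ℤ)) M,
      ‖Hc k (Rb m f) - Ep (Uf 0) (k - m) (Rb m f)‖ ^ 2 := by
    intro k
    have e1 : Hc k f - Fs M k f = ∑ m ∈ Ico (-(M : ℤ)) M,
        (Hc k (Rb m f) - Ep (Uf 0) (k - m) (Rb m f)) := by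
      rw [sum_sub_distrib, ← map_sum, sum_Rb_band h]
      rfl
    rw [e1]
    refine norm_sum_sq_orth _ _ fun i _ j _ hij => ?_
    have e2 : ∀ m, Hc k (Rb m f) - Ep (Uf 0) (k - m) (Rb m f) =
        Rb m (Hc k (Rb m f) - Ep (Uf 0) (k - m) (Rb m f)) := by
      intro m
      rw [map_sub, Rb_Hc, Rb_Ep, Rb_idem]
    rw [e2 i, e2 j, Rb_inner, Rb_ne hij, inner_zero_right]
  simp_rw [e]
  rw [sum_comm]
  calc ∑ m ∈ Ico (-(M : ℤ)) M, ∑ k ∈ K, ‖Hc k (Rb m f) - Ep (Uf 0) (k - m) (Rb m f)‖ ^ 2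
      ≤ ∑ m ∈ Ico (-(M : ℤ)) M, 1154 * ‖Rb m f‖ ^ 2 := sum_le_sum fun m _ => Hc_Ep m K f
    _ = 1154 * ∑ m ∈ Ico (-(M : ℤ)) M, ‖Rb m f‖ ^ 2 := by rw [mul_sum]
    _ ≤ 1154 * ‖f‖ ^ 2 := by
        have := sum_Rb_sq (Ico (-(M : ℤ)) M) f
        linarith

end Pool.Agent.H73.Hyp
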