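import Pool.Agent.H73.Hyp.TwoPoint

/-! Maximal inequalities for dyadic martingales, in terms of measure preserving flips. -/

namespace Pool.Agent.H73.Hyp

open Finset MeasureTheory

section basic

variable {Ω : Type*}

/-- partial sums -/
def psum (d : ℕ → Ω → ℝ) (n : ℕ) (x : Ω) : ℝ := ∑ j ∈ range n, d j x

/-- maximal function of the partial sums -/
noncomputable def Mx (d : ℕ → Ω → ℝ) : ℕ → Ω → ℝ
  | 0, _ => 0
  | n + 1, x => max (Mx d n x) |psum d (n + 1) x|

theorem Mx_nonneg (d : ℕ → Ω → ℝ) (n : ℕ) (x : Ω) : 0 ≤ Mx d n x := by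
  induction n with
  | zero => exact le_rfl
  | succ n ih => exact le_trans ih (le_max_left _ _)

theorem Mx_mono (d : ℕ → Ω → ℝ) {m n : ℕ} (h : m ≤ n) (x : Ω) : Mx d m x ≤ Mx d n x := by
  induction n with
  | zero =>
    obtain rfl : m = 0 := by omega
    exact le_rfl
  | succ n ih =>
    rcases Nat.lt_or_ge m (n + 1) with h1 | h1
    · exact le_trans (ih (by omega)) (le_max_left _ _)
    · obtain rfl : m = n + 1 := by omega
      exact le_rfl

theorem abs_psum_le (d : ℕ → Ω → ℝ) {m n : ℕ} (h : m ≤ n) (x : Ω) : |psum d m x| ≤ Mx d n x := by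
  refine le_trans ?_ (Mx_mono d h x)
  cases m with
  | zero => simp [psum, Mx]
  | succ m => exact le_max_right _ _

end basic

variable {Ω : Type*} [MeasurableSpace Ω] {μ : Measure Ω}

theorem memLp_psum {d : ℕ → Ω → ℝ} (hd : ∀ j, MemLp (d j) 2 μ) (n : ℕ) :
    MemLp (psum d n) 2 μ := by
  have : psum d n = fun x => ∑ j ∈ range n, d j x := rfl
  rw [this]
  exact memLp_finsetSum _ fun j _ => hd j

theorem memLp_Mx {d : ℕ → Ω → ℝ} (hd : ∀ j, MemLp (d j) 2 μ) (n : ℕ) :
    MemLp (Mx d n) 2 μ := by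
  induction n with
  | zero =>
    have : Mx d 0 = fun _ : Ω => (0 : ℝ) := rfl
    rw [this]
    exact MemLp.zero'
  | succ n ih =>
    have : Mx d (n + 1) = Mx d n ⊔ fun x => |psum d (n + 1) x| := rfl
    rw [this]
    exact ih.sup (memLp_psum hd (n + 1)).abs

/-- invariance of the integral -/
theorem integral_flip {τ : Ω → Ω} (hτ : MeasurePreserving τ μ μ) {f : Ω → ℝ}
    (hf : AEStronglyMeasurable f μ) : ∫ x, f (τ x) ∂μ = ∫ x, f x ∂μ := by
  have h : AEStronglyMeasurable f (Measure.map τ μ) := by rw [hτ.map_eq]; exact hf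
  have := integral_map hτ.measurable.aemeasurable h
  rw [hτ.map_eq] at this
  exact this.symm

section flip

variable {d : ℕ → Ω → ℝ} {τ : ℕ → Ω → Ω}

theorem psum_flip (hinv : ∀ i j, i < j → (fun x => d i (τ j x)) =ᵐ[μ] d i) {n j : ℕ} (h : n ≤ j) :
    (fun x => psum d n (τ j x)) =ᵐ[μ] psum d n := by
  induction n with
  | zero => simp [psum]; rfl
  | succ n ih =>
    filter_upwards [ih (by omega), hinv n j (by omega)] with x h1 h2
    simp only [psum, sum_range_succ] at *
    rw [h1, h2]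

theorem Mx_flip (hinv : ∀ i j, i < j → (fun x => d i (τ j x)) =ᵐ[μ] d i) {n j : ℕ} (h : n ≤ j) :
    (fun x => Mx d n (τ j x)) =ᵐ[μ] Mx d n := by
  induction n with
  | zero => exact Filter.EventuallyEq.rfl
  | succ n ih =>
    filter_upwards [ih (by omega), psum_flip (μ := μ) hinv (n := n + 1) (by omega)] with x h1 h2
    simp only [Mx]
    rw [h1, h2]

/-- Doob's maximal inequality in `L²`. -/
theorem doob (hd : ∀ j, MemLp (d j) 2 μ) (hτ : ∀ j, MeasurePreserving (τ j) μ μ)
    (hneg : ∀ j, (fun x => d j (τ j x)) =ᵐ[μ] fun x => -d j x)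
    (hinv : ∀ i j, i < j → (fun x => d i (τ j x)) =ᵐ[μ] d i) (n : ℕ) :
    ∫ x, (Mx d n x) ^ 2 ∂μ ≤ 4 * ∫ x, (psum d n x) ^ 2 ∂μ := by
  have hM := fun n => memLp_Mx hd n
  have hf := fun n => memLp_psum hd n
  have iM := fun n => (hM n).integrable_sq
  have ifn := fun n => (hf n).integrable_sq
  have iMf : ∀ n m, Integrable (fun x => Mx d n x * |psum d m x|) μ := fun n m =>
    (hM n).integrable_mul (hf m).abs
  have key : ∀ n, ∫ x, (Mx d n x) ^ 2 ∂μ ≤ 2 * ∫ x, Mx d n x * |psum d n x| ∂μ := by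
    intro n
    induction n with
    | zero => simp [Mx]
    | succ n ih =>
      -- symmetrisation
      have h1 : ∫ x, Mx d n x * |psum d n x| ∂μ ≤ ∫ x, Mx d n x * |psum d (n + 1) x| ∂μ := by
        have h2 : ∫ x, Mx d n (τ n x) * |psum d (n + 1) (τ n x)| ∂μ =
            ∫ x, Mx d n x * |psum d (n + 1) x| ∂μ :=
          integral_flip (hτ n) (iMf n (n + 1)).aestronglyMeasurable
        have i2 : Integrable (fun x => Mx d n (τ n x) * |psum d (n + 1) (τ n x)|) μ :=
          (hτ n).integrable_comp_of_integrable (iMf n (n + 1))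
        have h3 : ∫ x, (Mx d n x * |psum d n x|) * 2 ∂μ ≤
            ∫ x, (Mx d n x * |psum d (n + 1) x| +
              Mx d n (τ n x) * |psum d (n + 1) (τ n x)|) ∂μ := by
          refine integral_mono_ae ((iMf n n).mul_const 2) ((iMf n (n + 1)).add i2) ?_
          filter_upwards [psum_flip (μ := μ) hinv (n := n) le_rfl, Mx_flip (μ := μ) hinv
            (n := n) le_rfl, hneg n] with x e1 e2 e3
          have e4 : psum d (n + 1) (τ n x) = psum d n x - d n x := by
            have : psum d (n + 1) (τ n x) = psum d n (τ n x) + d n (τ n x) := by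
              simp only [psum, sum_range_succ]
            rw [this, e1, e3]; ring
          have e5 : psum d (n + 1) x = psum d n x + d n x := by
            simp only [psum, sum_range_succ]
          rw [e2, e4, e5]
          have e6 : 2 * |psum d n x| ≤ |psum d n x + d n x| + |psum d n x - d n x| := by
            have := abs_add_le (psum d n x + d n x) (psum d n x - d n x)
            have h7 : psum d n x + d n x + (psum d n x - d n x) = 2 * psum d n x := by ring
            rw [h7, abs_mul, abs_two] at this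
            exact this
          have e7 := mul_le_mul_of_nonneg_left e6 (Mx_nonneg d n x)
          linarith
        rw [integral_mul_const, integral_add (iMf n (n + 1)) i2, h2] at h3
        linarith
      have h3 : ∫ x, (Mx d (n + 1) x) ^ 2 ∂μ + 2 * ∫ x, Mx d n x * |psum d (n + 1) x| ∂μ ≤
          ∫ x, (Mx d n x) ^ 2 ∂μ + 2 * ∫ x, Mx d (n + 1) x * |psum d (n + 1) x| ∂μ := by
        rw [← integral_const_mul, ← integral_const_mul,
          ← integral_add (iM (n + 1)) ((iMf n (n + 1)).const_mul 2),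
          ← integral_add (iM n) ((iMf (n + 1) (n + 1)).const_mul 2)]
        refine integral_mono ((iM (n + 1)).add ((iMf n (n + 1)).const_mul 2))
          ((iM n).add ((iMf (n + 1) (n + 1)).const_mul 2)) fun x => ?_
        simp only [Mx]
        rcases le_total |psum d (n + 1) x| (Mx d n x) with h | h
        · rw [max_eq_left h]
        · rw [max_eq_right h]
          nlinarith [sq_nonneg (Mx d n x - |psum d (n + 1) x|)]
      linarith
  have h1 := key n
  have h2 : 2 * ∫ x, Mx d n x * |psum d n x| ∂μ ≤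
      1 / 2 * ∫ x, (Mx d n x) ^ 2 ∂μ + 2 * ∫ x, (psum d n x) ^ 2 ∂μ := by
    rw [← integral_const_mul, ← integral_const_mul, ← integral_const_mul,
      ← integral_add ((iM n).const_mul _) ((ifn n).const_mul _)]
    refine integral_mono ((iMf n n).const_mul 2)
      (((iM n).const_mul _).add ((ifn n).const_mul _)) fun x => ?_
    have := sq_nonneg (Mx d n x - 2 * |psum d n x|)
    have h3 : |psum d n x| ^ 2 = (psum d n x) ^ 2 := sq_abs _
    simp only
    nlinarith
  linarith

/-- Orthogonality. -/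
theorem psum_sq (hd : ∀ j, MemLp (d j) 2 μ) (hτ : ∀ j, MeasurePreserving (τ j) μ μ)
    (hneg : ∀ j, (fun x => d j (τ j x)) =ᵐ[μ] fun x => -d j x)
    (hinv : ∀ i j, i < j → (fun x => d i (τ j x)) =ᵐ[μ] d i) (n : ℕ) :
    ∫ x, (psum d n x) ^ 2 ∂μ = ∑ j ∈ range n, ∫ x, (d j x) ^ 2 ∂μ := by
  induction n with
  | zero => simp [psum]
  | succ n ih =>
    have hf := memLp_psum hd n
    have i1 : Integrable (fun x => psum d n x * d n x) μ := hf.integrable_mul (hd n)
    have h0 : ∫ x, psum d n x * d n x ∂μ = 0 := by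
      have h1 : ∫ x, psum d n (τ n x) * d n (τ n x) ∂μ = ∫ x, psum d n x * d n x ∂μ :=
        integral_flip (hτ n) i1.aestronglyMeasurable
      have h2 : ∫ x, psum d n (τ n x) * d n (τ n x) ∂μ = ∫ x, -(psum d n x * d n x) ∂μ := by
        refine integral_congr_ae ?_
        filter_upwards [psum_flip (μ := μ) hinv (n := n) le_rfl, hneg n] with x e1 e2
        rw [e1, e2]; ring
      rw [integral_neg] at h2
      linarith
    rw [sum_range_succ, ← ih]
    have h3 : ∀ x, (psum d (n + 1) x) ^ 2 =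
        (psum d n x) ^ 2 + 2 * (psum d n x * d n x) + (d n x) ^ 2 := by
      intro x
      simp only [psum, sum_range_succ]; ring
    have i2 : Integrable (fun x => (psum d n x) ^ 2 + 2 * (psum d n x * d n x)) μ :=
      hf.integrable_sq.add (i1.const_mul 2)
    rw [integral_congr_ae (Filter.Eventually.of_forall h3),
      integral_add i2 (hd n).integrable_sq,
      integral_add hf.integrable_sq (i1.const_mul 2), integral_const_mul, h0]
    ring

end flip

/-! ### The hyperbolic partial sums -/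

section hyp

variable {b : ℕ → ℕ → Ω → ℝ} {σ τ : ℕ → Ω → Ω}

/-- the sum over the columns `i < l` -/
noncomputable def vv (b : ℕ → ℕ → Ω → ℝ) (n' l : ℕ) (x : Ω) (k : ℤ) : ℝ :=
  ∑ i ∈ range l, ∑ j ∈ (range n').filter (fun j : ℕ => (i : ℤ) + j ≤ k), b i j x

/-- the column `l` -/
noncomputable def dd (b : ℕ → ℕ → Ω → ℝ) (n' l : ℕ) (x : Ω) (k : ℤ) : ℝ :=
  ∑ j ∈ (range n').filter (fun j : ℕ => (l : ℤ) + j ≤ k), b l j x

omit [MeasurableSpace Ω] in
theorem vv_succ (n' l : ℕ) (x : Ω) : vv b n' (l + 1) x = fun k => vv b n' l x k + dd b n' l x k := by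
  funext k
  simp only [vv, dd, sum_range_succ]

omit [MeasurableSpace Ω] in
theorem dd_eq (n' l : ℕ) (x : Ω) (k : ℤ) : ∃ c ≤ n', dd b n' l x k = psum (b l) c x := by
  refine ⟨min n' (k - l + 1).toNat, min_le_left _ _, ?_⟩
  unfold dd psum
  congr 1
  ext j
  simp only [mem_filter, mem_range]
  omega

omit [MeasurableSpace Ω] in
theorem nrm_dd_le (S : Finset ℤ) (m : ℕ) (hm : 1 ≤ m) (n' l : ℕ) (x : Ω) :
    nrm S m (dd b n' l x) ≤ (S.card : ℝ) ^ ((1 : ℝ) / m) * (Mx (b l) n' x) ^ 2 := by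
  refine nrm_le S m hm _ (sq_nonneg _) fun k _ => ?_
  obtain ⟨c, hc, h⟩ := dd_eq (b := b) n' l x k
  rw [h, ← sq_abs]
  exact pow_le_pow_left₀ (abs_nonneg _) (abs_psum_le _ hc x) 2

theorem aem_nrm {κ : Type*} (S : Finset κ) (m : ℕ) {v : Ω → κ → ℝ}
    (hv : ∀ k, AEStronglyMeasurable (fun x => v x k) μ) :
    AEStronglyMeasurable (fun x => nrm S m (v x)) μ := by
  have h1 : AEMeasurable (fun x => ∑ k ∈ S, (v x k) ^ (2 * m)) μ := by
    refine Finset.aemeasurable_fun_sum _ fun k _ => ?_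
    exact (hv k).aemeasurable.pow_const _
  exact (h1.pow_const _).aestronglyMeasurable

theorem integrable_nrm {κ : Type*} (S : Finset κ) (m : ℕ) (hm : 1 ≤ m) {v : Ω → κ → ℝ}
    (hv : ∀ k, MemLp (fun x => v x k) 2 μ) : Integrable (fun x => nrm S m (v x)) μ := by
  have h1 : Integrable (fun x => (S.card : ℝ) ^ ((1 : ℝ) / m) * ∑ k ∈ S, (v x k) ^ 2) μ :=
    (integrable_finsetSum _ fun k _ => (hv k).integrable_sq).const_mul _
  refine h1.mono' (aem_nrm S m fun k => (hv k).aestronglyMeasurable) ?_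
  filter_upwards with x
  rw [Real.norm_eq_abs, abs_of_nonneg (nrm_nonneg _ _ _)]
  exact nrm_le S m hm _ (sum_nonneg fun k _ => sq_nonneg _) fun k hk =>
    single_le_sum (f := fun k => (v x k) ^ 2) (fun k _ => sq_nonneg _) hk

/-- The maximal inequality for the hyperbolic partial sums, in the `ℓ^(2m)` form. -/
theorem hyp_nrm (hb : ∀ i j, MemLp (b i j) 2 μ)
    (hσ : ∀ l, MeasurePreserving (σ l) μ μ) (hτ : ∀ l, MeasurePreserving (τ l) μ μ)
    (hσn : ∀ i j, (fun x => b i j (σ i x)) =ᵐ[μ] fun x => -b i j x)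
    (hσi : ∀ i j l, i < l → (fun x => b i j (σ l x)) =ᵐ[μ] b i j)
    (hτn : ∀ i j, (fun x => b i j (τ j x)) =ᵐ[μ] fun x => -b i j x)
    (hτi : ∀ i j l, j < l → (fun x => b i j (τ l x)) =ᵐ[μ] b i j)
    (S : Finset ℤ) (m : ℕ) (hm : 1 ≤ m) (n' l : ℕ) :
    ∫ x, nrm S m (vv b n' l x) ∂μ ≤
      (2 * m - 1) * (S.card : ℝ) ^ ((1 : ℝ) / m) * 4 *
        ∑ i ∈ range l, ∑ j ∈ range n', ∫ x, (b i j x) ^ 2 ∂μ := by
  have hm1 : (1 : ℝ) ≤ m := by exact_mod_cast hm
  have hv : ∀ l k, MemLp (fun x => vv b n' l x k) 2 μ := fun l k => by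
    unfold vv
    exact memLp_finsetSum _ fun i _ => memLp_finsetSum _ fun j _ => hb i j
  have hdd : ∀ l k, MemLp (fun x => dd b n' l x k) 2 μ := fun l k => by
    unfold dd
    exact memLp_finsetSum _ fun j _ => hb l j
  have iv := fun l => integrable_nrm (μ := μ) S m hm (v := fun x => vv b n' l x) (hv l)
  have idd := fun l => integrable_nrm (μ := μ) S m hm (v := fun x => dd b n' l x) (hdd l)
  induction l with
  | zero =>
    have : ∀ x, nrm S m (vv b n' 0 x) = 0 := by
      intro x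
      have h0 : vv b n' 0 x = fun _ => 0 := by funext k; simp [vv]
      rw [h0]
      have h1 := nrm_le S m hm (fun _ : ℤ => (0 : ℝ)) (M := 0) le_rfl (fun k _ => by simp)
      rw [mul_zero] at h1
      exact le_antisymm h1 (nrm_nonneg _ _ _)
    simp [this]
  | succ l ih =>
    -- the step
    have h1 : ∫ x, nrm S m (vv b n' (l + 1) x) ∂μ ≤
        ∫ x, nrm S m (vv b n' l x) ∂μ + (2 * m - 1) * ∫ x, nrm S m (dd b n' l x) ∂μ := by
      have e1 : ∫ x, nrm S m (vv b n' (l + 1) (σ l x)) ∂μ = ∫ x, nrm S m (vv b n' (l + 1) x) ∂μ :=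
        integral_flip (hσ l) (iv (l + 1)).aestronglyMeasurable
      have i1 : Integrable (fun x => nrm S m (vv b n' (l + 1) (σ l x))) μ :=
        (hσ l).integrable_comp_of_integrable (iv (l + 1))
      have e2 : ∀ᵐ x ∂μ, nrm S m (vv b n' (l + 1) (σ l x)) =
          nrm S m (fun k => vv b n' l x k - dd b n' l x k) := by
        have a1 : ∀ᵐ x ∂μ, ∀ i ∈ range l, ∀ j ∈ range n', b i j (σ l x) = b i j x := by
          rw [Finset.eventually_all]
          intro i hi
          rw [Finset.eventually_all]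
          intro j _
          exact hσi i j l (mem_range.1 hi)
        have a2 : ∀ᵐ x ∂μ, ∀ j ∈ range n', b l j (σ l x) = -b l j x := by
          rw [Finset.eventually_all]
          intro j _
          exact hσn l j
        filter_upwards [a1, a2] with x h1 h2
        congr 1
        rw [vv_succ]
        funext k
        have g1 : vv b n' l (σ l x) k = vv b n' l x k := by
          unfold vv
          exact sum_congr rfl fun i hi => sum_congr rfl fun j hj => h1 i hi j (mem_filter.1 hj).1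
        have g2 : dd b n' l (σ l x) k = -dd b n' l x k := by
          unfold dd
          rw [← sum_neg_distrib]
          exact sum_congr rfl fun j hj => h2 j (mem_filter.1 hj).1
        rw [g1, g2]; ring
      have e3 : ∫ x, (nrm S m (vv b n' (l + 1) x) + nrm S m (vv b n' (l + 1) (σ l x))) ∂μ ≤
          ∫ x, (2 * nrm S m (vv b n' l x) + 2 * (2 * m - 1) * nrm S m (dd b n' l x)) ∂μ := by
        refine integral_mono_ae ((iv (l + 1)).add i1)
          (((iv l).const_mul 2).add ((idd l).const_mul _)) ?_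
        filter_upwards [e2] with x hx
        rw [hx, vv_succ]
        exact nrm_two_point S m hm _ _
      rw [integral_add (iv (l + 1)) i1, e1,
        integral_add ((iv l).const_mul 2) ((idd l).const_mul _), integral_const_mul,
        integral_const_mul] at e3
      linarith
    have h2 : ∫ x, nrm S m (dd b n' l x) ∂μ ≤
        (S.card : ℝ) ^ ((1 : ℝ) / m) * (4 * ∑ j ∈ range n', ∫ x, (b l j x) ^ 2 ∂μ) := by
      rw [← psum_sq (hb l) hτ (hτn l) (fun i j h => hτi l i j h) n']
      have h3 := doob (hb l) hτ (hτn l) (fun i j h => hτi l i j h) n'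
      refine le_trans ?_ (mul_le_mul_of_nonneg_left h3 (by positivity))
      rw [← integral_const_mul]
      exact integral_mono (idd l) ((memLp_Mx (hb l) n').integrable_sq.const_mul _)
        fun x => nrm_dd_le S m hm n' l x
    rw [sum_range_succ, mul_add]
    have h3 := mul_le_mul_of_nonneg_left h2 (by linarith : (0 : ℝ) ≤ 2 * m - 1)
    calc ∫ x, nrm S m (vv b n' (l + 1) x) ∂μ
        ≤ ∫ x, nrm S m (vv b n' l x) ∂μ + (2 * m - 1) * ∫ x, nrm S m (dd b n' l x) ∂μ := h1
      _ ≤ (2 * m - 1) * (S.card : ℝ) ^ ((1 : ℝ) / m) * 4 *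
            ∑ i ∈ range l, ∑ j ∈ range n', ∫ x, (b i j x) ^ 2 ∂μ +
          (2 * m - 1) * ((S.card : ℝ) ^ ((1 : ℝ) / m) *
            (4 * ∑ j ∈ range n', ∫ x, (b l j x) ^ 2 ∂μ)) := add_le_add ih h3
      _ = _ := by ring

/-- The maximal inequality for the hyperbolic partial sums: an integrable majorant of the squares
whose integral grows with the logarithm of the number of levels. -/
theorem hyp_max (hb : ∀ i j, MemLp (b i j) 2 μ)
    (hσ : ∀ l, MeasurePreserving (σ l) μ μ) (hτ : ∀ l, MeasurePreserving (τ l) μ μ)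
    (hσn : ∀ i j, (fun x => b i j (σ i x)) =ᵐ[μ] fun x => -b i j x)
    (hσi : ∀ i j l, i < l → (fun x => b i j (σ l x)) =ᵐ[μ] b i j)
    (hτn : ∀ i j, (fun x => b i j (τ j x)) =ᵐ[μ] fun x => -b i j x)
    (hτi : ∀ i j l, j < l → (fun x => b i j (τ l x)) =ᵐ[μ] b i j)
    (S : Finset ℤ) (hS : S.Nonempty) (n n' : ℕ) :
    ∃ G : Ω → ℝ, Integrable G μ ∧ (∀ x, 0 ≤ G x) ∧
      (∀ x, ∀ k ∈ S, (vv b n' n x k) ^ 2 ≤ G x) ∧
      ∫ x, G x ∂μ ≤ 36 * (1 + Real.log S.card) *
        ∑ i ∈ range n, ∑ j ∈ range n', ∫ x, (b i j x) ^ 2 ∂μ := by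
  have hc : (1 : ℝ) ≤ S.card := by exact_mod_cast hS.card_pos
  have hl0 : 0 ≤ Real.log S.card := Real.log_nonneg hc
  set m : ℕ := ⌊Real.log S.card⌋₊ + 1 with hm
  have hm1 : 1 ≤ m := by omega
  have hmR : (0 : ℝ) < m := by exact_mod_cast hm1
  have hlt : Real.log S.card < m := by
    rw [hm]; push_cast; exact Nat.lt_floor_add_one _
  have hle : (m : ℝ) ≤ Real.log S.card + 1 := by
    rw [hm]; push_cast
    have := Nat.floor_le hl0
    linarith
  have hv : ∀ k, MemLp (fun x => vv b n' n x k) 2 μ := fun k => by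
    unfold vv
    exact memLp_finsetSum _ fun i _ => memLp_finsetSum _ fun j _ => hb i j
  refine ⟨fun x => nrm S m (vv b n' n x), integrable_nrm S m hm1 hv, fun x => nrm_nonneg _ _ _,
    fun x k hk => sq_le_nrm S m hm1 _ hk, ?_⟩
  refine le_trans (hyp_nrm hb hσ hτ hσn hσi hτn hτi S m hm1 n' n) ?_
  have hsum : 0 ≤ ∑ i ∈ range n, ∑ j ∈ range n', ∫ x, (b i j x) ^ 2 ∂μ :=
    sum_nonneg fun i _ => sum_nonneg fun j _ => integral_nonneg fun x => sq_nonneg _
  refine mul_le_mul_of_nonneg_right ?_ hsum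
  have h1 : (S.card : ℝ) ^ ((1 : ℝ) / m) ≤ 3 := by
    have h2 : (S.card : ℝ) ^ ((1 : ℝ) / m) = Real.exp (Real.log S.card * (1 / m)) :=
      Real.rpow_def_of_pos (by linarith) _
    rw [h2]
    have h3 : Real.log S.card * (1 / m) ≤ 1 := by
      rw [mul_one_div, div_le_one hmR]; exact hlt.le
    have h4 := Real.exp_le_exp.2 h3
    have h5 := Real.exp_one_lt_d9
    linarith
  have h0 : (0 : ℝ) ≤ (S.card : ℝ) ^ ((1 : ℝ) / m) := by positivity
  have h6 : (2 * (m : ℝ) - 1) ≤ 2 * Real.log S.card + 1 := by linarith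
  have h7 : 0 ≤ 2 * (m : ℝ) - 1 := by
    have : (1 : ℝ) ≤ m := by exact_mod_cast hm1
    linarith
  calc (2 * (m : ℝ) - 1) * (S.card : ℝ) ^ ((1 : ℝ) / m) * 4
      ≤ (2 * Real.log S.card + 1) * 3 * 4 := by gcongr
    _ ≤ 36 * (1 + Real.log S.card) := by linarith

end hyp

end Pool.Agent.H73.Hyp
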