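import Pool.Agent.H73.Hyp.Comp
import Pool.Agent.H73.Hyp.MaxIneq

/-! The maximal inequality for the sharp hyperbolic cut-offs. -/

namespace Pool.Agent.H73.Hyp

open MeasureTheory FourierTransform Filter Topology Finset

/-- There is an integrable majorant of the squares, of integral at most `B`. -/
def Maj {ι : Type*} (K : Finset ι) (X : ι → L2) (B : ℝ) : Prop :=
  ∃ G : E2 → ℝ, Integrable G ∧ (∀ᵐ x, ∀ k ∈ K, ‖X k x‖ ^ 2 ≤ G x) ∧ ∫ x, G x ≤ B

theorem Maj.mono {ι : Type*} {K : Finset ι} {X : ι → L2} {A B : ℝ} (h : Maj K X A) (hAB : A ≤ B) :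
    Maj K X B := by
  obtain ⟨G, h1, h2, h3⟩ := h
  exact ⟨G, h1, h2, h3.trans hAB⟩

theorem Maj.congr {ι : Type*} {K : Finset ι} {X Y : ι → L2} {B : ℝ} (h : Maj K X B)
    (hXY : ∀ k ∈ K, X k = Y k) : Maj K Y B := by
  obtain ⟨G, h1, h2, h3⟩ := h
  refine ⟨G, h1, ?_, h3⟩
  filter_upwards [h2] with x hx k hk
  rw [← hXY k hk]
  exact hx k hk

theorem Maj.of_sum {ι : Type*} {K : Finset ι} {X : ι → L2} {B : ℝ}
    (h : ∑ k ∈ K, ‖X k‖ ^ 2 ≤ B) : Maj K X B := by
  refine ⟨fun x => ∑ k ∈ K, ‖X k x‖ ^ 2, integrable_finsetSum _ fun k _ => integrable_sq _, ?_, ?_⟩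
  · exact Filter.Eventually.of_forall fun x k hk =>
      single_le_sum (f := fun k => ‖X k x‖ ^ 2) (fun k _ => sq_nonneg _) hk
  · rw [integral_finsetSum _ fun k _ => integrable_sq _]
    refine le_trans (le_of_eq (sum_congr rfl fun k _ => ?_)) h
    rw [norm_sq_eq]

theorem Maj.add {ι : Type*} {K : Finset ι} {X Y : ι → L2} {A B : ℝ} (h : Maj K X A)
    (h' : Maj K Y B) : Maj K (fun k => X k + Y k) (2 * A + 2 * B) := by
  obtain ⟨G, h1, h2, h3⟩ := h
  obtain ⟨G', h1', h2', h3'⟩ := h'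
  refine ⟨fun x => 2 * G x + 2 * G' x, (h1.const_mul 2).add (h1'.const_mul 2), ?_, ?_⟩
  · have h4 : ∀ᵐ x : E2, ∀ k ∈ K, (X k + Y k : L2) x = X k x + Y k x := by
      rw [Finset.eventually_all]
      intro k _
      filter_upwards [Lp.coeFn_add (X k) (Y k)] with x hx
      rw [hx, Pi.add_apply]
    filter_upwards [h2, h2', h4] with x a1 a2 a3 k hk
    rw [a3 k hk]
    have b1 := a1 k hk
    have b2 := a2 k hk
    have b3 := norm_add_le (X k x) (Y k x)
    have b4 := norm_nonneg (X k x + Y k x)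
    nlinarith [sq_nonneg (‖X k x‖ - ‖Y k x‖)]
  · rw [integral_add (h1.const_mul 2) (h1'.const_mul 2), integral_const_mul, integral_const_mul]
    linarith

/-! ### Commutation -/

theorem Ep1_Uf0 (b l : ℤ) (f : L2) : Ep (Uf 1) b (Uf 0 l f) = Uf 0 l (Ep (Uf 1) b f) :=
  Ep_comm (S := (Uf 0 l).toContinuousLinearMap) (fun f g => inner_U (flips 0) l f g)
    (fun m f => Uf_comm 0 1 l m f) b f

theorem Ep0_Ep1 (a b : ℤ) (f : L2) :
    Ep (Uf 0) a (Ep (Uf 1) b f) = Ep (Uf 1) b (Ep (Uf 0) a f) :=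
  Ep_comm (S := Ep (Uf 1) b) (Ep_inner _ _) (fun l f => Ep1_Uf0 b l f) a f

theorem Ep0_Pc1 (a n : ℤ) (f : L2) :
    Ep (Uf 0) a (Pc 1 n f) = Pc 1 n (Ep (Uf 0) a f) :=
  Ep_comm (S := Pc 1 n) (Pc_inner _ _) (fun l f => Pc_Uf (by decide) l n f) a f

theorem Dp0_Ep1 (a b : ℤ) (f : L2) :
    Dp (Uf 0) a (Ep (Uf 1) b f) = Ep (Uf 1) b (Dp (Uf 0) a f) := by
  rw [Dp_apply, Dp_apply, map_sub, Ep0_Ep1, Ep0_Ep1]

theorem Dp0_Pc1 (a n : ℤ) (f : L2) :
    Dp (Uf 0) a (Pc 1 n f) = Pc 1 n (Dp (Uf 0) a f) := by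
  rw [Dp_apply, Dp_apply, map_sub, Ep0_Pc1, Ep0_Pc1]

theorem Dp0_Dp1 (a b : ℤ) (f : L2) :
    Dp (Uf 0) a (Dp (Uf 1) b f) = Dp (Uf 1) b (Dp (Uf 0) a f) := by
  rw [Dp_apply (Uf 1), Dp_apply (Uf 1), map_sub, Dp0_Ep1, Dp0_Ep1]

/-! ### The two-parameter martingale -/

/-- coercion of finite sums -/
theorem coe_sum {ι : Type*} (s : Finset ι) (X : ι → L2) :
    ((∑ i ∈ s, X i : L2) : E2 → ℂ) =ᵐ[volume] fun x => ∑ i ∈ s, X i x := by
  classical
  induction s using Finset.induction_on with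
  | empty =>
    simp only [sum_empty]
    exact Lp.coeFn_zero ℂ 2 volume
  | insert a s ha ih =>
    rw [sum_insert ha]
    filter_upwards [Lp.coeFn_add (X a) (∑ i ∈ s, X i), ih] with x h1 h2
    rw [h1, Pi.add_apply, h2, sum_insert ha]

/-- the rectangular pieces -/
noncomputable def bb (L L' : ℕ) (f : L2) (i j : ℕ) : L2 :=
  Dp (Uf 0) ((i : ℤ) - L) (Dp (Uf 1) ((j : ℤ) - L') f)

theorem bb_flip0 (L L' : ℕ) (f : L2) (i j : ℕ) :
    (fun x => bb L L' f i j (fl 0 ((i : ℤ) - L) x)) =ᵐ[volume] fun x => -bb L L' f i j x := by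
  have h : Uf 0 ((i : ℤ) - L) (bb L L' f i j) = -bb L L' f i j := U_Dp_self (flips 0) _ _
  have h1 := Uf_coe 0 ((i : ℤ) - L) (bb L L' f i j)
  rw [h] at h1
  filter_upwards [h1, Lp.coeFn_neg (bb L L' f i j)] with x a1 a2
  rw [← a1, a2, Pi.neg_apply]

theorem bb_flip0_lt (L L' : ℕ) (f : L2) (i j l : ℕ) (hl : i < l) :
    (fun x => bb L L' f i j (fl 0 ((l : ℤ) - L) x)) =ᵐ[volume] bb L L' f i j := by
  have h : Uf 0 ((l : ℤ) - L) (bb L L' f i j) = bb L L' f i j := U_Dp_lt (by omega) _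
  have h1 := Uf_coe 0 ((l : ℤ) - L) (bb L L' f i j)
  rw [h] at h1
  exact h1.symm

theorem bb_flip1 (L L' : ℕ) (f : L2) (i j : ℕ) :
    (fun x => bb L L' f i j (fl 1 ((j : ℤ) - L') x)) =ᵐ[volume] fun x => -bb L L' f i j x := by
  have h : Uf 1 ((j : ℤ) - L') (bb L L' f i j) = -bb L L' f i j := by
    unfold bb
    rw [Dp0_Dp1]
    exact U_Dp_self (flips 1) _ _
  have h1 := Uf_coe 1 ((j : ℤ) - L') (bb L L' f i j)
  rw [h] at h1
  filter_upwards [h1, Lp.coeFn_neg (bb L L' f i j)] with x a1 a2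
  rw [← a1, a2, Pi.neg_apply]

theorem bb_flip1_lt (L L' : ℕ) (f : L2) (i j l : ℕ) (hl : j < l) :
    (fun x => bb L L' f i j (fl 1 ((l : ℤ) - L') x)) =ᵐ[volume] bb L L' f i j := by
  have h : Uf 1 ((l : ℤ) - L') (bb L L' f i j) = bb L L' f i j := by
    unfold bb
    rw [Dp0_Dp1]
    exact U_Dp_lt (by omega) _
  have h1 := Uf_coe 1 ((l : ℤ) - L') (bb L L' f i j)
  rw [h] at h1
  exact h1.symm

theorem sum_bb_sq (L L' n n' : ℕ) (f : L2) :
    ∑ i ∈ range n, ∑ j ∈ range n', ‖bb L L' f i j‖ ^ 2 ≤ ‖f‖ ^ 2 := by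
  have shift : ∀ (U : ℤ → L2 →ₗᵢ[ℂ] L2) (a n : ℕ) (g : L2),
      ∑ i ∈ range n, ‖Dp U ((i : ℤ) - a) g‖ ^ 2 ≤ ‖g‖ ^ 2 := by
    intro U a n g
    have h := sum_Dp_sq_le U ((range n).image fun i : ℕ => (i : ℤ) - a) g
    rw [sum_image (fun x _ y _ hxy => by
      have h' : (x : ℤ) - a = (y : ℤ) - a := hxy
      omega)] at h
    exact h
  rw [sum_comm]
  calc ∑ j ∈ range n', ∑ i ∈ range n, ‖bb L L' f i j‖ ^ 2
      ≤ ∑ j ∈ range n', ‖Dp (Uf 1) ((j : ℤ) - L') f‖ ^ 2 := sum_le_sum fun j _ => shift _ _ _ _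
    _ ≤ ‖f‖ ^ 2 := shift _ _ _ _

/-- the hyperbolic partial sums of the two-parameter martingale -/
noncomputable def Xs (L L' : ℕ) (k : ℤ) (f : L2) : L2 :=
  ∑ i ∈ range (2 * L), ∑ j ∈ (range (2 * L')).filter (fun j : ℕ => (i : ℤ) + j ≤ k + L + L'),
    bb L L' f i j

/-- the maximal inequality for one real-linear part -/
theorem part_max (L L' : ℕ) (f : L2) (K : Finset ℤ) (hK : K.Nonempty) (φ : ℂ → ℝ)
    (hφ : Continuous φ) (hφn : ∀ z, φ (-z) = -φ z) (hφb : ∀ z, |φ z| ≤ ‖z‖) :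
    ∃ G : E2 → ℝ, Integrable G ∧ (∀ x, ∀ k ∈ K,
      (vv (fun i j x => φ (bb L L' f i j x)) (2 * L') (2 * L) x (k + L + L')) ^ 2 ≤ G x) ∧
      ∫ x, G x ≤ 36 * (1 + Real.log K.card) * ‖f‖ ^ 2 := by
  classical
  have hmem : ∀ i j, MemLp (fun x => φ (bb L L' f i j x)) 2 (volume : Measure E2) := by
    intro i j
    refine MemLp.of_le (memLp2 (bb L L' f i j))
      (hφ.comp_aestronglyMeasurable (memLp2 (bb L L' f i j)).aestronglyMeasurable) ?_
    exact Filter.Eventually.of_forall fun x => hφb _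
  set S : Finset ℤ := K.image fun k => k + L + L' with hS
  have hcard : S.card = K.card := card_image_of_injective _ fun a b h => by
    have h' : a + (L : ℤ) + L' = b + L + L' := h
    omega
  obtain ⟨G, h1, h2, h3, h4⟩ := hyp_max (b := fun i j x => φ (bb L L' f i j x))
    (σ := fun l => fl 0 ((l : ℤ) - L)) (τ := fun l => fl 1 ((l : ℤ) - L')) (μ := volume) hmem
    (fun l => mp_fl 0 _) (fun l => mp_fl 1 _)
    (fun i j => by filter_upwards [bb_flip0 L L' f i j] with x hx; rw [hx, hφn])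
    (fun i j l hl => by filter_upwards [bb_flip0_lt L L' f i j l hl] with x hx; rw [hx])
    (fun i j => by filter_upwards [bb_flip1 L L' f i j] with x hx; rw [hx, hφn])
    (fun i j l hl => by filter_upwards [bb_flip1_lt L L' f i j l hl] with x hx; rw [hx])
    S (hK.image _) (2 * L) (2 * L')
  refine ⟨G, h1, fun x k hk => h3 x _ (mem_image_of_mem _ hk), h4.trans ?_⟩
  rw [hcard]
  have hlog : 0 ≤ Real.log K.card := Real.log_nonneg (by exact_mod_cast hK.card_pos)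
  refine mul_le_mul_of_nonneg_left ?_ (by positivity)
  refine le_trans (sum_le_sum fun i _ => sum_le_sum fun j _ => ?_) (sum_bb_sq L L' (2 * L) (2 * L') f)
  rw [norm_sq_eq]
  refine integral_mono (hmem i j).integrable_sq (integrable_sq _) fun x => ?_
  simp only
  rw [← sq_abs]
  exact pow_le_pow_left₀ (abs_nonneg _) (hφb _) 2

theorem Xs_maj (L L' : ℕ) (f : L2) (K : Finset ℤ) (hK : K.Nonempty) :
    Maj K (fun k => Xs L L' k f) (72 * (1 + Real.log K.card) * ‖f‖ ^ 2) := by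
  obtain ⟨G, h1, h2, h3⟩ := part_max L L' f K hK Complex.re Complex.continuous_re
    (fun z => by simp) Complex.abs_re_le_norm
  obtain ⟨G', h1', h2', h3'⟩ := part_max L L' f K hK Complex.im Complex.continuous_im
    (fun z => by simp) Complex.abs_im_le_norm
  refine ⟨fun x => G x + G' x, h1.add h1', ?_, ?_⟩
  · have h4 : ∀ᵐ x : E2, ∀ k ∈ K, Xs L L' k f x = ∑ i ∈ range (2 * L),
        ∑ j ∈ (range (2 * L')).filter (fun j : ℕ => (i : ℤ) + j ≤ k + L + L'),
          bb L L' f i j x := by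
      rw [Finset.eventually_all]
      intro k _
      have a1 : ∀ᵐ x : E2, ∀ i ∈ range (2 * L),
          (∑ j ∈ (range (2 * L')).filter (fun j : ℕ => (i : ℤ) + j ≤ k + L + L'),
            bb L L' f i j : L2) x =
          ∑ j ∈ (range (2 * L')).filter (fun j : ℕ => (i : ℤ) + j ≤ k + L + L'),
            bb L L' f i j x := by
        rw [Finset.eventually_all]
        intro i _
        exact coe_sum _ _
      filter_upwards [coe_sum (range (2 * L)) fun i =>
        ∑ j ∈ (range (2 * L')).filter (fun j : ℕ => (i : ℤ) + j ≤ k + L + L'), bb L L' f i j,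
        a1] with x b1 b2
      unfold Xs
      rw [b1]
      exact sum_congr rfl fun i hi => b2 i hi
    filter_upwards [h4] with x hx k hk
    rw [hx k hk]
    have e1 := h2 x k hk
    have e2 := h2' x k hk
    rw [← Complex.normSq_eq_norm_sq, Complex.normSq_apply]
    have r1 : (∑ i ∈ range (2 * L),
        ∑ j ∈ (range (2 * L')).filter (fun j : ℕ => (i : ℤ) + j ≤ k + L + L'),
          bb L L' f i j x).re =
        vv (fun i j x => (bb L L' f i j x).re) (2 * L') (2 * L) x (k + L + L') := by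
      unfold vv
      rw [Complex.re_sum]
      exact sum_congr rfl fun i _ => Complex.re_sum _ _
    have r2 : (∑ i ∈ range (2 * L),
        ∑ j ∈ (range (2 * L')).filter (fun j : ℕ => (i : ℤ) + j ≤ k + L + L'),
          bb L L' f i j x).im =
        vv (fun i j x => (bb L L' f i j x).im) (2 * L') (2 * L) x (k + L + L') := by
      unfold vv
      rw [Complex.im_sum]
      exact sum_congr rfl fun i _ => Complex.im_sum _ _
    rw [r1, r2]
    nlinarith
  · rw [integral_add h1 h1']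
    linarith

end Pool.Agent.H73.Hyp
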