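import Pool.Agent.H73.Hyp.Comp2

/-! The maximal inequality for the sharp hyperbolic cut-offs: assembly. -/

namespace Pool.Agent.H73.Hyp

open MeasureTheory FourierTransform Filter Topology Finset

theorem band_sum {M : ℕ} {f : L2} (h : Band M f) (n : ℤ) :
    ∑ m ∈ (Ico (-(M : ℤ)) M).filter (fun m => m < n), Rb m f = Pc 1 n f := by
  rcases le_or_gt (M : ℤ) n with h1 | h1
  · have e : (Ico (-(M : ℤ)) M).filter (fun m => m < n) = Ico (-(M : ℤ)) M := by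
      ext m; simp only [mem_filter, mem_Ico]; omega
    rw [e, sum_Rb_band h]
    conv_rhs => rw [← h.1]
    rw [Pc_of_ge 1 h1, h.1]
  · rcases le_or_gt n (-(M : ℤ)) with h2 | h2
    · have e : (Ico (-(M : ℤ)) M).filter (fun m => m < n) = ∅ := by
        ext m; simp only [mem_filter, mem_Ico, notMem_empty, iff_false]; omega
      rw [e, sum_empty, ← Pc_of_le 1 h2, h.2, map_zero]
    · have e : (Ico (-(M : ℤ)) M).filter (fun m => m < n) = Ico (-(M : ℤ)) n := by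
        ext m; simp only [mem_filter, mem_Ico]; omega
      rw [e, sum_Rb h2.le, h.2, sub_zero]

theorem Fs_eq {M : ℕ} {f : L2} (h : Band M f) (k : ℤ) (L : ℕ)
    (hL : ∀ m ∈ Ico (-(M : ℤ)) M, -(L : ℤ) ≤ k - m ∧ k - m ≤ L) :
    Fs M k f = Ep (Uf 0) (-L) f + ∑ i ∈ Ico (-(L : ℤ)) L, Dp (Uf 0) i (Pc 1 (k - i) f) := by
  have e1 : ∀ m ∈ Ico (-(M : ℤ)) M, Ep (Uf 0) (k - m) (Rb m f) = Ep (Uf 0) (-L) (Rb m f) +
      ∑ i ∈ (Ico (-(L : ℤ)) L).filter (fun i => m < k - i), Dp (Uf 0) i (Rb m f) := by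
    intro m hm
    obtain ⟨a1, a2⟩ := hL m hm
    have e : (Ico (-(L : ℤ)) L).filter (fun i => m < k - i) = Ico (-(L : ℤ)) (k - m) := by
      ext i; simp only [mem_filter, mem_Ico]; omega
    rw [e, sum_Dp _ a1]
    abel
  unfold Fs
  rw [sum_congr rfl e1, sum_add_distrib, ← map_sum, sum_Rb_band h]
  congr 1
  simp_rw [sum_filter]
  rw [sum_comm]
  refine sum_congr rfl fun i _ => ?_
  rw [← band_sum h (k - i), map_sum, sum_filter]

theorem Ico_image (L : ℕ) : Ico (-(L : ℤ)) L = (range (2 * L)).image fun i : ℕ => (i : ℤ) - L := by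
  ext a
  simp only [mem_Ico, mem_image, mem_range]
  constructor
  · intro h
    exact ⟨(a + L).toNat, by omega, by omega⟩
  · rintro ⟨i, hi, rfl⟩
    omega

theorem Xs_eq (L L' : ℕ) (k : ℤ) (f : L2) (hL : (L : ℤ) + k.natAbs + 2 ≤ L') :
    Xs L L' k f = ∑ i ∈ Ico (-(L : ℤ)) L,
      Dp (Uf 0) i (Ep (Uf 1) (k - i + 1) f - Ep (Uf 1) (-L') f) := by
  rw [Ico_image, sum_image (fun x _ y _ hxy => by
    have h' : (x : ℤ) - L = (y : ℤ) - L := hxy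
    omega)]
  unfold Xs
  refine sum_congr rfl fun i hi => ?_
  rw [mem_range] at hi
  unfold bb
  rw [← map_sum]
  congr 1
  rw [← sum_Dp (Uf 1) (show -(L' : ℤ) ≤ k - (i - L) + 1 by omega)]
  have e : Ico (-(L' : ℤ)) (k - (i - L) + 1) =
      ((range (2 * L')).filter (fun j : ℕ => (i : ℤ) + j ≤ k + L + L')).image
        fun j : ℕ => (j : ℤ) - L' := by
    ext b
    simp only [mem_Ico, mem_image, mem_range, mem_filter]
    constructor
    · intro h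
      exact ⟨(b + L').toNat, ⟨by omega, by omega⟩, by omega⟩
    · rintro ⟨j, ⟨h1, h2⟩, rfl⟩
      omega
  rw [e, sum_image (fun x _ y _ hxy => by
    have h' : (x : ℤ) - L' = (y : ℤ) - L' := hxy
    omega)]

/-- step 3 -/
theorem step3 (L : ℕ) (f : L2) (K : Finset ℤ) :
    ∑ k ∈ K, ‖∑ i ∈ Ico (-(L : ℤ)) L,
      Dp (Uf 0) i (Pc 1 (k - i) f - Ep (Uf 1) (k - i + 1) f)‖ ^ 2 ≤ 576 * ‖f‖ ^ 2 := by
  have e : ∀ k, ‖∑ i ∈ Ico (-(L : ℤ)) L,
      Dp (Uf 0) i (Pc 1 (k - i) f - Ep (Uf 1) (k - i + 1) f)‖ ^ 2 =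
      ∑ i ∈ Ico (-(L : ℤ)) L,
        ‖Pc 1 (k - i) (Dp (Uf 0) i f) - Ep (Uf 1) (k - i + 1) (Dp (Uf 0) i f)‖ ^ 2 := by
    intro k
    rw [norm_sum_sq_orth _ _ fun i _ j _ hij => Dp_orth _ hij _ _]
    refine sum_congr rfl fun i _ => ?_
    rw [map_sub, Dp0_Pc1, Dp0_Ep1]
  simp_rw [e]
  rw [sum_comm]
  calc ∑ i ∈ Ico (-(L : ℤ)) L, ∑ k ∈ K,
        ‖Pc 1 (k - i) (Dp (Uf 0) i f) - Ep (Uf 1) (k - i + 1) (Dp (Uf 0) i f)‖ ^ 2
      ≤ ∑ i ∈ Ico (-(L : ℤ)) L, 576 * ‖Dp (Uf 0) i f‖ ^ 2 := by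
        refine sum_le_sum fun i _ => ?_
        have h := sqf 1 (K.image fun k => k - i) (Dp (Uf 0) i f)
        rw [sum_image (fun x _ y _ hxy => by
          have h' : x - i = y - i := hxy
          omega)] at h
        exact h
    _ = 576 * ∑ i ∈ Ico (-(L : ℤ)) L, ‖Dp (Uf 0) i f‖ ^ 2 := by rw [mul_sum]
    _ ≤ 576 * ‖f‖ ^ 2 := by
        have := sum_Dp_sq_le (Uf 0) (Ico (-(L : ℤ)) L) f
        linarith

theorem ev_small (c : Fin 2) (f : L2) (a : ℝ) :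
    ∀ᶠ L : ℕ in atTop, a * ‖Ep (Uf c) (-L) f‖ ^ 2 ≤ ‖f‖ ^ 2 := by
  rcases eq_or_ne f 0 with rfl | hf
  · exact Filter.Eventually.of_forall fun L => by simp
  · have h1 := ((Ep_low c f).norm.pow 2).const_mul a
    rw [norm_zero, zero_pow two_ne_zero, mul_zero] at h1
    have h2 : 0 < ‖f‖ ^ 2 := by
      have := norm_pos_iff.2 hf
      positivity
    filter_upwards [h1.eventually_lt_const h2] with L hL
    exact hL.le

theorem Hc_maj_band {M : ℕ} {f : L2} (h : Band M f) (K : Finset ℤ) (hK : K.Nonempty) :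
    Maj K (fun k => Hc k f) (9000 * (1 + Real.log K.card) * ‖f‖ ^ 2) := by
  have hlog : 0 ≤ Real.log K.card := Real.log_nonneg (by exact_mod_cast hK.card_pos)
  -- the first truncation
  obtain ⟨L, hL1, hL2⟩ : ∃ L : ℕ, (∀ k ∈ K, ∀ m ∈ Ico (-(M : ℤ)) M,
      -(L : ℤ) ≤ k - m ∧ k - m ≤ L) ∧ K.card * ‖Ep (Uf 0) (-L) f‖ ^ 2 ≤ ‖f‖ ^ 2 := by
    have h1 : ∀ᶠ L : ℕ in atTop, ∀ k ∈ K, ∀ m ∈ Ico (-(M : ℤ)) M,
        -(L : ℤ) ≤ k - m ∧ k - m ≤ L := by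
      rw [Finset.eventually_all]
      intro k _
      filter_upwards [eventually_ge_atTop (k.natAbs + M)] with L hL m hm
      rw [mem_Ico] at hm
      omega
    exact (h1.and (ev_small 0 f K.card)).exists
  obtain ⟨L', hL3, hL4⟩ : ∃ L' : ℕ, (∀ k ∈ K, (L : ℤ) + k.natAbs + 2 ≤ L') ∧
      (4 * K.card) * ‖Ep (Uf 1) (-L') f‖ ^ 2 ≤ ‖f‖ ^ 2 := by
    have h1 : ∀ᶠ L' : ℕ in atTop, ∀ k ∈ K, (L : ℤ) + k.natAbs + 2 ≤ L' := by
      rw [Finset.eventually_all]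
      intro k _
      filter_upwards [eventually_ge_atTop (L + k.natAbs + 2)] with L' hL'
      omega
    exact (h1.and (ev_small 1 f (4 * K.card))).exists
  set Y : L2 := ∑ i ∈ Ico (-(L : ℤ)) L, Dp (Uf 0) i (Ep (Uf 1) (-L') f) with hY
  have hYn : K.card * ‖Y‖ ^ 2 ≤ ‖f‖ ^ 2 := by
    have h1 : ‖Y‖ ≤ 2 * ‖Ep (Uf 1) (-L') f‖ := by
      rw [hY, sum_Dp _ (by omega)]
      refine (norm_sub_le _ _).trans ?_
      have a1 := Ep_norm_le (Uf 0) L (Ep (Uf 1) (-L') f)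
      have a2 := Ep_norm_le (Uf 0) (-L) (Ep (Uf 1) (-L') f)
      linarith
    have h2 : ‖Y‖ ^ 2 ≤ 4 * ‖Ep (Uf 1) (-L') f‖ ^ 2 := by
      have := pow_le_pow_left₀ (norm_nonneg _) h1 2
      rw [mul_pow] at this
      linarith
    have h3 : (0 : ℝ) ≤ K.card := Nat.cast_nonneg _
    nlinarith [mul_le_mul_of_nonneg_left h2 h3]
  have m1 : Maj K (fun k => Hc k f - Fs M k f) (1154 * ‖f‖ ^ 2) := Maj.of_sum (Hc_Fs h K)
  have m2 : Maj K (fun _ : ℤ => Ep (Uf 0) (-L) f) (‖f‖ ^ 2) := Maj.of_sum (by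
    rw [sum_const, nsmul_eq_mul]; exact hL2)
  have m3 : Maj K (fun k => ∑ i ∈ Ico (-(L : ℤ)) L,
      Dp (Uf 0) i (Pc 1 (k - i) f - Ep (Uf 1) (k - i + 1) f)) (576 * ‖f‖ ^ 2) :=
    Maj.of_sum (step3 L f K)
  have m4 : Maj K (fun _ : ℤ => Y) (‖f‖ ^ 2) := Maj.of_sum (by
    rw [sum_const, nsmul_eq_mul]; exact hYn)
  have m5 := Xs_maj L L' f K hK
  have m6 := m1.add (m2.add (m3.add (m4.add m5)))
  refine (m6.congr ?_).mono ?_
  · intro k hk
    have e1 := Fs_eq h k L (hL1 k hk)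
    have e2 := Xs_eq L L' k f (hL3 k hk)
    have e3 : Y + Xs L L' k f = ∑ i ∈ Ico (-(L : ℤ)) L, Dp (Uf 0) i (Ep (Uf 1) (k - i + 1) f) := by
      rw [e2, hY, ← sum_add_distrib]
      refine sum_congr rfl fun i _ => ?_
      rw [map_sub]; abel
    have e4 : (∑ i ∈ Ico (-(L : ℤ)) L,
        Dp (Uf 0) i (Pc 1 (k - i) f - Ep (Uf 1) (k - i + 1) f)) +
        ∑ i ∈ Ico (-(L : ℤ)) L, Dp (Uf 0) i (Ep (Uf 1) (k - i + 1) f) =
        ∑ i ∈ Ico (-(L : ℤ)) L, Dp (Uf 0) i (Pc 1 (k - i) f) := by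
      rw [← sum_add_distrib]
      refine sum_congr rfl fun i _ => ?_
      rw [map_sub]; abel
    rw [e3, e4, ← e1]
    abel
  · have h1 : (0 : ℝ) ≤ ‖f‖ ^ 2 := sq_nonneg _
    have h2 : 0 ≤ Real.log K.card * ‖f‖ ^ 2 := mul_nonneg hlog h1
    nlinarith

/-- The maximal inequality for the sharp hyperbolic cut-offs. -/
theorem Hc_maj (f : L2) (K : Finset ℤ) (hK : K.Nonempty) :
    Maj K (fun k => Hc k f) (80000 * (1 + Real.log K.card) * ‖f‖ ^ 2) := by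
  have hlog : 0 ≤ Real.log K.card := Real.log_nonneg (by exact_mod_cast hK.card_pos)
  have h1 : ∀ᶠ M : ℕ in atTop, K.card * ‖f - (Pc 1 M f - Pc 1 (-M) f)‖ ^ 2 ≤ ‖f‖ ^ 2 := by
    rcases eq_or_ne f 0 with rfl | hf
    · exact Filter.Eventually.of_forall fun L => by simp
    · have h1 := (((((Pc_tendsto 1 f).sub (Pc_tendsto_zero 1 f)).const_sub f).norm.pow 2).const_mul
        (K.card : ℝ))
      rw [sub_zero, sub_self, norm_zero, zero_pow two_ne_zero, mul_zero] at h1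
      have h2 : 0 < ‖f‖ ^ 2 := by
        have := norm_pos_iff.2 hf
        positivity
      filter_upwards [h1.eventually_lt_const h2] with L hL
      exact hL.le
  obtain ⟨M, hM⟩ := h1.exists
  set g := Pc 1 M f - Pc 1 (-M) f with hg
  have hb : Band M g := by
    constructor
    · rw [hg, map_sub, Pc_idem, Pc_of_ge 1 (show -(M : ℤ) ≤ M by omega)]
    · rw [hg, map_sub, Pc_idem, Pc_of_le 1 (show -(M : ℤ) ≤ M by omega), sub_self]
  have hgn : ‖g‖ ^ 2 ≤ 4 * ‖f‖ ^ 2 := by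
    have a1 := Pc_norm_le 1 M f
    have a2 := Pc_norm_le 1 (-M) f
    have a3 : ‖g‖ ≤ 2 * ‖f‖ := (norm_sub_le _ _).trans (by linarith)
    have := pow_le_pow_left₀ (norm_nonneg _) a3 2
    rw [mul_pow] at this
    linarith
  have m1 := Hc_maj_band hb K hK
  have m2 : Maj K (fun k => Hc k (f - g)) (‖f‖ ^ 2) := by
    refine Maj.of_sum ?_
    refine (sum_le_sum fun k _ => pow_le_pow_left₀ (norm_nonneg _)
      (Pi_norm_le (hyp_meas k) (f - g)) 2).trans ?_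
    rw [sum_const, nsmul_eq_mul]
    exact hM
  refine ((m1.add m2).congr ?_).mono ?_
  · intro k _
    rw [← map_add]
    congr 1
    abel
  · have h3 : (0 : ℝ) ≤ ‖f‖ ^ 2 := sq_nonneg _
    have h4 : 0 ≤ Real.log K.card * ‖f‖ ^ 2 := mul_nonneg hlog h3
    have h5 : 0 ≤ Real.log K.card * (4 * ‖f‖ ^ 2 - ‖g‖ ^ 2) := mul_nonneg hlog (by linarith)
    nlinarith

end Pool.Agent.H73.Hyp
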