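import Pool.Agent.H73.Hyp.Key

/-! The two estimates that compare frequency cut-offs with dyadic averages. -/

namespace Pool.Agent.H73.Hyp

open MeasureTheory FourierTransform Filter Topology

/-! ### Abstract: convergence to the identity -/

section abs

variable {H : Type*} [NormedAddCommGroup H] [InnerProductSpace ℂ H]

/-- the average -/
noncomputable def Av (U : ℤ → H →ₗᵢ[ℂ] H) (l : ℤ) (f : H) : H := (1 / 2 : ℂ) • (f + U l f)

/-- products of averages -/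
noncomputable def Qv (U : ℤ → H →ₗᵢ[ℂ] H) (b : ℤ) : ℕ → H → H
  | 0, f => f
  | k + 1, f => Qv U b k (Av U (b + k) f)

theorem Av_sub (U : ℤ → H →ₗᵢ[ℂ] H) (l : ℤ) (f g : H) :
    Av U l (f - g) = Av U l f - Av U l g := by
  unfold Av
  rw [map_sub, ← smul_sub]
  congr 1; abel

theorem Av_norm (U : ℤ → H →ₗᵢ[ℂ] H) (l : ℤ) (f : H) : ‖Av U l f‖ ≤ ‖f‖ := by
  unfold Av
  rw [norm_smul]
  have h1 : ‖(1 / 2 : ℂ)‖ = 1 / 2 := by norm_num
  rw [h1]
  have := norm_add_le f (U l f)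
  rw [(U l).norm_map] at this
  linarith

theorem Av_sub_self (U : ℤ → H →ₗᵢ[ℂ] H) (l : ℤ) (f : H) :
    ‖Av U l f - f‖ = 1 / 2 * ‖U l f - f‖ := by
  have : Av U l f - f = (1 / 2 : ℂ) • (U l f - f) := by
    unfold Av
    rw [smul_add, smul_sub]
    have : f = (1 / 2 : ℂ) • f + (1 / 2 : ℂ) • f := by rw [← add_smul]; norm_num
    nth_rewrite 3 [this]
    abel
  rw [this, norm_smul]
  norm_num

theorem Qv_sub (U : ℤ → H →ₗᵢ[ℂ] H) (b : ℤ) (k : ℕ) (f g : H) :
    Qv U b k (f - g) = Qv U b k f - Qv U b k g := by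
  induction k generalizing f g with
  | zero => rfl
  | succ k ih =>
    change Qv U b k (Av U (b + k) (f - g)) = _
    rw [Av_sub, ih]; rfl

theorem Qv_norm (U : ℤ → H →ₗᵢ[ℂ] H) (b : ℤ) (k : ℕ) (f : H) : ‖Qv U b k f‖ ≤ ‖f‖ := by
  induction k generalizing f with
  | zero => exact le_rfl
  | succ k ih => exact (ih _).trans (Av_norm _ _ _)

theorem U_Av {U : ℤ → H →ₗᵢ[ℂ] H} (hU : Flips U) (l m : ℤ) (f : H) :
    U l (Av U m f) = Av U m (U l f) := by
  unfold Av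
  rw [map_smul, map_add, hU.comm]

theorem U_Av_self {U : ℤ → H →ₗᵢ[ℂ] H} (hU : Flips U) (l : ℤ) (f : H) :
    U l (Av U l f) = Av U l f := by
  unfold Av
  rw [map_smul, map_add, hU.inv, add_comm]

theorem U_Qv {U : ℤ → H →ₗᵢ[ℂ] H} (hU : Flips U) (b l : ℤ) (k : ℕ) (f : H) :
    U l (Qv U b k f) = Qv U b k (U l f) := by
  induction k generalizing f with
  | zero => rfl
  | succ k ih =>
    change U l (Qv U b k (Av U (b + k) f)) = Qv U b k (Av U (b + k) (U l f))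
    rw [ih, U_Av hU]

theorem U_Qv_lt {U : ℤ → H →ₗᵢ[ℂ] H} (hU : Flips U) (b : ℤ) {j k : ℕ} (h : j < k) (f : H) :
    U (b + j) (Qv U b k f) = Qv U b k f := by
  induction k generalizing f with
  | zero => omega
  | succ k ih =>
    change U (b + j) (Qv U b k (Av U (b + k) f)) = Qv U b k (Av U (b + k) f)
    rcases Nat.lt_succ_iff_lt_or_eq.1 h with h | h
    · exact ih h _
    · subst h
      rw [U_Qv hU, U_Av_self hU]

theorem sub_Ep_le [CompleteSpace H] {U : ℤ → H →ₗᵢ[ℂ] H} (hU : Flips U) (b : ℤ) (f : H) {a : ℝ}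
    (ha : ∀ k : ℕ, ‖U (b + k) f - f‖ ≤ a * (1 / 2) ^ k) : ‖f - Ep U b f‖ ≤ a := by
  have hd : ∀ k : ℕ, dist (Qv U b k f) (Qv U b (k + 1) f) ≤ a / 2 * (1 / 2) ^ k := by
    intro k
    rw [dist_comm, dist_eq_norm]
    change ‖Qv U b k (Av U (b + k) f) - Qv U b k f‖ ≤ _
    rw [← Qv_sub]
    refine (Qv_norm _ _ _ _).trans ?_
    rw [Av_sub_self]
    have := ha k
    linarith
  have hc : CauchySeq fun k => Qv U b k f :=
    cauchySeq_of_le_geometric (1 / 2) (a / 2) (by norm_num) hd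
  obtain ⟨w, hw⟩ := cauchySeq_tendsto_of_complete hc
  have h1 : dist f w ≤ a := by
    have := dist_le_of_le_geometric_of_tendsto₀ (1 / 2) (a / 2) (by norm_num) hd hw
    have e : a / 2 / (1 - 1 / 2) = a := by ring
    rw [e] at this
    exact this
  have h2 : w ∈ Wf U b := by
    intro l hl
    obtain ⟨j, rfl⟩ : ∃ j : ℕ, l = b + j := ⟨(l - b).toNat, by omega⟩
    have h3 : Tendsto (fun k => U (b + j) (Qv U b k f)) atTop (𝓝 (U (b + j) w)) :=
      ((U (b + j)).continuous.tendsto w).comp hw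
    refine tendsto_nhds_unique h3 (hw.congr' ?_)
    filter_upwards [eventually_gt_atTop j] with k hk
    exact (U_Qv_lt hU b hk f).symm
  have h3 : f - Ep U b f = (f - w) - Ep U b (f - w) := by
    rw [map_sub, Ep_eq U h2]; abel
  have h4 : ‖(f - w) - Ep U b (f - w)‖ ≤ ‖f - w‖ := by
    have h := Submodule.norm_sq_eq_add_norm_sq_starProjection (f - w) (Wf U b)
    have e : (Wf U b)ᗮ.starProjection (f - w) = (f - w) - Ep U b (f - w) := by
      rw [Submodule.starProjection_orthogonal']; rfl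
    rw [e] at h
    have h3 : 0 ≤ ‖(Wf U b).starProjection (f - w)‖ ^ 2 := sq_nonneg _
    exact abs_le_of_sq_le_sq' (by linarith) (norm_nonneg _) |>.2
  rw [h3]
  rw [dist_eq_norm] at h1
  exact h4.trans h1

end abs

/-! ### Characters -/

theorem inner_ee (c : Fin 2) (t : ℝ) (ξ : E2) : inner ℝ (t • ee c) ξ = t * ξ c := by
  rw [inner_smul_left]
  unfold ee
  rw [EuclideanSpace.inner_single_left]
  simp

theorem norm_chr_sub (c : Fin 2) (t : ℝ) (ξ : E2) :
    ‖chr (t • ee c) ξ - 1‖ = 2 * |Real.sin (Real.pi * (t * ξ c))| := by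
  unfold chr
  rw [inner_ee]
  have e : 2 * (Real.pi : ℂ) * Complex.I * ((t * ξ c : ℝ) : ℂ) =
      Complex.I * ((2 * Real.pi * (t * ξ c) : ℝ) : ℂ) := by push_cast; ring
  rw [e, Complex.norm_exp_I_mul_ofReal_sub_one]
  rw [Real.norm_eq_abs, abs_mul, abs_two]
  congr 3
  ring

theorem chr_upper (c : Fin 2) (t : ℝ) (ξ : E2) :
    ‖chr (t • ee c) ξ - 1‖ ^ 2 ≤ (2 * Real.pi * (t * ξ c)) ^ 2 := by
  rw [norm_chr_sub, mul_pow, sq_abs]
  have h1 : Real.sin (Real.pi * (t * ξ c)) ^ 2 ≤ (Real.pi * (t * ξ c)) ^ 2 := by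
    rw [sq_le_sq]
    exact Real.abs_sin_le_abs
  nlinarith

theorem chr_lower (c : Fin 2) (t : ℝ) (ξ : E2) (h1 : 1 / 4 ≤ |t * ξ c|) (h2 : |t * ξ c| ≤ 1 / 2) :
    1 ≤ ‖chr (t • ee c) ξ - 1‖ ^ 2 := by
  rw [norm_chr_sub]
  have h3 : 1 / 2 ≤ |Real.sin (Real.pi * (t * ξ c))| := by
    have e : |Real.sin (Real.pi * (t * ξ c))| = |Real.sin (Real.pi * |t * ξ c|)| := by
      rcases abs_cases (t * ξ c) with ⟨h, -⟩ | ⟨h, -⟩
      · rw [h]
      · rw [h, mul_neg, Real.sin_neg, abs_neg]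
    rw [e]
    refine le_trans ?_ (le_abs_self _)
    have := Real.mul_le_sin (x := Real.pi * |t * ξ c|) (by positivity)
      (by nlinarith [Real.pi_pos])
    have e2 : 2 / Real.pi * (Real.pi * |t * ξ c|) = 2 * |t * ξ c| := by
      field_simp
    rw [e2] at this
    linarith
  nlinarith

end Pool.Agent.H73.Hyp
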