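import Pool.Agent.H73.Hyp.Est

/-! The two estimates for the frequency cut-offs in one coordinate, and the square function. -/

namespace Pool.Agent.H73.Hyp

open MeasureTheory FourierTransform Filter Topology

/-! ### The cut-offs -/

/-- the frequencies below `2 ^ n` -/
def Bn (n : ℤ) : Set ℝ := {t | |t| < (2 : ℝ) ^ n}

theorem Bn_meas (n : ℤ) : MeasurableSet (Bn n) := by
  unfold Bn
  exact measurableSet_lt (continuous_abs.measurable) measurable_const

theorem Bn_mono {m n : ℤ} (h : m ≤ n) : Bn m ⊆ Bn n := fun _ ht =>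
  lt_of_lt_of_le ht (zpow_le_zpow_right₀ (by norm_num : (1 : ℝ) ≤ 2) h)

/-- the frequency cut-off in the coordinate `c` -/
noncomputable def Pc (c : Fin 2) (n : ℤ) : L2 →L[ℂ] L2 :=
  Pi {ξ | ξ c ∈ Bn n} (measurable_coord c (Bn_meas n))

theorem set_mono (c : Fin 2) {m n : ℤ} (h : m ≤ n) :
    {ξ : E2 | ξ c ∈ Bn m} ⊆ {ξ | ξ c ∈ Bn n} := fun _ hξ => Bn_mono h hξ

theorem Pc_coe (c : Fin 2) (n : ℤ) (f : L2) :
    (𝓕 (Pc c n f) : L2) =ᵐ[volume] {ξ : E2 | ξ c ∈ Bn n}.indicator (𝓕 f : L2) := Pi_coe _ f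

theorem Pc_norm_le (c : Fin 2) (n : ℤ) (f : L2) : ‖Pc c n f‖ ≤ ‖f‖ := Pi_norm_le _ f

theorem Pc_inner (c : Fin 2) (n : ℤ) (f g : L2) :
    inner ℂ (Pc c n f) g = inner ℂ f (Pc c n g) := Pi_inner _ f g

theorem Pc_of_le (c : Fin 2) {m n : ℤ} (h : m ≤ n) (f : L2) : Pc c m (Pc c n f) = Pc c m f :=
  Pi_of_subset _ _ (set_mono c h) f

theorem Pc_of_ge (c : Fin 2) {m n : ℤ} (h : m ≤ n) (f : L2) : Pc c n (Pc c m f) = Pc c m f := by
  rw [Pc, Pc, Pi_comm]
  exact Pi_of_subset _ _ (set_mono c h) f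

theorem Pc_idem (c : Fin 2) (n : ℤ) (f : L2) : Pc c n (Pc c n f) = Pc c n f :=
  Pc_of_le c le_rfl f

theorem Pc_comm (c c' : Fin 2) (m n : ℤ) (f : L2) : Pc c m (Pc c' n f) = Pc c' n (Pc c m f) :=
  Pi_comm _ _ f

theorem Pc_Uf {c c' : Fin 2} (h : c ≠ c') (l n : ℤ) (f : L2) :
    Pc c' n (Uf c l f) = Uf c l (Pc c' n f) := Pi_Uf h l (Bn_meas n) f

/-- the norm in terms of the Fourier transform -/
theorem norm_sq_eq_of {f : L2} {F : E2 → ℂ} (h : (𝓕 f : L2) =ᵐ[volume] F) :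
    ‖f‖ ^ 2 = ∫ ξ, ‖F ξ‖ ^ 2 := by
  rw [norm_sq_fourier]
  refine integral_congr_ae ?_
  filter_upwards [h] with ξ h1
  rw [h1]

theorem Pc_tendsto (c : Fin 2) (f : L2) :
    Tendsto (fun n : ℕ => Pc c n f) atTop (𝓝 f) := by
  rw [tendsto_iff_norm_sub_tendsto_zero]
  have h0 : ∀ n : ℕ, ‖Pc c n f - f‖ ^ 2 =
      ∫ ξ, {ξ : E2 | ξ c ∈ Bn n}ᶜ.indicator (fun ξ => ‖(𝓕 f : L2) ξ‖ ^ 2) ξ := by
    intro n
    rw [norm_sub_rev, Pc, Pi_compl, Pi_norm_sq]
  have h1 : Tendsto (fun n : ℕ => ‖Pc c n f - f‖ ^ 2) atTop (𝓝 0) := by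
    simp_rw [h0]
    rw [show (0 : ℝ) = ∫ _ : E2, (0 : ℝ) by simp]
    refine tendsto_integral_of_dominated_convergence (fun ξ => ‖(𝓕 f : L2) ξ‖ ^ 2)
      (fun n => ((integrable_sq _).aestronglyMeasurable.indicator
        (measurable_coord c (Bn_meas n)).compl)) (integrable_sq _) ?_ ?_
    · intro n
      refine Filter.Eventually.of_forall fun ξ => ?_
      rw [Real.norm_eq_abs, abs_of_nonneg (Set.indicator_nonneg (fun _ _ => sq_nonneg _) _)]
      exact Set.indicator_le_self' (fun _ _ => sq_nonneg _) ξ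
    · refine Filter.Eventually.of_forall fun ξ => ?_
      refine tendsto_const_nhds.congr' ?_
      obtain ⟨N, hN⟩ := pow_unbounded_of_one_lt |ξ c| (one_lt_two (α := ℝ))
      filter_upwards [eventually_ge_atTop N] with n hn
      rw [Set.indicator_of_notMem]
      intro h
      refine h ?_
      change |ξ c| < (2 : ℝ) ^ (n : ℤ)
      rw [zpow_natCast]
      exact hN.trans_le (pow_le_pow_right₀ (by norm_num) hn)
  have h2 := h1.sqrt
  simp only [Real.sqrt_zero] at h2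
  refine h2.congr fun n => ?_
  rw [Real.sqrt_sq (norm_nonneg _)]

theorem ae_ne_zero (c : Fin 2) : ∀ᵐ ξ : E2, ξ c ≠ 0 := by
  have h : MeasurePreserving (MeasurableEquiv.toLp 2 (Fin 2 → ℝ)).symm
      (volume : Measure E2) volume := EuclideanSpace.volume_preserving_symm_measurableEquiv_toLp _
  have h1 : ∀ᵐ x : Fin 2 → ℝ, x c ≠ 0 := by
    have := (Measure.pi_hyperplane (fun _ : Fin 2 => (volume : Measure ℝ)) c (0 : ℝ))
    rw [ae_iff, volume_pi]
    simpa using this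
  have h2 := h.quasiMeasurePreserving.ae h1
  filter_upwards [h2] with ξ hξ
  exact hξ

theorem Pc_tendsto_zero (c : Fin 2) (f : L2) :
    Tendsto (fun n : ℕ => Pc c (-n) f) atTop (𝓝 0) := by
  rw [tendsto_zero_iff_norm_tendsto_zero]
  have h0 : ∀ n : ℕ, ‖Pc c (-n) f‖ ^ 2 =
      ∫ ξ, {ξ : E2 | ξ c ∈ Bn (-n)}.indicator (fun ξ => ‖(𝓕 f : L2) ξ‖ ^ 2) ξ := by
    intro n
    rw [Pc, Pi_norm_sq]
  have h1 : Tendsto (fun n : ℕ => ‖Pc c (-n) f‖ ^ 2) atTop (𝓝 0) := by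
    simp_rw [h0]
    rw [show (0 : ℝ) = ∫ _ : E2, (0 : ℝ) by simp]
    refine tendsto_integral_of_dominated_convergence (fun ξ => ‖(𝓕 f : L2) ξ‖ ^ 2)
      (fun n => ((integrable_sq _).aestronglyMeasurable.indicator
        (measurable_coord c (Bn_meas _)))) (integrable_sq _) ?_ ?_
    · intro n
      refine Filter.Eventually.of_forall fun ξ => ?_
      rw [Real.norm_eq_abs, abs_of_nonneg (Set.indicator_nonneg (fun _ _ => sq_nonneg _) _)]
      exact Set.indicator_le_self' (fun _ _ => sq_nonneg _) ξ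
    · filter_upwards [ae_ne_zero c] with ξ hξ
      refine tendsto_const_nhds.congr' ?_
      have hpos : 0 < |ξ c| := abs_pos.2 hξ
      obtain ⟨N, hN⟩ := exists_pow_lt_of_lt_one hpos (show (1 / 2 : ℝ) < 1 by norm_num)
      filter_upwards [eventually_ge_atTop N] with n hn
      rw [Set.indicator_of_notMem]
      intro h
      have h' : |ξ c| < (2 : ℝ) ^ (-(n : ℤ)) := h
      rw [zpow_neg, zpow_natCast] at h'
      have h3 : ((2 : ℝ) ^ n)⁻¹ ≤ (1 / 2) ^ N := by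
        rw [← inv_pow, ← one_div]
        exact pow_le_pow_of_le_one (by norm_num) (by norm_num) hn
      linarith
  have h2 := h1.sqrt
  simp only [Real.sqrt_zero] at h2
  refine h2.congr fun n => ?_
  rw [Real.sqrt_sq (norm_nonneg _)]

/-! ### The first estimate -/

theorem norm_sq_Vt_sub (h : E2) (f : L2) : ‖Vt h f - f‖ ^ 2 = ∫ x, ‖f (x + h) - f x‖ ^ 2 := by
  rw [norm_sq_eq]
  refine integral_congr_ae ?_
  filter_upwards [Vt_coe h f, Lp.coeFn_sub (Vt h f) f] with x h1 h2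
  rw [h2, Pi.sub_apply, h1]

theorem half (c : Fin 2) (l : ℤ) (f : L2) (hf : Uf c l f = f) :
    ‖Vt (dl l • ee c) f - f‖ ^ 2 ≤ 1 / 2 * ‖Vt ((2 * dl l) • ee c) f - f‖ ^ 2 := by
  set h : E2 := dl l • ee c with hh
  have h2h : (2 * dl l) • ee c = h + h := by rw [hh, ← add_smul]; congr 1; ring
  set S : Set E2 := {x | Even (dg l (x c))} with hS
  have hSm : MeasurableSet S := (measurable_coord c) (measurableSet_even l)
  have hs1 : ∀ x, x + h ∈ S ↔ x ∉ S := by
    intro x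
    simp only [hS, Set.mem_ofPred_eq]
    rw [hh, add_same]
    have := dg_add l (x c) 1
    rw [Int.cast_one, one_mul] at this
    rw [this, Int.even_add]
    simp
  have hflS : ∀ x, fl c l x ∈ S ↔ x ∉ S := by
    intro x
    by_cases hx : x ∈ S
    · have : fl c l x = x + h := by unfold fl; rw [sg_even hx]
      rw [this, hs1]
    · have : fl c l x = x + -h := by unfold fl; rw [sg_odd hx, neg_smul]
      rw [this]
      have := hs1 (x + -h)
      rw [neg_add_cancel_right] at this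
      tauto
  rw [h2h, norm_sq_Vt_sub, norm_sq_Vt_sub]
  set G : E2 → ℝ := fun x => ‖f (x + (h + h)) - f x‖ ^ 2 with hG
  have hGi : Integrable G := by
    have := integrable_sq (Vt (h + h) f - f)
    refine this.congr ?_
    filter_upwards [Vt_coe (h + h) f, Lp.coeFn_sub (Vt (h + h) f) f] with x h1 h2
    rw [h2, Pi.sub_apply, h1]
  have hfe : (fun x => f (fl c l x)) =ᵐ[volume] f := by
    have := Uf_coe c l f
    rw [hf] at this
    exact this.symm
  have e1 : ∫ x, ‖f (x + h) - f x‖ ^ 2 = ∫ x, Sᶜ.indicator G x := by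
    refine integral_congr_ae ?_
    filter_upwards [hfe, ae_comp_add h hfe] with x h1 h2
    by_cases hx : x ∈ S
    · have e : fl c l x = x + h := by unfold fl; rw [sg_even hx]
      rw [Set.indicator_of_notMem (by simpa using hx), ← e, h1]
      simp
    · rw [Set.indicator_of_mem (by simpa using hx)]
      have hx' : x + h ∈ S := (hs1 x).2 hx
      have e : fl c l (x + h) = x + (h + h) := by
        unfold fl
        rw [sg_even hx', ← hh, add_assoc]
      rw [e] at h2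
      simp only [hG]
      rw [h2]
  have e2 : ∫ x, Sᶜ.indicator G x = ∫ x, S.indicator G x := by
    have a1 : ∫ x, Sᶜ.indicator G (fl c l x) = ∫ x, Sᶜ.indicator G x := by
      have m := mp_fl c l
      have a2 : AEStronglyMeasurable (Sᶜ.indicator G) (Measure.map (fl c l) volume) := by
        rw [m.map_eq]; exact hGi.aestronglyMeasurable.indicator hSm.compl
      have := integral_map m.measurable.aemeasurable a2
      rw [m.map_eq] at this
      exact this.symm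
    rw [← a1]
    refine integral_congr_ae ?_
    filter_upwards [hfe, ae_comp_add (h + h) hfe] with x h1 h2
    by_cases hx : x ∈ S
    · have hx' : fl c l x ∈ Sᶜ := by
        rw [Set.mem_compl_iff, hflS]; exact not_not.2 hx
      rw [Set.indicator_of_mem hx, Set.indicator_of_mem hx']
      simp only [hG]
      have e : fl c l x + (h + h) = fl c l (x + (h + h)) := by
        rw [← h2h, fl_translate_same]
      rw [e, h1, h2]
    · have hx' : fl c l x ∉ Sᶜ := by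
        rw [Set.mem_compl_iff, hflS]; simpa using hx
      rw [Set.indicator_of_notMem hx, Set.indicator_of_notMem hx']
  have e3 : (∫ x, Sᶜ.indicator G x) + ∫ x, S.indicator G x = ∫ x, G x := by
    rw [integral_indicator hSm.compl, integral_indicator hSm, add_comm]
    exact integral_add_compl hSm hGi
  rw [e1]
  linarith

theorem two_dl (l : ℤ) : 2 * dl (l + 1) = dl l := by
  unfold dl
  rw [show -(l + 1) = -(l + 1 + 1) + 1 by ring, zpow_add₀ two_ne_zero]
  ring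

theorem norm_Vt_sub_le (h : E2) (f : L2) : ‖Vt h f - f‖ ^ 2 ≤ 4 * ‖f‖ ^ 2 := by
  have h1 := norm_sub_le (Vt h f) f
  rw [(Vt h).norm_map] at h1
  have h2 := norm_nonneg (Vt h f - f)
  nlinarith [norm_nonneg f]

theorem en_le (c : Fin 2) (i : ℤ) (f : L2) (hf : f ∈ Wf (Uf c) (i + 1)) (k : ℕ) :
    ‖Vt (dl (i + k) • ee c) f - f‖ ^ 2 ≤ 4 * (1 / 2) ^ k * ‖f‖ ^ 2 := by
  induction k with
  | zero => simpa using norm_Vt_sub_le _ f
  | succ k ih =>
    have h1 := half c (i + (k + 1 : ℕ)) f (hf _ (by push_cast; omega))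
    have e : 2 * dl (i + (k + 1 : ℕ)) = dl (i + k) := by
      rw [← two_dl (i + k)]
      congr 2
      push_cast; ring
    have e5 : (1 / 2 : ℝ) ^ (k + 1) = (1 / 2) ^ k * (1 / 2) := pow_succ _ _
    rw [e] at h1
    rw [e5]
    linarith

/-- the part of the frequencies between `2 ^ n` and `2 ^ (n + 1)` -/
theorem shell_le (c : Fin 2) (n : ℤ) (f : L2) :
    ‖f - Pc c n f‖ ^ 2 ≤ ‖f - Pc c (n + 1) f‖ ^ 2 + ‖Vt (dl (n + 1) • ee c) f - f‖ ^ 2 := by
  rw [Pc, Pc, Pi_compl, Pi_compl, Pi_norm_sq, Pi_norm_sq, norm_Vt_sub_sq]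
  have i1 : Integrable ({ξ : E2 | ξ c ∈ Bn n}ᶜ.indicator fun ξ => ‖(𝓕 f : L2) ξ‖ ^ 2) :=
    (integrable_sq (𝓕 f : L2)).indicator (measurable_coord c (Bn_meas n)).compl
  have i2 : Integrable ({ξ : E2 | ξ c ∈ Bn (n + 1)}ᶜ.indicator fun ξ => ‖(𝓕 f : L2) ξ‖ ^ 2) :=
    (integrable_sq (𝓕 f : L2)).indicator (measurable_coord c (Bn_meas (n + 1))).compl
  have i3 : Integrable fun ξ : E2 => ‖chr (dl (n + 1) • ee c) ξ - 1‖ ^ 2 * ‖(𝓕 f : L2) ξ‖ ^ 2 := by
    have a := integrable_sq (𝓕 (Vt (dl (n + 1) • ee c) f - f) : L2)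
    refine a.congr ?_
    rw [fourier_sub, fourier_Vt]
    filter_upwards [Lp.coeFn_sub (mulOp (chr (dl (n + 1) • ee c)) (measurable_chr _) 1
      (fun ξ => (chr_norm _ ξ).le) (𝓕 f)) (𝓕 f),
      mulOp_coe (measurable_chr (dl (n + 1) • ee c)) (fun ξ => (chr_norm _ ξ).le) (𝓕 f)]
      with ξ h1 h2
    rw [h1, Pi.sub_apply, h2, ← mul_pow, ← norm_mul]
    congr 2
    ring
  rw [← integral_add i2 i3]
  refine integral_mono i1 (i2.add i3) fun ξ => ?_
  simp only
  have n1 : 0 ≤ ‖(𝓕 f : L2) ξ‖ ^ 2 := sq_nonneg _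
  have n2 : 0 ≤ ‖chr (dl (n + 1) • ee c) ξ - 1‖ ^ 2 * ‖(𝓕 f : L2) ξ‖ ^ 2 := by positivity
  by_cases h1 : ξ ∈ {ξ : E2 | ξ c ∈ Bn (n + 1)}ᶜ
  · have h2 : ξ ∈ {ξ : E2 | ξ c ∈ Bn n}ᶜ := fun h => h1 (set_mono c (by omega) h)
    rw [Set.indicator_of_mem h1, Set.indicator_of_mem h2]
    linarith
  · rw [Set.indicator_of_notMem h1]
    by_cases h2 : ξ ∈ {ξ : E2 | ξ c ∈ Bn n}ᶜ
    · rw [Set.indicator_of_mem h2, zero_add]
      have b1 : |ξ c| < (2 : ℝ) ^ (n + 1) := by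
        have := h1
        rw [Set.mem_compl_iff, not_not] at this
        exact this
      have b2 : (2 : ℝ) ^ n ≤ |ξ c| := by
        have := h2
        rw [Set.mem_compl_iff] at this
        exact not_lt.1 this
      have hd := dl_pos (n + 1)
      have e1 : |dl (n + 1) * ξ c| = dl (n + 1) * |ξ c| := by
        rw [abs_mul, abs_of_pos hd]
      have e2 : dl (n + 1) * (2 : ℝ) ^ n = 1 / 4 := by
        unfold dl
        rw [← zpow_add₀ two_ne_zero, show -(n + 1 + 1) + n = -2 by ring]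
        norm_num
      have e3 : dl (n + 1) * (2 : ℝ) ^ (n + 1) = 1 / 2 := by
        rw [zpow_add₀ two_ne_zero, ← mul_assoc, e2]; norm_num
      have := chr_lower c (dl (n + 1)) ξ
        (by rw [e1, ← e2]; exact mul_le_mul_of_nonneg_left b2 hd.le)
        (by rw [e1, ← e3]; exact mul_le_mul_of_nonneg_left b1.le hd.le)
      nlinarith
    · rw [Set.indicator_of_notMem h2, zero_add]
      exact n2

theorem K1_aux (c : Fin 2) (i : ℤ) (f : L2) (hf : f ∈ Wf (Uf c) (i + 1)) (m k : ℕ) :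
    ‖f - Pc c (i + m) f‖ ^ 2 ≤ ‖f - Pc c (i + m + k) f‖ ^ 2 +
      4 * (1 / 2) ^ m * (1 - (1 / 2) ^ k) * ‖f‖ ^ 2 := by
  induction k with
  | zero => simp
  | succ k ih =>
    have h1 := shell_le c (i + m + k) f
    have h2 := en_le c i f hf (m + k + 1)
    have e1 : i + ((m + k + 1 : ℕ) : ℤ) = i + m + k + 1 := by push_cast; ring
    rw [e1] at h2
    have e2 : i + m + ((k + 1 : ℕ) : ℤ) = i + m + k + 1 := by push_cast; ring
    rw [e2]
    have e3 : (1 / 2 : ℝ) ^ (m + k + 1) = (1 / 2) ^ m * (1 / 2) ^ k * (1 / 2) := by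
      rw [pow_succ, pow_add]
    rw [e3] at h2
    have e5 : (1 / 2 : ℝ) ^ (k + 1) = (1 / 2) ^ k * (1 / 2) := pow_succ _ _
    rw [e5]
    nlinarith

theorem Pc_compl_norm_le (c : Fin 2) (n : ℤ) (g : L2) : ‖g - Pc c n g‖ ≤ ‖g‖ := by
  unfold Pc
  rw [Pi_compl]
  exact Pi_norm_le _ _

theorem Pc_sub_mono (c : Fin 2) {m n : ℤ} (h : m ≤ n) (f : L2) :
    ‖f - Pc c n f‖ ≤ ‖f - Pc c m f‖ := by
  have e : f - Pc c n f = (f - Pc c m f) - Pc c n (f - Pc c m f) := by
    rw [map_sub, Pc_of_ge c h]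
    abel
  rw [e]
  exact Pc_compl_norm_le c n _

theorem Pc_tendsto_add (c : Fin 2) (a : ℤ) (f : L2) :
    Tendsto (fun k : ℕ => Pc c (a + k) f) atTop (𝓝 f) := by
  have h3 := Pc_tendsto c f
  rw [Metric.tendsto_atTop] at h3 ⊢
  intro ε hε
  obtain ⟨N, hN⟩ := h3 ε hε
  refine ⟨N + a.natAbs, fun k hk => ?_⟩
  have h4 := hN N le_rfl
  have h5 := Pc_sub_mono c (show (N : ℤ) ≤ a + k by omega) f
  rw [dist_eq_norm, norm_sub_rev] at h4 ⊢
  exact h5.trans_lt h4

/-- Functions of low resolution have mostly low frequencies. -/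
theorem K1_est (c : Fin 2) (i : ℤ) (f : L2) (hf : f ∈ Wf (Uf c) (i + 1)) (m : ℕ) :
    ‖f - Pc c (i + m) f‖ ^ 2 ≤ 4 * (1 / 2) ^ m * ‖f‖ ^ 2 := by
  have h1 : Tendsto (fun k : ℕ => ‖f - Pc c (i + m + k) f‖ ^ 2) atTop (𝓝 0) := by
    have h2 : Tendsto (fun k : ℕ => Pc c (i + m + k) f) atTop (𝓝 f) := Pc_tendsto_add c _ f
    have h3 := (h2.const_sub f).norm.pow 2
    rw [sub_self, norm_zero, zero_pow two_ne_zero] at h3
    exact h3
  have h2 : Tendsto (fun k : ℕ => ‖f - Pc c (i + m + k) f‖ ^ 2 + 4 * (1 / 2) ^ m * ‖f‖ ^ 2)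
      atTop (𝓝 (0 + 4 * (1 / 2) ^ m * ‖f‖ ^ 2)) := h1.add_const _
  rw [zero_add] at h2
  refine ge_of_tendsto h2 (Filter.Eventually.of_forall fun k => ?_)
  refine (K1_aux c i f hf m k).trans ?_
  have h3 : (0 : ℝ) ≤ (1 / 2) ^ k := by positivity
  have h4 : (0 : ℝ) ≤ 4 * (1 / 2) ^ m * ‖f‖ ^ 2 := by positivity
  nlinarith

end Pool.Agent.H73.Hyp
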