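import Pool.Agent.H73.Hyp.Est2

/-! The second estimate, and the square function that compares frequency cut-offs with dyadic
averages. -/

namespace Pool.Agent.H73.Hyp

open MeasureTheory FourierTransform Filter Topology

section abs

variable {H : Type*} [NormedAddCommGroup H] [InnerProductSpace ℂ H] [CompleteSpace H]

theorem Dp_le {U : ℤ → H →ₗᵢ[ℂ] H} (hU : Flips U) (l : ℤ) (w : H) :
    ‖Dp U l w‖ ≤ 1 / 2 * ‖U l w - w‖ := by
  have h1 : Ep U (l + 1) (U l w) = U l (Ep U (l + 1) w) :=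
    Ep_comm (S := (U l).toContinuousLinearMap) (fun f g => inner_U hU l f g)
      (fun m f => hU.comm l m f) (l + 1) w
  have h2 : Ep U (l + 1) (w - U l w) = (2 : ℂ) • Dp U l w := by
    rw [map_sub, h1, U_Ep hU, Dp_apply, two_smul]
    abel
  have h3 := Ep_norm_le U (l + 1) (w - U l w)
  rw [h2, norm_smul, norm_sub_rev] at h3
  have h4 : ‖(2 : ℂ)‖ = 2 := by norm_num
  rw [h4] at h3
  linarith

end abs

theorem Vt_neg (c : Fin 2) (t : ℝ) (f : L2) :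
    ‖Vt (-(t • ee c)) f - f‖ ^ 2 = ‖Vt (t • ee c) f - f‖ ^ 2 := by
  rw [← neg_smul, norm_Vt_sub_sq, norm_Vt_sub_sq]
  refine integral_congr_ae (Filter.Eventually.of_forall fun ξ => ?_)
  simp only
  rw [norm_chr_sub, norm_chr_sub, neg_mul, mul_neg, Real.sin_neg, abs_neg]

theorem Uf_sub_le (c : Fin 2) (l : ℤ) (f : L2) :
    ‖Uf c l f - f‖ ^ 2 ≤ 2 * ‖Vt (dl l • ee c) f - f‖ ^ 2 := by
  have e : 2 * ‖Vt (dl l • ee c) f - f‖ ^ 2 =
      ‖Vt (dl l • ee c) f - f‖ ^ 2 + ‖Vt (-(dl l • ee c)) f - f‖ ^ 2 := by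
    rw [Vt_neg]; ring
  rw [e, norm_sq_Vt_sub, norm_sq_Vt_sub, norm_sq_eq]
  have hi : ∀ h : E2, Integrable fun x => ‖f (x + h) - f x‖ ^ 2 := by
    intro h
    have := integrable_sq (Vt h f - f)
    refine this.congr ?_
    filter_upwards [Vt_coe h f, Lp.coeFn_sub (Vt h f) f] with x h1 h2
    rw [h2, Pi.sub_apply, h1]
  rw [← integral_add (hi _) (hi _)]
  refine integral_mono_ae (integrable_sq _) ((hi _).add (hi _)) ?_
  filter_upwards [Lp.coeFn_sub (Uf c l f) f, Uf_coe c l f] with x h1 h2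
  rw [h1, Pi.sub_apply, h2]
  by_cases hx : Even (dg l (x c))
  · have : fl c l x = x + dl l • ee c := by unfold fl; rw [sg_even hx]
    rw [this]
    have := sq_nonneg ‖f (x + -(dl l • ee c)) - f x‖
    linarith
  · have : fl c l x = x + -(dl l • ee c) := by unfold fl; rw [sg_odd hx, neg_smul]
    rw [this]
    have := sq_nonneg ‖f (x + dl l • ee c) - f x‖
    linarith

theorem Vt_Pc_le (c : Fin 2) (n : ℤ) (m : ℕ) (f : L2) :
    ‖Vt (dl (n + m) • ee c) (Pc c n f) - Pc c n f‖ ^ 2 ≤ 10 * (1 / 4) ^ m * ‖Pc c n f‖ ^ 2 := by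
  rw [norm_Vt_sub_sq, norm_sq_fourier (Pc c n f), ← integral_const_mul]
  have i2 := integrable_sq (𝓕 (Pc c n f) : L2)
  have key : ∀ᵐ ξ : E2, ‖chr (dl (n + m) • ee c) ξ - 1‖ ^ 2 * ‖(𝓕 (Pc c n f) : L2) ξ‖ ^ 2 ≤
      10 * (1 / 4) ^ m * ‖(𝓕 (Pc c n f) : L2) ξ‖ ^ 2 := by
    filter_upwards [Pc_coe c n f] with ξ h1
    rw [h1]
    by_cases hξ : ξ ∈ {ξ : E2 | ξ c ∈ Bn n}
    · refine mul_le_mul_of_nonneg_right ?_ (sq_nonneg _)
      refine (chr_upper _ _ _).trans ?_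
      have h2 : |ξ c| < (2 : ℝ) ^ n := hξ
      have hd := dl_pos (n + m)
      have h3 : |dl (n + m) * ξ c| ≤ 1 / 2 * (1 / 2) ^ m := by
        rw [abs_mul, abs_of_pos hd]
        have h4 : dl (n + m) * (2 : ℝ) ^ n = 1 / 2 * (1 / 2) ^ m := by
          unfold dl
          rw [← zpow_add₀ two_ne_zero, show -(n + (m : ℤ) + 1) + n = -((m : ℤ) + 1) by ring,
            zpow_neg, show ((m : ℤ) + 1) = ((m + 1 : ℕ) : ℤ) by push_cast; ring, zpow_natCast,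
            pow_succ]
          rw [mul_inv, one_div, inv_pow]
          ring
        rw [← h4]
        exact mul_le_mul_of_nonneg_left h2.le hd.le
      have h5 : (2 * Real.pi * (dl (n + m) * ξ c)) ^ 2 =
          4 * Real.pi ^ 2 * |dl (n + m) * ξ c| ^ 2 := by
        rw [sq_abs]; ring
      rw [h5]
      have h6 : |dl (n + m) * ξ c| ^ 2 ≤ 1 / 4 * (1 / 4) ^ m := by
        refine (pow_le_pow_left₀ (abs_nonneg _) h3 2).trans (le_of_eq ?_)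
        rw [mul_pow, ← pow_mul, mul_comm m 2, pow_mul]
        norm_num
      have h7 : Real.pi ^ 2 ≤ 10 := by
        have := Real.pi_lt_d2
        have := Real.pi_pos
        nlinarith
      have h8 : (0 : ℝ) ≤ (1 / 4) ^ m := by positivity
      have h9 : 0 ≤ Real.pi ^ 2 := sq_nonneg _
      calc 4 * Real.pi ^ 2 * |dl (n + m) * ξ c| ^ 2 ≤ 4 * Real.pi ^ 2 * (1 / 4 * (1 / 4) ^ m) := by
            gcongr
        _ = Real.pi ^ 2 * (1 / 4) ^ m := by ring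
        _ ≤ 10 * (1 / 4) ^ m := by gcongr
    · rw [Set.indicator_of_notMem hξ]
      simp
  refine integral_mono_ae ?_ (i2.const_mul _) key
  refine (i2.const_mul (10 * (1 / 4) ^ m)).mono' ?_ ?_
  · exact ((((measurable_chr _).sub_const 1).norm.pow_const 2).aestronglyMeasurable).mul
      i2.aestronglyMeasurable
  · filter_upwards [key] with ξ h
    rw [Real.norm_eq_abs, abs_of_nonneg (by positivity)]
    exact h

theorem Uf_Pc_le (c : Fin 2) (n : ℤ) (m : ℕ) (f : L2) :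
    ‖Uf c (n + m) (Pc c n f) - Pc c n f‖ ≤ 5 * (1 / 2) ^ m * ‖Pc c n f‖ := by
  have h1 := Uf_sub_le c (n + m) (Pc c n f)
  have h2 := Vt_Pc_le c n m f
  refine abs_le_of_sq_le_sq' ?_ (by positivity) |>.2
  rw [mul_pow, mul_pow, ← pow_mul, mul_comm m 2, pow_mul]
  have h3 : ((1 : ℝ) / 2) ^ 2 = 1 / 4 := by norm_num
  rw [h3]
  have h4 : (0 : ℝ) ≤ (1 / 4) ^ m * ‖Pc c n f‖ ^ 2 := by positivity
  nlinarith

/-- Functions of low frequency have small differences of high resolution. -/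
theorem K2_est (c : Fin 2) (n : ℤ) (m : ℕ) (g : L2) :
    ‖Pc c n (Dp (Uf c) (n + m) g)‖ ≤ 3 * (1 / 2) ^ m * ‖Dp (Uf c) (n + m) g‖ := by
  set h := Dp (Uf c) (n + m) g with hh
  have e1 : Dp (Uf c) (n + m) h = h := Dp_Dp_self _ _ _
  have h1 : ‖Dp (Uf c) (n + m) (Pc c n h)‖ ≤ 3 * (1 / 2) ^ m * ‖Pc c n h‖ := by
    have h2 := Dp_le (flips c) (n + m) (Pc c n h)
    have h3 := Uf_Pc_le c n m h
    have h4 : 0 ≤ (1 / 2 : ℝ) ^ m * ‖Pc c n h‖ := by positivity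
    nlinarith
  have h2 : (inner ℂ (Pc c n h) (Pc c n h) : ℂ) = inner ℂ h (Dp (Uf c) (n + m) (Pc c n h)) := by
    rw [Pc_inner, Pc_idem, ← Dp_inner, e1]
  have h3 : ‖Pc c n h‖ ^ 2 ≤ ‖h‖ * (3 * (1 / 2) ^ m * ‖Pc c n h‖) := by
    have h4 : ‖(inner ℂ (Pc c n h) (Pc c n h) : ℂ)‖ = ‖Pc c n h‖ ^ 2 := by
      rw [inner_self_eq_norm_sq_to_K]
      simp
    rw [← h4, h2]
    exact (norm_inner_le_norm _ _).trans (mul_le_mul_of_nonneg_left h1 (norm_nonneg _))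
  rcases eq_or_lt_of_le (norm_nonneg (Pc c n h)) with h0 | h0
  · rw [← h0]; positivity
  · have h5 : ‖Pc c n h‖ * ‖Pc c n h‖ ≤ (3 * (1 / 2) ^ m * ‖h‖) * ‖Pc c n h‖ := by
      rw [← sq]; linarith
    exact le_of_mul_le_mul_right h5 h0

theorem Ep_up (c : Fin 2) (f : L2) : Tendsto (fun b : ℕ => Ep (Uf c) b f) atTop (𝓝 f) := by
  have h1 : ∀ n k : ℕ, ‖Pc c n f - Ep (Uf c) ((n + k : ℕ) : ℤ) (Pc c n f)‖ ≤
      5 * (1 / 2) ^ k * ‖f‖ := by
    intro n k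
    refine sub_Ep_le (flips c) _ _ fun j => ?_
    have h2 := Uf_Pc_le c n (k + j) f
    have e : ((n + k : ℕ) : ℤ) + j = n + ((k + j : ℕ) : ℤ) := by push_cast; ring
    rw [e]
    refine h2.trans ?_
    rw [pow_add]
    have h3 := Pc_norm_le c n f
    have h4 : 0 ≤ (1 / 2 : ℝ) ^ k * (1 / 2) ^ j := by positivity
    nlinarith [mul_le_mul_of_nonneg_left h3 h4]
  rw [Metric.tendsto_atTop]
  intro ε hε
  obtain ⟨n, hn⟩ := (Metric.tendsto_atTop.1 (Pc_tendsto c f)) (ε / 3) (by positivity)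
  have h2 := hn n le_rfl
  rw [dist_eq_norm] at h2
  have h3 : Tendsto (fun k : ℕ => 5 * (1 / 2 : ℝ) ^ k * ‖f‖) atTop (𝓝 (5 * 0 * ‖f‖)) :=
    ((tendsto_pow_atTop_nhds_zero_of_lt_one (by norm_num) (by norm_num)).const_mul 5).mul_const _
  rw [mul_zero, zero_mul] at h3
  obtain ⟨k, hk⟩ := (Metric.tendsto_atTop.1 h3) (ε / 3) (by positivity)
  refine ⟨n + k, fun b hb => ?_⟩
  obtain ⟨j, rfl⟩ : ∃ j, b = n + j := ⟨b - n, by omega⟩
  have h4 := hk j (by omega)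
  rw [Real.dist_eq, sub_zero, abs_of_nonneg (by positivity)] at h4
  have h5 := (h1 n j).trans_lt h4
  have e : Ep (Uf c) ((n + j : ℕ) : ℤ) f - f = Ep (Uf c) ((n + j : ℕ) : ℤ) (f - Pc c n f) -
      (Pc c n f - Ep (Uf c) ((n + j : ℕ) : ℤ) (Pc c n f)) + (Pc c n f - f) := by
    rw [map_sub]; abel
  rw [dist_eq_norm, e]
  have h6 := Ep_norm_le (Uf c) ((n + j : ℕ) : ℤ) (f - Pc c n f)
  rw [norm_sub_rev f] at h6
  calc _ ≤ _ := norm_add_le _ _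
    _ ≤ (‖Ep (Uf c) ((n + j : ℕ) : ℤ) (f - Pc c n f)‖ +
      ‖Pc c n f - Ep (Uf c) ((n + j : ℕ) : ℤ) (Pc c n f)‖) + ‖Pc c n f - f‖ := by
        gcongr
        exact norm_sub_le _ _
    _ < ε := by linarith

theorem Ep_low_aux (c : Fin 2) (i : ℤ) (m : ℕ) (v : L2) (hv : Pc c (i + m) v = 0) :
    ‖Ep (Uf c) (i + 1) v‖ ^ 2 ≤ 4 * (1 / 2) ^ m * ‖v‖ ^ 2 := by
  set w := Ep (Uf c) (i + 1) v with hw
  have hwm : w ∈ Wf (Uf c) (i + 1) := Ep_mem _ _ _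
  have h1 := K1_est c i w hwm m
  have h2 : (inner ℂ w w : ℂ) = inner ℂ v (w - Pc c (i + m) w) := by
    have e1 : (inner ℂ w w : ℂ) = inner ℂ v w := by
      conv_lhs => rw [hw]
      rw [Ep_inner, ← hw, Ep_eq _ hwm]
    have e2 : (inner ℂ v (Pc c (i + m) w) : ℂ) = 0 := by
      rw [← Pc_inner, hv, inner_zero_left]
    rw [inner_sub_right, e2, e1, sub_zero]
  have h3 : ‖w‖ ^ 2 ≤ ‖v‖ * ‖w - Pc c (i + m) w‖ := by
    have h4 : ‖(inner ℂ w w : ℂ)‖ = ‖w‖ ^ 2 := by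
      rw [inner_self_eq_norm_sq_to_K]
      simp
    rw [← h4, h2]
    exact norm_inner_le_norm _ _
  rcases eq_or_lt_of_le (norm_nonneg w) with h0 | h0
  · rw [← h0, zero_pow two_ne_zero]; positivity
  · have h4 : (‖w‖ ^ 2) ^ 2 ≤ ‖v‖ ^ 2 * (4 * (1 / 2) ^ m * ‖w‖ ^ 2) := by
      refine (pow_le_pow_left₀ (sq_nonneg _) h3 2).trans ?_
      rw [mul_pow]
      exact mul_le_mul_of_nonneg_left h1 (sq_nonneg _)
    have h5 : 0 < ‖w‖ ^ 2 := by positivity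
    have h6 : ‖w‖ ^ 2 * ‖w‖ ^ 2 ≤ (4 * (1 / 2) ^ m * ‖v‖ ^ 2) * ‖w‖ ^ 2 := by
      nlinarith
    exact le_of_mul_le_mul_right h6 h5

theorem Ep_low (c : Fin 2) (f : L2) :
    Tendsto (fun a : ℕ => Ep (Uf c) (-a) f) atTop (𝓝 0) := by
  rw [Metric.tendsto_atTop]
  intro ε hε
  obtain ⟨n, hn⟩ := (Metric.tendsto_atTop.1 (Pc_tendsto_zero c f)) (ε / 2) (by positivity)
  have h2 := hn n le_rfl
  rw [dist_eq_norm, sub_zero] at h2
  have h3 : Tendsto (fun k : ℕ => 4 * (1 / 2 : ℝ) ^ k * ‖f‖ ^ 2) atTop (𝓝 (4 * 0 * ‖f‖ ^ 2)) :=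
    ((tendsto_pow_atTop_nhds_zero_of_lt_one (by norm_num) (by norm_num)).const_mul 4).mul_const _
  rw [mul_zero, zero_mul] at h3
  obtain ⟨k, hk⟩ := (Metric.tendsto_atTop.1 h3) ((ε / 2) ^ 2) (by positivity)
  refine ⟨n + k, fun a ha => ?_⟩
  set v := f - Pc c (-n) f with hv
  have hv0 : Pc c (-n) v = 0 := by rw [hv, map_sub, Pc_idem, sub_self]
  have hvn : ‖v‖ ≤ ‖f‖ := Pc_compl_norm_le c _ f
  obtain ⟨j, rfl⟩ : ∃ j, a = n + j := ⟨a - n, by omega⟩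
  have h4 := hk (j + 1) (by omega)
  rw [Real.dist_eq, sub_zero, abs_of_nonneg (by positivity)] at h4
  have e1 : -((n + j : ℕ) : ℤ) = -((n + j : ℕ) : ℤ) - 1 + 1 := by ring
  have e2 : -((n + j : ℕ) : ℤ) - 1 + ((j + 1 : ℕ) : ℤ) = -n := by push_cast; ring
  have h5 := Ep_low_aux c (-((n + j : ℕ) : ℤ) - 1) (j + 1) v (by rw [e2]; exact hv0)
  rw [← e1] at h5
  have h6 : ‖Ep (Uf c) (-((n + j : ℕ) : ℤ)) v‖ < ε / 2 := by
    refine lt_of_pow_lt_pow_left₀ 2 (by positivity) (lt_of_le_of_lt h5 (lt_of_le_of_lt ?_ h4))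
    gcongr
  have e : Ep (Uf c) (-((n + j : ℕ) : ℤ)) f = Ep (Uf c) (-((n + j : ℕ) : ℤ)) v +
      Ep (Uf c) (-((n + j : ℕ) : ℤ)) (Pc c (-n) f) := by
    rw [← map_add, hv]; congr 1; abel
  rw [dist_eq_norm, sub_zero, e]
  have h7 := Ep_norm_le (Uf c) (-((n + j : ℕ) : ℤ)) (Pc c (-n) f)
  calc _ ≤ _ := norm_add_le _ _
    _ < ε := by linarith

theorem pow_aux (m : ℕ) : (1 / 2 : ℝ) ^ m ≤ (3 / 4) ^ m :=
  pow_le_pow_left₀ (by norm_num) (by norm_num) m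

/-- The square function that compares the frequency cut-offs with the dyadic averages. -/
theorem sqf (c : Fin 2) (J : Finset ℤ) (g : L2) :
    ∑ n ∈ J, ‖Pc c n g - Ep (Uf c) (n + 1) g‖ ^ 2 ≤ 576 * ‖g‖ ^ 2 := by
  have h := schur (U := Uf c) (Pc c) (κ := 3) (r := 3 / 4) (by norm_num) (by norm_num) ?_ ?_
    (Ep_up c) (Ep_low c) J g
  · norm_num at h
    exact h
  · intro n l hl f
    obtain ⟨m, rfl⟩ : ∃ m : ℕ, n = l + m := ⟨(n - l).toNat, by omega⟩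
    have h1 := K1_est c l (Dp (Uf c) l f) (Dp_mem _ _ _) m
    have e : (l + m - l).natAbs = m := by simp
    rw [e]
    refine abs_le_of_sq_le_sq' (h1.trans ?_) (by positivity) |>.2
    rw [mul_pow, mul_pow, ← pow_mul, mul_comm m 2, pow_mul]
    have h2 : (1 / 2 : ℝ) ^ m ≤ ((3 / 4) ^ 2) ^ m :=
      pow_le_pow_left₀ (by norm_num) (by norm_num) m
    have h3 : (0 : ℝ) ≤ ‖Dp (Uf c) l f‖ ^ 2 := sq_nonneg _
    have h4 : (0 : ℝ) ≤ ((3 / 4) ^ 2) ^ m := by positivity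
    nlinarith [mul_le_mul_of_nonneg_right h2 h3, mul_nonneg h4 h3]
  · intro n l hl f
    obtain ⟨m, rfl⟩ : ∃ m : ℕ, l = n + m := ⟨(l - n).toNat, by omega⟩
    have e : (n - (n + m : ℤ)).natAbs = m := by omega
    rw [e]
    exact (K2_est c n m f).trans (mul_le_mul_of_nonneg_right
      (mul_le_mul_of_nonneg_left (pow_aux m) (by norm_num)) (norm_nonneg _))

end Pool.Agent.H73.Hyp
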