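import Pool.Agent.H73.Hyp.Chain

/-! The hyperbolic Riesz means over real parameters. -/

namespace Pool.Agent.H73.Hyp

open MeasureTheory FourierTransform Filter Topology Finset

/-- the hyperbolic Riesz mean -/
noncomputable def Rz (lam : ℝ) (hl : 0 < lam) (s : ℝ) : L2 →L[ℂ] L2 :=
  Tm (fun ξ => (symb lam s ξ : ℂ)) (Complex.measurable_ofReal.comp (measurable_symb lam s)) 1
    (symb_norm hl s)

theorem Rz_coe {lam : ℝ} (hl : 0 < lam) (s : ℝ) (f : L2) :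
    (𝓕 (Rz lam hl s f) : L2) =ᵐ[volume] fun ξ => (symb lam s ξ : ℂ) * (𝓕 f : L2) ξ :=
  fourier_Tm_coe _ _ f

/-- the weight of the comparison -/
noncomputable def wt (f : L2) (k : ℤ) : ℝ := ∫ ξ, be k (rh ξ) ^ 2 * ‖(𝓕 f : L2) ξ‖ ^ 2

theorem wt_integrable (f : L2) (k : ℤ) :
    Integrable fun ξ => be k (rh ξ) ^ 2 * ‖(𝓕 f : L2) ξ‖ ^ 2 := by
  refine (integrable_sq (𝓕 f : L2)).mono' ?_ ?_
  · exact (((measurable_be k).comp measurable_rh).pow_const 2).aestronglyMeasurable.mul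
      (integrable_sq (𝓕 f : L2)).aestronglyMeasurable
  · refine Filter.Eventually.of_forall fun ξ => ?_
    rw [Real.norm_eq_abs, abs_of_nonneg (by positivity)]
    have h1 : be k (rh ξ) ^ 2 ≤ 1 := pow_le_one₀ (be_nonneg k (rh_nonneg ξ)) (be_le_one k)
    have h2 : 0 ≤ ‖(𝓕 f : L2) ξ‖ ^ 2 := sq_nonneg _
    nlinarith

theorem wt_nonneg (f : L2) (k : ℤ) : 0 ≤ wt f k := integral_nonneg fun ξ => by positivity

theorem sum_wt (f : L2) (K : Finset ℤ) : ∑ k ∈ K, wt f k ≤ 2 * ‖f‖ ^ 2 := by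
  unfold wt
  rw [← integral_finsetSum _ fun k _ => wt_integrable f k, norm_sq_fourier f,
    ← integral_const_mul]
  refine integral_mono (integrable_finsetSum _ fun k _ => wt_integrable f k)
    ((integrable_sq _).const_mul 2) fun ξ => ?_
  simp only
  rw [← sum_mul]
  exact mul_le_mul_of_nonneg_right (sum_be K (rh_nonneg ξ)) (sq_nonneg _)

theorem norm_sq_le_wt {f g : L2} {k : ℤ} {C : ℝ} (hC : 0 ≤ C)
    (h : ∀ᵐ ξ, ‖(𝓕 g : L2) ξ‖ ≤ C * be k (rh ξ) * ‖(𝓕 f : L2) ξ‖) :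
    ‖g‖ ^ 2 ≤ C ^ 2 * wt f k := by
  unfold wt
  rw [norm_sq_fourier, ← integral_const_mul]
  refine integral_mono_ae (integrable_sq _) ((wt_integrable f k).const_mul _) ?_
  filter_upwards [h] with ξ hξ
  refine (pow_le_pow_left₀ (norm_nonneg _) hξ 2).trans (le_of_eq ?_)
  ring

theorem Rz_sub_Hc {lam : ℝ} (hl : 1 / 2 < lam) (hl0 : 0 < lam) (k : ℤ) (f : L2) :
    ‖Rz lam hl0 ((2 : ℝ) ^ k) f - Hc k f‖ ^ 2 ≤ (max 1 lam) ^ 2 * wt f k := by
  refine norm_sq_le_wt (by positivity) ?_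
  rw [fourier_sub]
  filter_upwards [Lp.coeFn_sub (𝓕 (Rz lam hl0 ((2 : ℝ) ^ k) f) : L2) (𝓕 (Hc k f)),
    Rz_coe hl0 ((2 : ℝ) ^ k) f, Pi_coe (hyp_meas k) f] with ξ h1 h2 h3
  rw [h1, Pi.sub_apply, h2]
  unfold Hc
  rw [h3]
  have h4 := symb_sub_le hl k ξ
  by_cases h : ξ ∈ {ξ : E2 | |ξ 0 * ξ 1| < (2 : ℝ) ^ k}
  · rw [Set.indicator_of_mem h]
    have h' : rh ξ < (2 : ℝ) ^ k := h
    rw [if_pos h'] at h4
    have e : (symb lam ((2 : ℝ) ^ k) ξ : ℂ) * (𝓕 f : L2) ξ - (𝓕 f : L2) ξ =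
        ((symb lam ((2 : ℝ) ^ k) ξ - 1 : ℝ) : ℂ) * (𝓕 f : L2) ξ := by push_cast; ring
    rw [e, norm_mul, Complex.norm_real, Real.norm_eq_abs]
    exact mul_le_mul_of_nonneg_right h4 (norm_nonneg _)
  · rw [Set.indicator_of_notMem h, sub_zero]
    have h' : ¬rh ξ < (2 : ℝ) ^ k := h
    rw [if_neg h', sub_zero] at h4
    rw [norm_mul, Complex.norm_real, Real.norm_eq_abs]
    exact mul_le_mul_of_nonneg_right h4 (norm_nonneg _)

/-- the maximal inequality for the dyadic parameters -/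
theorem Rz_maj {lam : ℝ} (hl : 1 / 2 < lam) (hl0 : 0 < lam) (f : L2) (K : Finset ℤ)
    (hK : K.Nonempty) :
    Maj K (fun k => Rz lam hl0 ((2 : ℝ) ^ k) f)
      ((160000 + 4 * (max 1 lam) ^ 2) * (1 + Real.log K.card) * ‖f‖ ^ 2) := by
  have hlog : 0 ≤ Real.log K.card := Real.log_nonneg (by exact_mod_cast hK.card_pos)
  have m1 := Hc_maj f K hK
  have m2 : Maj K (fun k => Rz lam hl0 ((2 : ℝ) ^ k) f - Hc k f)
      ((max 1 lam) ^ 2 * (2 * ‖f‖ ^ 2)) := by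
    refine Maj.of_sum ((sum_le_sum fun k _ => Rz_sub_Hc hl hl0 k f).trans ?_)
    rw [← mul_sum]
    exact mul_le_mul_of_nonneg_left (sum_wt f K) (sq_nonneg _)
  refine ((m1.add m2).congr ?_).mono ?_
  · intro k _
    abel
  · have h1 : (0 : ℝ) ≤ ‖f‖ ^ 2 := sq_nonneg _
    have h2 : 0 ≤ Real.log K.card * ((max 1 lam) ^ 2 * ‖f‖ ^ 2) := by positivity
    nlinarith

/-- the family in the logarithmic parameter -/
noncomputable def Ph (lam : ℝ) (hl : 0 < lam) (f : L2) (t : ℝ) : L2 := Rz lam hl ((2 : ℝ) ^ t) f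

theorem Ph_int {lam : ℝ} (hl : 0 < lam) (f : L2) (k : ℤ) :
    Ph lam hl f k = Rz lam hl ((2 : ℝ) ^ k) f := by
  unfold Ph
  rw [Real.rpow_intCast]

theorem Ph_holder {lam : ℝ} (hl : 1 / 2 < lam) (hl0 : 0 < lam) (f : L2) (k : ℤ) (t t' : ℝ)
    (h1 : (k : ℝ) ≤ t) (h2 : t ≤ t') (h3 : t' ≤ k + 1) :
    ‖Ph lam hl0 f t' - Ph lam hl0 f t‖ ^ 2 ≤ (t' - t) ^ (1 + 2 * (min lam 1 - 1 / 2)) *
      ((max 1 lam * 32) ^ 2 * wt f (k + 1)) := by
  have ht : 0 ≤ t' - t := by linarith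
  have e : (t' - t) ^ (1 + 2 * (min lam 1 - 1 / 2)) * ((max 1 lam * 32) ^ 2 * wt f (k + 1)) =
      (max 1 lam * 32 * (t' - t) ^ (min lam 1)) ^ 2 * wt f (k + 1) := by
    have : ((t' - t) ^ (min lam 1)) ^ 2 = (t' - t) ^ (1 + 2 * (min lam 1 - 1 / 2)) := by
      rw [← Real.rpow_natCast, ← Real.rpow_mul ht]
      congr 1
      push_cast
      ring
    rw [← this]; ring
  rw [e]
  refine norm_sq_le_wt (by positivity) ?_
  rw [fourier_sub]
  unfold Ph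
  filter_upwards [Lp.coeFn_sub (𝓕 (Rz lam hl0 ((2 : ℝ) ^ t') f) : L2)
    (𝓕 (Rz lam hl0 ((2 : ℝ) ^ t) f)), Rz_coe hl0 ((2 : ℝ) ^ t') f,
    Rz_coe hl0 ((2 : ℝ) ^ t) f] with ξ a1 a2 a3
  rw [a1, Pi.sub_apply, a2, a3, ← sub_mul, norm_mul]
  refine mul_le_mul_of_nonneg_right ?_ (norm_nonneg _)
  rw [← Complex.ofReal_sub, Complex.norm_real, Real.norm_eq_abs, abs_sub_comm]
  exact symb_holder hl k h1 h2 h3 ξ

/-- the continuous version -/
theorem exists_ver {lam : ℝ} (hl : 1 / 2 < lam) (hl0 : 0 < lam) :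
    ∃ C : ℝ, 0 ≤ C ∧ ∀ f : L2, ∃ v : ℝ → E2 → ℂ, ∃ W : ℤ → E2 → ℝ,
      (∀ t, v t =ᵐ[volume] Ph lam hl0 f t) ∧
      (∀ᵐ x, Continuous fun t => v t x) ∧ (∀ k, Integrable (W k)) ∧ (∀ k x, 0 ≤ W k x) ∧
      (∀ K : Finset ℤ, ∑ k ∈ K, ∫ x, W k x ≤ C * ‖f‖ ^ 2) ∧
      ∀ᵐ x, ∀ (k : ℤ) (t : ℝ), (k : ℝ) ≤ t → t ≤ k + 1 →
        ‖v t x - Ph lam hl0 f k x‖ ^ 2 ≤ W k x := by
  have hδ : 0 < min lam 1 - 1 / 2 := by
    have : 1 / 2 < min lam 1 := lt_min hl (by norm_num)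
    linarith
  refine ⟨(1 / (1 - (1 / 2 : ℝ) ^ (min lam 1 - 1 / 2))) ^ 2 * ((max 1 lam * 32) ^ 2 * 2),
    by positivity, fun f => ?_⟩
  obtain ⟨v, W, h1, h2, h3, h4, h5, h6⟩ := chain (Ph lam hl0 f) hδ
    (b := fun k => (max 1 lam * 32) ^ 2 * wt f (k + 1))
    (fun k => mul_nonneg (sq_nonneg _) (wt_nonneg f _))
    (fun k t t' a b c => Ph_holder hl hl0 f k t t' a b c)
  refine ⟨v, W, h1, h2, h3, h4, fun K => ?_, h6⟩
  refine (sum_le_sum fun k _ => h5 k).trans ?_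
  rw [← mul_sum, ← mul_sum]
  have e : ∑ k ∈ K, wt f (k + 1) ≤ 2 * ‖f‖ ^ 2 := by
    have := sum_wt f (K.image fun k => k + 1)
    rw [sum_image (fun x _ y _ hxy => by
      have h' : x + 1 = y + 1 := hxy
      omega)] at this
    exact this
  calc (1 / (1 - (1 / 2 : ℝ) ^ (min lam 1 - 1 / 2))) ^ 2 *
        ((max 1 lam * 32) ^ 2 * ∑ k ∈ K, wt f (k + 1))
      ≤ (1 / (1 - (1 / 2 : ℝ) ^ (min lam 1 - 1 / 2))) ^ 2 *
        ((max 1 lam * 32) ^ 2 * (2 * ‖f‖ ^ 2)) := by gcongr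
    _ = _ := by ring

/-- The maximal inequality over real parameters. -/
theorem real_max {lam : ℝ} (hl : 1 / 2 < lam) (hl0 : 0 < lam) :
    ∃ C : ℝ, 0 ≤ C ∧ ∀ f : L2, ∃ v : ℝ → E2 → ℂ, (∀ t, v t =ᵐ[volume] Ph lam hl0 f t) ∧
      (∀ᵐ x, Continuous fun t => v t x) ∧
      ∀ K : Finset ℤ, K.Nonempty → ∃ G : E2 → ℝ, Integrable G ∧
        (∀ᵐ x, ∀ k ∈ K, ∀ t : ℝ, (k : ℝ) ≤ t → t ≤ k + 1 → ‖v t x‖ ^ 2 ≤ G x) ∧
        ∫ x, G x ≤ C * (1 + Real.log K.card) * ‖f‖ ^ 2 := by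
  obtain ⟨C, hC, hv⟩ := exists_ver hl hl0
  refine ⟨2 * (160000 + 4 * (max 1 lam) ^ 2) + 2 * C, by positivity, fun f => ?_⟩
  obtain ⟨v, W, h1, h2, h3, h4, h5, h6⟩ := hv f
  refine ⟨v, h1, h2, fun K hK => ?_⟩
  have hlog : 0 ≤ Real.log K.card := Real.log_nonneg (by exact_mod_cast hK.card_pos)
  obtain ⟨G, g1, g2, g3⟩ := Rz_maj hl hl0 f K hK
  refine ⟨fun x => 2 * G x + 2 * ∑ k ∈ K, W k x,
    (g1.const_mul 2).add ((integrable_finsetSum _ fun k _ => h3 k).const_mul 2), ?_, ?_⟩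
  · filter_upwards [g2, h6] with x hx1 hx2 k hk t ht1 ht2
    have a1 := hx1 k hk
    have a2 := hx2 k t ht1 ht2
    rw [Ph_int] at a2
    have a3 : W k x ≤ ∑ k ∈ K, W k x :=
      single_le_sum (f := fun k => W k x) (fun k _ => h4 k x) hk
    have a4 : ‖v t x‖ ≤ ‖v t x - Rz lam hl0 ((2 : ℝ) ^ k) f x‖ +
        ‖Rz lam hl0 ((2 : ℝ) ^ k) f x‖ := by
      have := norm_add_le (v t x - Rz lam hl0 ((2 : ℝ) ^ k) f x) (Rz lam hl0 ((2 : ℝ) ^ k) f x)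
      rwa [sub_add_cancel] at this
    have a5 := norm_nonneg (v t x)
    nlinarith [sq_nonneg (‖v t x - Rz lam hl0 ((2 : ℝ) ^ k) f x‖ -
      ‖Rz lam hl0 ((2 : ℝ) ^ k) f x‖)]
  · rw [integral_add (g1.const_mul 2) ((integrable_finsetSum _ fun k _ => h3 k).const_mul 2),
      integral_const_mul, integral_const_mul, integral_finsetSum _ fun k _ => h3 k]
    have b1 := h5 K
    have b2 : 0 ≤ C * (Real.log K.card * ‖f‖ ^ 2) := by positivity
    nlinarith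

/-! ### Almost everywhere convergence -/

theorem ae_zero_of_summable (X : ℕ → L2) (h : Summable fun n => ‖X n‖ ^ 2) :
    ∀ᵐ x, Tendsto (fun n => X n x) atTop (𝓝 0) := by
  obtain ⟨G, -, -, h3, -⟩ := exists_sum (fun n x => ‖X n x‖ ^ 2) (fun n => integrable_sq _)
    (fun n x => sq_nonneg _) (h.congr fun n => norm_sq_eq (X n))
  filter_upwards [h3] with x hx
  have h4 := hx.summable.tendsto_atTop_zero.sqrt
  simp only [Real.sqrt_zero] at h4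
  rw [tendsto_zero_iff_norm_tendsto_zero]
  refine h4.congr fun n => ?_
  rw [Real.sqrt_sq (norm_nonneg _)]

/-- the weight -/
noncomputable def LL (ρ : ℝ) : ℝ := Real.log (Real.log (Real.exp (Real.exp 1) + ρ))

theorem one_le_LL {ρ : ℝ} (h : 0 ≤ ρ) : 1 ≤ LL ρ := by
  unfold LL
  have h1 : Real.exp 1 ≤ Real.log (Real.exp (Real.exp 1) + ρ) := by
    rw [Real.le_log_iff_exp_le (by positivity)]
    linarith
  rw [Real.le_log_iff_exp_le (lt_of_lt_of_le (Real.exp_pos 1) h1)]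
  exact h1

theorem LL_lower {ρ : ℝ} (j : ℕ) (h : (2 : ℝ) ^ (2 ^ 2 ^ j : ℕ) ≤ ρ) :
    (2 : ℝ) ^ (j + 1) ≤ 4 * LL ρ := by
  have hρ : 0 ≤ ρ := le_trans (by positivity) h
  have h1 := one_le_LL hρ
  rcases Nat.lt_or_ge j 2 with hj | hj
  · have : (2 : ℝ) ^ (j + 1) ≤ 2 ^ 2 := pow_le_pow_right₀ (by norm_num) (by omega)
    linarith
  · have l1 : Real.log ((2 : ℝ) ^ (2 ^ 2 ^ j : ℕ)) = 2 ^ 2 ^ j * Real.log 2 := by
      rw [Real.log_pow]; push_cast; ring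
    have h2 : (2 : ℝ) ^ 2 ^ j * Real.log 2 ≤ Real.log (Real.exp (Real.exp 1) + ρ) := by
      rw [← l1]
      refine Real.log_le_log (by positivity) (h.trans ?_)
      have := Real.exp_pos (Real.exp 1)
      linarith
    have hl2 : 0.693 ≤ Real.log 2 := by
      have := Real.log_two_gt_d9; linarith
    have h3 : Real.log ((2 : ℝ) ^ 2 ^ j * Real.log 2) ≤ LL ρ :=
      Real.log_le_log (by positivity) h2
    rw [Real.log_mul (by positivity) (by positivity), Real.log_pow] at h3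
    push_cast at h3
    have h4 : 1 - (Real.log 2)⁻¹ ≤ Real.log (Real.log 2) :=
      Real.one_sub_inv_le_log_of_pos (by linarith)
    have h5 : (Real.log 2)⁻¹ ≤ 1.45 := by
      rw [inv_le_comm₀ (by linarith) (by norm_num)]
      norm_num
      linarith
    have h6 : (4 : ℝ) ≤ 2 ^ j := by
      have : (2 : ℝ) ^ 2 ≤ 2 ^ j := pow_le_pow_right₀ (by norm_num) hj
      linarith
    rw [pow_succ]
    nlinarith

theorem sum_LL {ρ : ℝ} (hρ : 0 ≤ ρ) (J : ℕ) :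
    ∑ j ∈ range J, (if (2 : ℝ) ^ (2 ^ 2 ^ j : ℕ) ≤ ρ then (2 : ℝ) ^ j else 0) ≤ 4 * LL ρ := by
  induction J with
  | zero =>
    have := one_le_LL hρ
    simp only [range_zero, sum_empty]
    linarith
  | succ J ih =>
    rw [sum_range_succ]
    split_ifs with h
    · have h1 : ∑ j ∈ range J, (if (2 : ℝ) ^ (2 ^ 2 ^ j : ℕ) ≤ ρ then (2 : ℝ) ^ j else 0) ≤
          ∑ j ∈ range J, (2 : ℝ) ^ j := by
        refine sum_le_sum fun j _ => ?_
        split_ifs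
        · exact le_rfl
        · positivity
      have h2 : ∑ j ∈ range J, (2 : ℝ) ^ j = 2 ^ J - 1 := by
        rw [geom_sum_eq (by norm_num)]; ring
      have h3 := LL_lower J h
      rw [pow_succ] at h3
      linarith
    · linarith

/-- the high frequencies -/
noncomputable def hi (f : L2) (j : ℕ) : L2 := f - Hc ((2 ^ 2 ^ j : ℕ) : ℤ) f

theorem hi_norm (f : L2) (j : ℕ) : ‖hi f j‖ ^ 2 =
    ∫ ξ, (if (2 : ℝ) ^ (2 ^ 2 ^ j : ℕ) ≤ rh ξ then ‖(𝓕 f : L2) ξ‖ ^ 2 else 0) := by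
  unfold hi Hc
  rw [Pi_compl, Pi_norm_sq]
  refine integral_congr_ae (Filter.Eventually.of_forall fun ξ => ?_)
  simp only
  by_cases h : (2 : ℝ) ^ (2 ^ 2 ^ j : ℕ) ≤ rh ξ
  · rw [if_pos h, Set.indicator_of_mem]
    rw [Set.mem_compl_iff]
    intro h'
    have h'' : rh ξ < (2 : ℝ) ^ ((2 ^ 2 ^ j : ℕ) : ℤ) := h'
    rw [zpow_natCast] at h''
    exact absurd h (not_le.2 h'')
  · rw [if_neg h, Set.indicator_of_notMem]
    rw [Set.mem_compl_iff, not_not]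
    change rh ξ < (2 : ℝ) ^ ((2 ^ 2 ^ j : ℕ) : ℤ)
    rw [zpow_natCast]
    exact not_le.1 h

theorem hi_summable (f : L2) (hf : Integrable fun ξ => LL (rh ξ) * ‖(𝓕 f : L2) ξ‖ ^ 2) :
    Summable fun j : ℕ => (2 : ℝ) ^ j * ‖hi f j‖ ^ 2 := by
  refine summable_of_sum_range_le (c := ∫ ξ, 4 * (LL (rh ξ) * ‖(𝓕 f : L2) ξ‖ ^ 2))
    (fun j => by positivity) fun J => ?_
  have hm : ∀ j : ℕ, Integrable fun ξ : E2 =>
      (if (2 : ℝ) ^ (2 ^ 2 ^ j : ℕ) ≤ rh ξ then ‖(𝓕 f : L2) ξ‖ ^ 2 else 0) := by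
    intro j
    have h := (integrable_sq (𝓕 f : L2)).indicator
      (s := {ξ : E2 | (2 : ℝ) ^ (2 ^ 2 ^ j : ℕ) ≤ rh ξ})
      (measurableSet_le measurable_const measurable_rh)
    refine h.congr (Filter.Eventually.of_forall fun ξ => ?_)
    simp only [Set.indicator_apply, Set.mem_ofPred_eq]
  have e : ∀ j ∈ range J, (2 : ℝ) ^ j * ‖hi f j‖ ^ 2 = ∫ ξ, (2 : ℝ) ^ j *
      (if (2 : ℝ) ^ (2 ^ 2 ^ j : ℕ) ≤ rh ξ then ‖(𝓕 f : L2) ξ‖ ^ 2 else 0) := by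
    intro j _
    rw [hi_norm, integral_const_mul]
  rw [sum_congr rfl e, ← integral_finsetSum _ fun j _ => (hm j).const_mul _]
  refine integral_mono (integrable_finsetSum _ fun j _ => (hm j).const_mul _) (hf.const_mul 4)
    fun ξ => ?_
  simp only
  have h1 := sum_LL (rh_nonneg ξ) J
  have h2 : ∑ j ∈ range J, (2 : ℝ) ^ j *
      (if (2 : ℝ) ^ (2 ^ 2 ^ j : ℕ) ≤ rh ξ then ‖(𝓕 f : L2) ξ‖ ^ 2 else 0) =
      (∑ j ∈ range J, (if (2 : ℝ) ^ (2 ^ 2 ^ j : ℕ) ≤ rh ξ then (2 : ℝ) ^ j else 0)) *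
        ‖(𝓕 f : L2) ξ‖ ^ 2 := by
    rw [sum_mul]
    refine sum_congr rfl fun j _ => ?_
    split_ifs <;> ring
  rw [h2]
  have h3 : 0 ≤ ‖(𝓕 f : L2) ξ‖ ^ 2 := sq_nonneg _
  nlinarith [mul_le_mul_of_nonneg_right h1 h3]

/-- the block of levels -/
noncomputable def blk (j : ℕ) : Finset ℤ := Ico ((2 ^ 2 ^ (j + 1) : ℕ) : ℤ) ((2 ^ 2 ^ (j + 2) : ℕ) : ℤ)

theorem nn_mono {i j : ℕ} (h : i ≤ j) : (2 ^ 2 ^ i : ℕ) ≤ 2 ^ 2 ^ j :=
  Nat.pow_le_pow_right (by norm_num) (Nat.pow_le_pow_right (by norm_num) h)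

theorem blk_nonempty (j : ℕ) : (blk j).Nonempty := by
  refine ⟨((2 ^ 2 ^ (j + 1) : ℕ) : ℤ), ?_⟩
  unfold blk
  rw [mem_Ico]
  refine ⟨le_rfl, ?_⟩
  have : (2 ^ 2 ^ (j + 1) : ℕ) < 2 ^ 2 ^ (j + 2) :=
    Nat.pow_lt_pow_right (by norm_num) (Nat.pow_lt_pow_right (by norm_num) (by omega))
  exact_mod_cast this

theorem log_blk (j : ℕ) : 1 + Real.log (blk j).card ≤ 5 * 2 ^ j := by
  have h1 : ((blk j).card : ℝ) ≤ 2 ^ 2 ^ (j + 2) := by
    unfold blk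
    rw [Int.card_Ico]
    have : ∀ a b : ℕ, ((a : ℤ) - (b : ℤ)).toNat ≤ a := fun a b => by omega
    exact_mod_cast this (2 ^ 2 ^ (j + 2)) (2 ^ 2 ^ (j + 1))
  have h0 : (0 : ℝ) < (blk j).card := by exact_mod_cast (blk_nonempty j).card_pos
  have h2 := Real.log_le_log h0 h1
  rw [Real.log_pow] at h2
  push_cast at h2
  have h3 : Real.log 2 ≤ 1 := by have := Real.log_two_lt_d9; linarith
  have h4 : (1 : ℝ) ≤ 2 ^ j := one_le_pow₀ (by norm_num)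
  have h5 : (2 : ℝ) ^ (j + 2) = 4 * 2 ^ j := by rw [pow_add]; ring
  rw [h5] at h2
  nlinarith

theorem Hc_of_le {m n : ℤ} (h : m ≤ n) (f : L2) : Hc n (Hc m f) = Hc m f := by
  unfold Hc
  rw [Pi_comm]
  refine Pi_of_subset _ _ ?_ f
  intro ξ hξ
  exact lt_of_lt_of_le (show |ξ 0 * ξ 1| < (2 : ℝ) ^ m from hξ)
    (zpow_le_zpow_right₀ (by norm_num) h)

/-- Almost everywhere convergence of the sharp cut-offs. -/
theorem Hc_ae (f : L2) (hf : Integrable fun ξ => LL (rh ξ) * ‖(𝓕 f : L2) ξ‖ ^ 2) :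
    ∀ᵐ x, Tendsto (fun k : ℕ => Hc k f x) atTop (𝓝 (f x)) := by
  have hs := hi_summable f hf
  choose G g1 g2 g3 using fun j => Hc_maj (hi f j) (blk j) (blk_nonempty j)
  -- summability of the majorants
  have hGi : ∀ j, ∫ x, max (G j x) 0 ≤ 400000 * (2 ^ j * ‖hi f j‖ ^ 2) := by
    intro j
    have h1 : ∫ x, max (G j x) 0 = ∫ x, G j x := by
      refine integral_congr_ae ?_
      filter_upwards [g2 j] with x hx
      obtain ⟨k, hk⟩ := blk_nonempty j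
      exact max_eq_left ((sq_nonneg _).trans (hx k hk))
    rw [h1]
    refine (g3 j).trans ?_
    have h2 := log_blk j
    have h3 : (0 : ℝ) ≤ ‖hi f j‖ ^ 2 := sq_nonneg _
    nlinarith [mul_le_mul_of_nonneg_right h2 h3]
  have hGint : ∀ j, Integrable fun x => max (G j x) 0 := fun j => (g1 j).pos_part
  obtain ⟨S, -, -, s3, -⟩ := exists_sum (fun j x => max (G j x) 0) hGint
    (fun j x => le_max_right _ _) (Summable.of_nonneg_of_le
      (fun j => integral_nonneg fun x => le_max_right _ _) hGi (hs.mul_left 400000))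
  have hhi : Summable fun j => ‖hi f j‖ ^ 2 := by
    refine Summable.of_nonneg_of_le (fun j => sq_nonneg _) (fun j => ?_) hs
    have h4 : (1 : ℝ) ≤ 2 ^ j := one_le_pow₀ (by norm_num)
    have h3 : (0 : ℝ) ≤ ‖hi f j‖ ^ 2 := sq_nonneg _
    nlinarith
  have hz := ae_zero_of_summable (hi f) hhi
  have hid : ∀ᵐ x, ∀ j : ℕ, ∀ k ∈ blk j, Hc k f x - f x = Hc k (hi f j) x - hi f j x := by
    refine ae_of_countable fun j => ?_
    rw [Finset.eventually_all]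
    intro k hk
    unfold blk at hk
    rw [mem_Ico] at hk
    have e : Hc k f - f = Hc k (hi f j) - hi f j := by
      unfold hi
      have h1 := nn_mono (show j ≤ j + 1 by omega)
      have h2 : ((2 ^ 2 ^ j : ℕ) : ℤ) ≤ k := le_trans (by exact_mod_cast h1) hk.1
      rw [map_sub, Hc_of_le h2]
      abel
    filter_upwards [Lp.coeFn_sub (Hc k f) f, Lp.coeFn_sub (Hc k (hi f j)) (hi f j)] with x a1 a2
    rw [e] at a1
    rw [a2] at a1
    exact a1.symm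
  filter_upwards [s3, hz, hid, ae_of_countable g2] with x x1 x2 x3 x4
  have t1 := x1.summable.tendsto_atTop_zero.sqrt
  simp only [Real.sqrt_zero] at t1
  have t2 := t1.add x2.norm
  rw [norm_zero, add_zero] at t2
  rw [Metric.tendsto_atTop]
  intro ε hε
  obtain ⟨J, hJ⟩ := (Metric.tendsto_atTop.1 t2) ε hε
  refine ⟨2 ^ 2 ^ (J + 1), fun k hk => ?_⟩
  obtain ⟨j, hj, hkj⟩ : ∃ j, J ≤ j ∧ (k : ℤ) ∈ blk j := by
    have hex : ∃ m, J ≤ m ∧ k < 2 ^ 2 ^ (m + 2) := by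
      refine ⟨J + k, by omega, ?_⟩
      have a1 : k < 2 ^ k := Nat.lt_two_pow_self
      have a2 : J + k + 2 < 2 ^ (J + k + 2) := Nat.lt_two_pow_self
      have a3 : 2 ^ k ≤ 2 ^ 2 ^ (J + k + 2) := Nat.pow_le_pow_right (by norm_num) (by omega)
      omega
    classical
    obtain ⟨m1, m2⟩ := Nat.find_spec hex
    refine ⟨Nat.find hex, m1, ?_⟩
    unfold blk
    rw [mem_Ico]
    refine ⟨?_, by exact_mod_cast m2⟩
    rcases eq_or_lt_of_le m1 with h | h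
    · rw [← h]; exact_mod_cast hk
    · have h5 := Nat.find_min hex (show Nat.find hex - 1 < Nat.find hex by omega)
      have h6 : ¬k < 2 ^ 2 ^ (Nat.find hex - 1 + 2) := fun h7 => h5 ⟨by omega, h7⟩
      rw [show Nat.find hex - 1 + 2 = Nat.find hex + 1 by omega] at h6
      exact_mod_cast not_lt.1 h6
  have h7 := hJ j hj
  rw [Real.dist_eq, sub_zero, abs_of_nonneg (by positivity)] at h7
  rw [dist_eq_norm, x3 j k hkj]
  refine lt_of_le_of_lt (norm_sub_le _ _) (lt_of_le_of_lt ?_ h7)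
  gcongr
  refine Real.le_sqrt_of_sq_le ?_
  exact (x4 j k hkj).trans (le_max_left _ _)

/-- Almost everywhere convergence of the hyperbolic Riesz means. -/
theorem Rz_ae {lam : ℝ} (hl : 1 / 2 < lam) (hl0 : 0 < lam) (f : L2)
    (hf : Integrable fun ξ => LL (rh ξ) * ‖(𝓕 f : L2) ξ‖ ^ 2) :
    ∃ v : ℝ → E2 → ℂ, (∀ t, v t =ᵐ[volume] Ph lam hl0 f t) ∧
      (∀ᵐ x, Continuous fun t => v t x) ∧
      ∀ᵐ x, Tendsto (fun t => v t x) atTop (𝓝 (f x)) := by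
  obtain ⟨C, hC, hv⟩ := exists_ver hl hl0
  obtain ⟨v, W, h1, h2, h3, h4, h5, h6⟩ := hv f
  refine ⟨v, h1, h2, ?_⟩
  have i0 := Hc_ae f hf
  have i1 : ∀ᵐ x, Tendsto (fun k : ℕ => (Rz lam hl0 ((2 : ℝ) ^ (k : ℤ)) f - Hc k f : L2) x) atTop
      (𝓝 0) := by
    refine ae_zero_of_summable (fun k : ℕ => Rz lam hl0 ((2 : ℝ) ^ (k : ℤ)) f - Hc k f) ?_
    refine summable_of_sum_range_le (c := (max 1 lam) ^ 2 * (2 * ‖f‖ ^ 2))
      (fun n => sq_nonneg _) fun n => ?_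
    refine (sum_le_sum fun (k : ℕ) _ => Rz_sub_Hc hl hl0 (k : ℤ) f).trans ?_
    rw [← mul_sum]
    refine mul_le_mul_of_nonneg_left ?_ (sq_nonneg _)
    have := sum_wt f ((range n).image fun k : ℕ => (k : ℤ))
    rw [sum_image (fun x _ y _ hxy => by
      have h' : (x : ℤ) = y := hxy
      omega)] at this
    exact this
  have i2 : ∀ᵐ x, Tendsto (fun k : ℕ => W k x) atTop (𝓝 0) := by
    obtain ⟨G, -, -, h7, -⟩ := exists_sum (fun (n : ℕ) x => W n x) (fun n => h3 n)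
      (fun n x => h4 n x) (summable_of_sum_range_le (c := C * ‖f‖ ^ 2)
        (fun n => integral_nonneg fun x => h4 n x) fun n => by
          have := h5 ((range n).image fun k : ℕ => (k : ℤ))
          rw [sum_image (fun x _ y _ hxy => by
            have h' : (x : ℤ) = y := hxy
            omega)] at this
          exact this)
    filter_upwards [h7] with x hx
    exact hx.summable.tendsto_atTop_zero
  have i3 : ∀ᵐ x, ∀ k : ℕ, (Rz lam hl0 ((2 : ℝ) ^ (k : ℤ)) f - Hc k f : L2) x =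
      Rz lam hl0 ((2 : ℝ) ^ (k : ℤ)) f x - Hc k f x := by
    refine ae_of_countable fun k => ?_
    filter_upwards [Lp.coeFn_sub (Rz lam hl0 ((2 : ℝ) ^ (k : ℤ)) f) (Hc k f)] with x hx
    rw [hx, Pi.sub_apply]
  filter_upwards [i0, i1, i2, i3, h6] with x y0 y1 y2 y3 y6
  have z1 : Tendsto (fun k : ℕ => Rz lam hl0 ((2 : ℝ) ^ (k : ℤ)) f x) atTop (𝓝 (f x)) := by
    have := y1.add y0
    rw [zero_add] at this
    refine this.congr fun k => ?_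
    rw [y3 k]; ring
  have z2 := y2.sqrt
  simp only [Real.sqrt_zero] at z2
  have z3 := (z1.sub_const (f x)).norm.add z2
  rw [sub_self, norm_zero, add_zero] at z3
  rw [Metric.tendsto_atTop]
  intro ε hε
  obtain ⟨N, hN⟩ := (Metric.tendsto_atTop.1 z3) ε hε
  refine ⟨N, fun t ht => ?_⟩
  have ht0 : (0 : ℝ) ≤ t := le_trans (Nat.cast_nonneg N) ht
  set k := ⌊t⌋₊ with hk
  have k1 : (k : ℝ) ≤ t := Nat.floor_le ht0
  have k2 : t < k + 1 := Nat.lt_floor_add_one t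
  have k3 : N ≤ k := Nat.le_floor ht
  have h7 := hN k k3
  rw [Real.dist_eq, sub_zero, abs_of_nonneg (by positivity)] at h7
  have h8 := y6 k t (by exact_mod_cast k1) (by push_cast; exact k2.le)
  rw [Ph_int] at h8
  have h9 : ‖v t x - Rz lam hl0 ((2 : ℝ) ^ (k : ℤ)) f x‖ ≤ Real.sqrt (W k x) :=
    Real.le_sqrt_of_sq_le h8
  rw [dist_eq_norm]
  have e : v t x - f x = (v t x - Rz lam hl0 ((2 : ℝ) ^ (k : ℤ)) f x) +
      (Rz lam hl0 ((2 : ℝ) ^ (k : ℤ)) f x - f x) := by ring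
  rw [e]
  refine lt_of_le_of_lt (norm_add_le _ _) ?_
  linarith

end Pool.Agent.H73.Hyp
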