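import Pool.Agent.H73.Hyp.Fourier

/-! The flips of the dyadic digits. -/

namespace Pool.Agent.H73.Hyp

open MeasureTheory

/-- half the length of the dyadic intervals of level `l` -/
noncomputable def dl (l : ℤ) : ℝ := (2 : ℝ) ^ (-(l + 1))

theorem dl_pos (l : ℤ) : 0 < dl l := by unfold dl; positivity

theorem zpow_mul_dl (l : ℤ) : (2 : ℝ) ^ (l + 1) * dl l = 1 := by
  unfold dl
  rw [← zpow_add₀ two_ne_zero]
  simp

theorem dl_eq (l : ℤ) (n : ℕ) : dl (l - n) = ((2 ^ n : ℕ) : ℤ) * dl l := by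
  unfold dl
  push_cast
  rw [← zpow_natCast, ← zpow_add₀ two_ne_zero]
  congr 1; ring

/-- the integer part at scale `l` -/
noncomputable def dg (l : ℤ) (t : ℝ) : ℤ := ⌊(2 : ℝ) ^ (l + 1) * t⌋

theorem dg_add (l : ℤ) (t : ℝ) (m : ℤ) : dg l (t + m * dl l) = dg l t + m := by
  unfold dg
  rw [mul_add, show (2 : ℝ) ^ (l + 1) * (m * dl l) = m by
    rw [mul_left_comm, zpow_mul_dl, mul_one], Int.floor_add_intCast]

/-- the flip of the digit, as a displacement -/
noncomputable def sg (l : ℤ) (t : ℝ) : ℝ := if Even (dg l t) then dl l else -dl l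

theorem sg_even {l : ℤ} {t : ℝ} (h : Even (dg l t)) : sg l t = dl l := if_pos h

theorem sg_odd {l : ℤ} {t : ℝ} (h : ¬Even (dg l t)) : sg l t = -dl l := if_neg h

theorem sg_add (l : ℤ) (t : ℝ) (m : ℤ) : sg l (t + (2 * m : ℤ) * dl l) = sg l t := by
  unfold sg
  rw [dg_add]
  congr 1
  rw [Int.even_add]
  simp

theorem dg_coarse (l : ℤ) (n : ℕ) (t : ℝ) : dg (l - n) t = dg l t / (2 ^ n : ℕ) := by
  unfold dg
  rw [← Int.floor_div_natCast]
  congr 1
  push_cast
  have h : (2 : ℝ) ^ (l + 1) = (2 : ℝ) ^ (l - n + 1) * 2 ^ n := by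
    rw [← zpow_natCast (2 : ℝ) n, ← zpow_add₀ two_ne_zero]
    congr 1; ring
  rw [h]
  field_simp

theorem dg_flip (l : ℤ) (t : ℝ) :
    (Even (dg l t) ∧ dg l (t + sg l t) = dg l t + 1) ∨
    (¬Even (dg l t) ∧ dg l (t + sg l t) = dg l t + -1) := by
  by_cases h : Even (dg l t)
  · left
    refine ⟨h, ?_⟩
    have := dg_add l t 1
    rw [Int.cast_one, one_mul] at this
    rw [sg_even h, this]
  · right
    refine ⟨h, ?_⟩
    have := dg_add l t (-1)
    rw [Int.cast_neg, Int.cast_one, neg_one_mul] at this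
    rw [sg_odd h, this]

theorem sg_flip (l : ℤ) (t : ℝ) : sg l (t + sg l t) = -sg l t := by
  rcases dg_flip l t with ⟨h1, h2⟩ | ⟨h1, h2⟩
  · have h3 : ¬Even (dg l (t + sg l t)) := by
      rw [h2, Int.even_add]; simp [h1]
    rw [sg_odd h3, sg_even h1]
  · have h3 : Even (dg l (t + sg l t)) := by
      rw [h2, Int.even_add]
      simp [h1]
    rw [sg_even h3, sg_odd h1, neg_neg]

/-- a finer flip does not change a coarser digit -/
theorem sg_coarse {m l : ℤ} (h : m < l) (t : ℝ) : sg m (t + sg l t) = sg m t := by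
  have key : dg m (t + sg l t) = dg m t := by
    obtain ⟨n, hn⟩ : ∃ n : ℕ, m = l - ((n + 1 : ℕ) : ℤ) := ⟨(l - m - 1).toNat, by omega⟩
    rw [hn, dg_coarse, dg_coarse]
    have h2 : ((2 ^ (n + 1) : ℕ) : ℤ) = 2 * (2 ^ n : ℕ) := by push_cast; ring
    rw [h2, ← Int.ediv_ediv_of_nonneg (by norm_num), ← Int.ediv_ediv_of_nonneg (by norm_num)]
    congr 1
    rcases dg_flip l t with ⟨h1, h2⟩ | ⟨h1, h2⟩
    · obtain ⟨k, hk⟩ := h1
      omega
    · rw [Int.not_even_iff_odd] at h1
      obtain ⟨k, hk⟩ := h1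
      omega
  change (if Even (dg m (t + sg l t)) then dl m else -dl m) = if Even (dg m t) then dl m else -dl m
  rw [key]

/-- a coarser flip does not change a finer digit -/
theorem sg_fine {m l : ℤ} (h : m < l) (t : ℝ) : sg l (t + sg m t) = sg l t := by
  obtain ⟨n, hn⟩ : ∃ n : ℕ, m = l - ((n + 1 : ℕ) : ℤ) := ⟨(l - m - 1).toNat, by omega⟩
  have e : dl m = ((2 * 2 ^ n : ℤ) : ℝ) * dl l := by
    rw [hn, dl_eq]
    push_cast
    ring
  by_cases h1 : Even (dg m t)
  · rw [sg_even h1, e]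
    exact sg_add l t (2 ^ n)
  · rw [sg_odd h1, e]
    have := sg_add l t (-2 ^ n)
    push_cast at this ⊢
    rw [← this]
    congr 1
    ring

theorem measurableSet_even (l : ℤ) : MeasurableSet {t : ℝ | Even (dg l t)} := by
  have h : Measurable fun t : ℝ => dg l t := by
    unfold dg
    exact Int.measurable_floor.comp (measurable_const.mul measurable_id)
  exact h (MeasurableSet.of_discrete (s := {n : ℤ | Even n}))

theorem measurable_sg (l : ℤ) : Measurable (sg l) :=
  Measurable.ite (measurableSet_even l) measurable_const measurable_const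

/-! ### The plane -/

/-- the basis vectors -/
noncomputable def ee (c : Fin 2) : E2 := EuclideanSpace.single c (1 : ℝ)

theorem ee_same (c : Fin 2) : ee c c = 1 := by simp [ee]

theorem ee_ne {c c' : Fin 2} (h : c' ≠ c) : ee c c' = 0 := by simp [ee, h]

/-- the flip of a digit of the coordinate `c` -/
noncomputable def fl (c : Fin 2) (l : ℤ) (x : E2) : E2 := x + sg l (x c) • ee c

theorem fl_same (c : Fin 2) (l : ℤ) (x : E2) : fl c l x c = x c + sg l (x c) := by
  simp [fl, ee_same]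

theorem fl_ne {c c' : Fin 2} (h : c' ≠ c) (l : ℤ) (x : E2) : fl c l x c' = x c' := by
  simp [fl, ee_ne h]

theorem add_same (c : Fin 2) (t : ℝ) (x : E2) : (x + t • ee c) c = x c + t := by
  simp [ee_same]

theorem add_ne {c c' : Fin 2} (h : c' ≠ c) (t : ℝ) (x : E2) : (x + t • ee c) c' = x c' := by
  simp [ee_ne h]

theorem fl_fl (c : Fin 2) (l : ℤ) (x : E2) : fl c l (fl c l x) = x := by
  have h : fl c l (fl c l x) = fl c l x + sg l (fl c l x c) • ee c := rfl
  rw [h, fl_same, sg_flip]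
  unfold fl
  rw [neg_smul]
  abel

theorem fl_comm_same (c : Fin 2) {l m : ℤ} (h : m < l) (x : E2) :
    fl c l (fl c m x) = fl c m (fl c l x) := by
  have h1 : fl c l (fl c m x) = fl c m x + sg l (fl c m x c) • ee c := rfl
  have h2 : fl c m (fl c l x) = fl c l x + sg m (fl c l x c) • ee c := rfl
  rw [h1, h2, fl_same, fl_same, sg_fine h, sg_coarse h]
  unfold fl
  abel

theorem fl_comm_ne {c c' : Fin 2} (h : c ≠ c') (l m : ℤ) (x : E2) :
    fl c l (fl c' m x) = fl c' m (fl c l x) := by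
  have h1 : fl c l (fl c' m x) = fl c' m x + sg l (fl c' m x c) • ee c := rfl
  have h2 : fl c' m (fl c l x) = fl c l x + sg m (fl c l x c') • ee c' := rfl
  rw [h1, h2, fl_ne h, fl_ne h.symm]
  unfold fl
  abel

theorem fl_comm (c c' : Fin 2) (l m : ℤ) (x : E2) :
    fl c l (fl c' m x) = fl c' m (fl c l x) := by
  by_cases h : c = c'
  · subst h
    rcases lt_trichotomy m l with h | h | h
    · exact fl_comm_same c h x
    · rw [h]
    · exact (fl_comm_same c h x).symm
  · exact fl_comm_ne h l m x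

theorem fl_translate_ne {c c' : Fin 2} (h : c ≠ c') (l : ℤ) (t : ℝ) (x : E2) :
    fl c l (x + t • ee c') = fl c l x + t • ee c' := by
  have h1 : fl c l (x + t • ee c') = (x + t • ee c') + sg l ((x + t • ee c') c) • ee c := rfl
  rw [h1, add_ne h]
  unfold fl
  abel

theorem fl_translate_same (c : Fin 2) (l : ℤ) (x : E2) :
    fl c l (x + (2 * dl l) • ee c) = fl c l x + (2 * dl l) • ee c := by
  have h1 : fl c l (x + (2 * dl l) • ee c) =
    (x + (2 * dl l) • ee c) + sg l ((x + (2 * dl l) • ee c) c) • ee c := rfl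
  have h2 := sg_add l (x c) 1
  rw [h1, add_same]
  push_cast at h2
  rw [h2]
  unfold fl
  abel

theorem measurable_coord (c : Fin 2) : Measurable fun x : E2 => x c :=
  (EuclideanSpace.proj (𝕜 := ℝ) c).continuous.measurable

theorem measurable_fl (c : Fin 2) (l : ℤ) : Measurable (fl c l) := by
  unfold fl
  exact measurable_id.add (((measurable_sg l).comp (measurable_coord c)).smul_const (ee c))

theorem mp_fl (c : Fin 2) (l : ℤ) :
    MeasurePreserving (fl c l) (volume : Measure E2) volume := by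
  refine ⟨measurable_fl c l, ?_⟩
  ext A hA
  rw [Measure.map_apply (measurable_fl c l) hA]
  set S : Set E2 := {x | Even (dg l (x c))} with hS
  have hSm : MeasurableSet S := (measurable_coord c) (measurableSet_even l)
  set h : E2 := dl l • ee c with hh
  have hs1 : ∀ x, x + h ∈ S ↔ x ∉ S := by
    intro x
    simp only [hS, Set.mem_ofPred_eq]
    rw [hh, add_same]
    have := dg_add l (x c) 1
    rw [Int.cast_one, one_mul] at this
    rw [this, Int.even_add]
    simp
  have hs2 : ∀ x, x + -h ∈ S ↔ x ∉ S := by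
    intro x
    have := hs1 (x + -h)
    rw [neg_add_cancel_right] at this
    tauto
  have e1 : fl c l ⁻¹' A ∩ S = (fun x => x + h) ⁻¹' (A \ S) := by
    ext x
    simp only [Set.mem_inter_iff, Set.mem_preimage, Set.mem_sdiff, hs1, not_not]
    refine and_congr_left fun hx => ?_
    have : fl c l x = x + h := by
      unfold fl
      rw [sg_even hx]
    rw [this]
  have e2 : fl c l ⁻¹' A \ S = (fun x => x + -h) ⁻¹' (A ∩ S) := by
    ext x
    simp only [Set.mem_inter_iff, Set.mem_preimage, Set.mem_sdiff, hs2]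
    refine and_congr_left fun hx => ?_
    have : fl c l x = x + -h := by
      unfold fl
      rw [sg_odd hx, neg_smul]
    rw [this]
  rw [← measure_inter_add_sdiff (fl c l ⁻¹' A) hSm, e1, e2, measure_preimage_add_right,
    measure_preimage_add_right, add_comm, measure_inter_add_sdiff A hSm]

/-- the flip operator -/
noncomputable def Uf (c : Fin 2) (l : ℤ) : L2 →ₗᵢ[ℂ] L2 :=
  Lp.compMeasurePreservingₗᵢ ℂ (fl c l) (mp_fl c l)

theorem Uf_coe (c : Fin 2) (l : ℤ) (f : L2) : Uf c l f =ᵐ[volume] fun x => f (fl c l x) :=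
  Lp.coeFn_compMeasurePreserving f (mp_fl c l)

theorem ae_comp_fl (c : Fin 2) (l : ℤ) {f g : E2 → ℂ} (h : f =ᵐ[volume] g) :
    (fun x => f (fl c l x)) =ᵐ[volume] fun x => g (fl c l x) :=
  (mp_fl c l).quasiMeasurePreserving.ae h

theorem ae_comp_add (h : E2) {f g : E2 → ℂ} (hfg : f =ᵐ[volume] g) :
    (fun x => f (x + h)) =ᵐ[volume] fun x => g (x + h) :=
  (measurePreserving_add_right (volume : Measure E2) h).quasiMeasurePreserving.ae hfg

theorem Uf_Uf (c : Fin 2) (l : ℤ) (f : L2) : Uf c l (Uf c l f) = f := by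
  ext1
  filter_upwards [Uf_coe c l (Uf c l f), ae_comp_fl c l (Uf_coe c l f)] with x h1 h2
  rw [h1, h2, fl_fl]

theorem Uf_comm (c c' : Fin 2) (l m : ℤ) (f : L2) :
    Uf c l (Uf c' m f) = Uf c' m (Uf c l f) := by
  ext1
  filter_upwards [Uf_coe c l (Uf c' m f), ae_comp_fl c l (Uf_coe c' m f),
    Uf_coe c' m (Uf c l f), ae_comp_fl c' m (Uf_coe c l f)] with x h1 h2 h3 h4
  rw [h1, h2, h3, h4, fl_comm]



end Pool.Agent.H73.Hyp
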