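import Mathlib

/-! Fourier multipliers and translations on `L²(ℝ²)`. -/

namespace Pool.Agent.H73.Hyp

open MeasureTheory FourierTransform SchwartzMap
open scoped ENNReal ComplexInnerProductSpace

/-- the plane -/
abbrev E2 := EuclideanSpace ℝ (Fin 2)

/-- `L²(ℝ²)` -/
noncomputable abbrev L2 := Lp (α := E2) ℂ 2

theorem memLp2 (f : L2) : MemLp f 2 volume := Lp.memLp f

theorem integrable_sq (f : L2) : Integrable (fun x => ‖f x‖ ^ 2) := by
  have h := (memLp2 f).integrable_norm_pow (by norm_num : (2 : ℕ) ≠ 0)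
  exact h

theorem norm_sq_eq (f : L2) : ‖f‖ ^ 2 = ∫ x, ‖f x‖ ^ 2 := by
  have h1 : inner ℂ f f = ∫ x, inner ℂ (f x) (f x) := MeasureTheory.L2.inner_def f f
  have h2 : inner ℂ f f = ((‖f‖ ^ 2 : ℝ) : ℂ) := by
    rw [inner_self_eq_norm_sq_to_K]; norm_cast
  have h3 : ∫ x, inner ℂ (f x) (f x) = ∫ x, ((‖f x‖ ^ 2 : ℝ) : ℂ) := by
    refine integral_congr_ae (Filter.Eventually.of_forall fun x => ?_)
    simp only
    rw [inner_self_eq_norm_sq_to_K]; norm_cast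
  rw [h2, h3, integral_complex_ofReal] at h1
  exact_mod_cast h1

/-! ### Multiplication operators -/

section mul

variable {ψ : E2 → ℂ} {B : ℝ}

theorem memLp_mul (hψ : Measurable ψ) (hB : ∀ x, ‖ψ x‖ ≤ B) (f : L2) :
    MemLp (fun x => ψ x * f x) 2 volume := by
  refine MemLp.of_le_mul (c := B) (memLp2 f)
    (hψ.aestronglyMeasurable.mul (memLp2 f).aestronglyMeasurable) ?_
  filter_upwards with x
  rw [norm_mul]
  exact mul_le_mul_of_nonneg_right (hB x) (norm_nonneg _)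

/-- multiplication by a bounded measurable function -/
noncomputable def mulOp (ψ : E2 → ℂ) (hψ : Measurable ψ) (B : ℝ) (hB : ∀ x, ‖ψ x‖ ≤ B) :
    L2 →L[ℂ] L2 :=
  LinearMap.mkContinuous
    { toFun := fun f => (memLp_mul hψ hB f).toLp
      map_add' := by
        intro f g
        ext1
        have hf := (memLp_mul hψ hB f).coeFn_toLp
        have hg := (memLp_mul hψ hB g).coeFn_toLp
        have hfg := (memLp_mul hψ hB (f + g)).coeFn_toLp
        filter_upwards [hf, hg, hfg, Lp.coeFn_add f g,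
          Lp.coeFn_add ((memLp_mul hψ hB f).toLp) ((memLp_mul hψ hB g).toLp)] with x h1 h2 h3 h4 h5
        rw [h3, h5, Pi.add_apply, h1, h2, h4, Pi.add_apply]
        ring
      map_smul' := by
        intro c f
        ext1
        have hf := (memLp_mul hψ hB f).coeFn_toLp
        have hcf := (memLp_mul hψ hB (c • f)).coeFn_toLp
        filter_upwards [hf, hcf, Lp.coeFn_smul c f,
          Lp.coeFn_smul c ((memLp_mul hψ hB f).toLp)] with x h1 h2 h3 h4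
        rw [h2, RingHom.id_apply, h4, Pi.smul_apply, h1, h3, Pi.smul_apply]
        simp only [smul_eq_mul]
        ring }
    B
    (by
      intro f
      have hB0 : 0 ≤ B := (norm_nonneg _).trans (hB 0)
      change ‖(memLp_mul hψ hB f).toLp‖ ≤ B * ‖f‖
      refine Lp.norm_le_mul_norm_of_ae_le_mul ?_
      filter_upwards [(memLp_mul hψ hB f).coeFn_toLp] with x hx
      rw [hx, norm_mul]
      exact mul_le_mul_of_nonneg_right (hB x) (norm_nonneg _))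

theorem mulOp_coe (hψ : Measurable ψ) (hB : ∀ x, ‖ψ x‖ ≤ B) (f : L2) :
    mulOp ψ hψ B hB f =ᵐ[volume] fun x => ψ x * f x := (memLp_mul hψ hB f).coeFn_toLp

theorem mulOp_norm_sq (hψ : Measurable ψ) (hB : ∀ x, ‖ψ x‖ ≤ B) (f : L2) :
    ‖mulOp ψ hψ B hB f‖ ^ 2 = ∫ x, ‖ψ x‖ ^ 2 * ‖f x‖ ^ 2 := by
  rw [norm_sq_eq]
  refine integral_congr_ae ?_
  filter_upwards [mulOp_coe hψ hB f] with x hx
  rw [hx, norm_mul, mul_pow]

/-- The Fourier multiplier operator of a bounded measurable function. -/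
noncomputable def Tm (ψ : E2 → ℂ) (hψ : Measurable ψ) (B : ℝ) (hB : ∀ x, ‖ψ x‖ ≤ B) :
    L2 →L[ℂ] L2 :=
  ((Lp.fourierTransformₗᵢ E2 ℂ).symm.toContinuousLinearEquiv : L2 →L[ℂ] L2) ∘L
    mulOp ψ hψ B hB ∘L ((Lp.fourierTransformₗᵢ E2 ℂ).toContinuousLinearEquiv : L2 →L[ℂ] L2)

theorem Tm_apply (hψ : Measurable ψ) (hB : ∀ x, ‖ψ x‖ ≤ B) (f : L2) :
    Tm ψ hψ B hB f = 𝓕⁻ (mulOp ψ hψ B hB (𝓕 f)) := rfl

theorem fourier_Tm (hψ : Measurable ψ) (hB : ∀ x, ‖ψ x‖ ≤ B) (f : L2) :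
    𝓕 (Tm ψ hψ B hB f) = mulOp ψ hψ B hB (𝓕 f) := by
  rw [Tm_apply, fourier_fourierInv_eq]

theorem fourier_Tm_coe (hψ : Measurable ψ) (hB : ∀ x, ‖ψ x‖ ≤ B) (f : L2) :
    (𝓕 (Tm ψ hψ B hB f) : L2) =ᵐ[volume] fun ξ => ψ ξ * (𝓕 f : L2) ξ := by
  rw [fourier_Tm]; exact mulOp_coe hψ hB _

theorem Tm_norm_sq (hψ : Measurable ψ) (hB : ∀ x, ‖ψ x‖ ≤ B) (f : L2) :
    ‖Tm ψ hψ B hB f‖ ^ 2 = ∫ ξ, ‖ψ ξ‖ ^ 2 * ‖𝓕 f ξ‖ ^ 2 := by
  rw [← Lp.norm_fourier_eq, fourier_Tm, mulOp_norm_sq]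

theorem Tm_norm_le (hψ : Measurable ψ) (hB : ∀ x, ‖ψ x‖ ≤ B) (f : L2) :
    ‖Tm ψ hψ B hB f‖ ≤ B * ‖f‖ := by
  have hB0 : 0 ≤ B := (norm_nonneg _).trans (hB 0)
  rw [← Lp.norm_fourier_eq, fourier_Tm, ← Lp.norm_fourier_eq f]
  refine Lp.norm_le_mul_norm_of_ae_le_mul ?_
  filter_upwards [mulOp_coe hψ hB (𝓕 f)] with x hx
  rw [hx, norm_mul]
  exact mul_le_mul_of_nonneg_right (hB x) (norm_nonneg _)

theorem norm_sq_fourier (f : L2) : ‖f‖ ^ 2 = ∫ ξ, ‖𝓕 f ξ‖ ^ 2 := by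
  rw [← Lp.norm_fourier_eq, norm_sq_eq]

end mul

/-! ### Translations -/

/-- translation by `h` -/
noncomputable def Vt (h : E2) : L2 →ₗᵢ[ℂ] L2 :=
  Lp.compMeasurePreservingₗᵢ ℂ (fun x => x + h) (measurePreserving_add_right volume h)

theorem Vt_coe (h : E2) (f : L2) : Vt h f =ᵐ[volume] fun x => f (x + h) :=
  Lp.coeFn_compMeasurePreserving f (measurePreserving_add_right volume h)

/-- the character -/
noncomputable def chr (h ξ : E2) : ℂ := Complex.exp (2 * Real.pi * Complex.I * (inner ℝ h ξ : ℝ))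

theorem chr_norm (h ξ : E2) : ‖chr h ξ‖ = 1 := by
  unfold chr
  rw [show (2 * (Real.pi : ℂ) * Complex.I * ((inner ℝ h ξ : ℝ) : ℂ)) =
    ((2 * Real.pi * inner ℝ h ξ : ℝ) : ℂ) * Complex.I by push_cast; ring]
  exact Complex.norm_exp_ofReal_mul_I _

theorem measurable_chr (h : E2) : Measurable (chr h) := by
  unfold chr
  fun_prop

theorem fourier_Vt (h : E2) (f : L2) :
    𝓕 (Vt h f) = mulOp (chr h) (measurable_chr h) 1 (fun ξ => (chr_norm h ξ).le) (𝓕 f) := by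
  refine DenseRange.induction_on (p := fun f : L2 => 𝓕 (Vt h f) =
    mulOp (chr h) (measurable_chr h) 1 (fun ξ => (chr_norm h ξ).le) (𝓕 f))
    (SchwartzMap.denseRange_toLpCLM (E := E2) (F := ℂ) (p := 2) (μ := volume) ENNReal.ofNat_ne_top) f
    ?_ ?_
  · refine isClosed_eq ?_ ?_
    · exact (Lp.fourierTransformₗᵢ E2 ℂ).continuous.comp (Vt h).continuous
    · exact (mulOp (chr h) (measurable_chr h) 1 (fun ξ => (chr_norm h ξ).le)).continuous.comp
        (Lp.fourierTransformₗᵢ E2 ℂ).continuous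
  · intro g
    have h1 : Vt h (g.toLp 2) = (g.compSubConstCLM ℂ (-h)).toLp 2 := by
      ext1
      have a1 := (g.compSubConstCLM ℂ (-h)).coeFn_toLp 2 (volume : Measure E2)
      have a2 := (measurePreserving_add_right (volume : Measure E2) h).quasiMeasurePreserving.ae
        (g.coeFn_toLp 2 (volume : Measure E2))
      filter_upwards [Vt_coe h (g.toLp 2), a1, a2] with x e1 e2 e3
      rw [e1, e2, e3, SchwartzMap.compSubConstCLM_apply, sub_neg_eq_add]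
    change 𝓕 (Vt h (g.toLp 2)) = mulOp (chr h) (measurable_chr h) 1 _ (𝓕 (g.toLp 2))
    rw [h1, SchwartzMap.toLp_fourier_eq, SchwartzMap.toLp_fourier_eq]
    ext1
    filter_upwards [(𝓕 (g.compSubConstCLM ℂ (-h))).coeFn_toLp 2 (volume : Measure E2),
      mulOp_coe (measurable_chr h) (fun ξ => (chr_norm h ξ).le) ((𝓕 g).toLp 2),
      (𝓕 g).coeFn_toLp 2 (volume : Measure E2)] with ξ e1 e2 e3
    rw [e1, e2, e3, SchwartzMap.fourier_coe, SchwartzMap.fourier_coe]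
    have h2 : ((g.compSubConstCLM ℂ (-h) : 𝓢(E2, ℂ)) : E2 → ℂ) = g ∘ fun v => v + h := by
      funext x
      simp
    rw [h2]
    have h3 := VectorFourier.fourierIntegral_comp_add_right Real.fourierChar
      (volume : Measure E2) (innerₗ E2) (g : E2 → ℂ) h
    have h4 := congrFun h3 ξ
    have h5 : ((Real.fourierChar ((innerₗ E2) h ξ) : Circle) : ℂ) = chr h ξ := by
      rw [Real.fourierChar_apply]
      unfold chr
      simp only [innerₗ_apply_apply]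
      congr 1
      push_cast
      ring
    calc 𝓕 ((g : E2 → ℂ) ∘ fun v => v + h) ξ
        = Real.fourierChar ((innerₗ E2) h ξ) • 𝓕 (g : E2 → ℂ) ξ := h4
      _ = chr h ξ * 𝓕 (g : E2 → ℂ) ξ := by rw [Circle.smul_def, smul_eq_mul, h5]

theorem norm_Vt_sub_sq (h : E2) (f : L2) :
    ‖Vt h f - f‖ ^ 2 = ∫ ξ, ‖chr h ξ - 1‖ ^ 2 * ‖𝓕 f ξ‖ ^ 2 := by
  rw [← Lp.norm_fourier_eq, norm_sq_eq]
  refine integral_congr_ae ?_
  have e : 𝓕 (Vt h f - f) = 𝓕 (Vt h f) - 𝓕 f := (Lp.fourierTransformₗᵢ E2 ℂ).map_sub _ _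
  rw [e]
  have e2 := fourier_Vt h f
  rw [e2]
  filter_upwards [Lp.coeFn_sub (mulOp (chr h) (measurable_chr h) 1
    (fun ξ => (chr_norm h ξ).le) (𝓕 f)) (𝓕 f),
    mulOp_coe (measurable_chr h) (fun ξ => (chr_norm h ξ).le) (𝓕 f)] with ξ h1 h2
  rw [h1, Pi.sub_apply, h2, ← mul_pow, ← norm_mul]
  congr 2
  ring

end Pool.Agent.H73.Hyp
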