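import Pool.Agent.H73.Hyp.Proj

/-! The comparison of a family of projections with the projections `Ep U`. -/

namespace Pool.Agent.H73.Hyp

open Finset Filter Topology

theorem geom_half {r : ℝ} (h0 : 0 ≤ r) (h1 : r < 1) (A : Finset ℤ) (n : ℤ)
    (hA : ∀ l ∈ A, ∀ l' ∈ A, (n - l).natAbs = (n - l').natAbs → l = l') :
    ∑ l ∈ A, r ^ (n - l).natAbs ≤ 1 / (1 - r) := by
  have e : ∑ l ∈ A, r ^ (n - l).natAbs = ∑ k ∈ A.image fun l => (n - l).natAbs, r ^ k := by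
    rw [sum_image]
    exact fun l hl l' hl' h => hA l hl l' hl' h
  rw [e, one_div, ← tsum_geometric_of_lt_one h0 h1]
  exact (summable_geometric_of_lt_one h0 h1).sum_le_tsum _ fun k _ => pow_nonneg h0 k

theorem geom_int {r : ℝ} (h0 : 0 ≤ r) (h1 : r < 1) (L : Finset ℤ) (n : ℤ) :
    ∑ l ∈ L, r ^ (n - l).natAbs ≤ 2 / (1 - r) := by
  rw [← sum_filter_add_sum_filter_not L fun l => l ≤ n]
  have a1 := geom_half h0 h1 (L.filter fun l => l ≤ n) n (by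
    intro l hl l' hl' h
    rw [mem_filter] at hl hl'
    omega)
  have a2 := geom_half h0 h1 (L.filter fun l => ¬l ≤ n) n (by
    intro l hl l' hl' h
    rw [mem_filter] at hl hl'
    omega)
  have : 2 / (1 - r) = 1 / (1 - r) + 1 / (1 - r) := by ring
  rw [this]
  exact add_le_add a1 a2

theorem young {r : ℝ} (h0 : 0 ≤ r) (h1 : r < 1) (J L : Finset ℤ) (x : ℤ → ℝ) :
    ∑ n ∈ J, (∑ l ∈ L, r ^ (n - l).natAbs * x l) ^ 2 ≤
      (2 / (1 - r)) ^ 2 * ∑ l ∈ L, x l ^ 2 := by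
  have hc : 0 ≤ 2 / (1 - r) := by
    have : 0 < 1 - r := by linarith
    positivity
  calc ∑ n ∈ J, (∑ l ∈ L, r ^ (n - l).natAbs * x l) ^ 2
      ≤ ∑ n ∈ J, (2 / (1 - r)) * ∑ l ∈ L, r ^ (n - l).natAbs * x l ^ 2 := by
        refine sum_le_sum fun n _ => ?_
        refine (sum_sq_le_sum_mul_sum_of_sq_le_mul L (f := fun l => r ^ (n - l).natAbs)
          (g := fun l => r ^ (n - l).natAbs * x l ^ 2) (fun l _ => pow_nonneg h0 _)
          (fun l _ => mul_nonneg (pow_nonneg h0 _) (sq_nonneg _))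
          (fun l _ => le_of_eq (by ring))).trans ?_
        exact mul_le_mul_of_nonneg_right (geom_int h0 h1 L n)
          (sum_nonneg fun l _ => mul_nonneg (pow_nonneg h0 _) (sq_nonneg _))
    _ = (2 / (1 - r)) * ∑ l ∈ L, (∑ n ∈ J, r ^ (l - n).natAbs) * x l ^ 2 := by
        rw [← mul_sum, sum_comm]
        congr 1
        refine sum_congr rfl fun l _ => ?_
        rw [sum_mul]
        refine sum_congr rfl fun n _ => ?_
        rw [show (n - l).natAbs = (l - n).natAbs by omega]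
    _ ≤ (2 / (1 - r)) * ∑ l ∈ L, (2 / (1 - r)) * x l ^ 2 := by
        refine mul_le_mul_of_nonneg_left (sum_le_sum fun l _ => ?_) hc
        exact mul_le_mul_of_nonneg_right (geom_int h0 h1 J l) (sq_nonneg _)
    _ = _ := by rw [← mul_sum]; ring

variable {H : Type*} [NormedAddCommGroup H] [InnerProductSpace ℂ H] [CompleteSpace H]

theorem schur {U : ℤ → H →ₗᵢ[ℂ] H} (P : ℤ → H →L[ℂ] H) {κ r : ℝ} (h0 : 0 ≤ r) (h1 : r < 1)
    (hK1 : ∀ n l, l ≤ n → ∀ f,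
      ‖Dp U l f - P n (Dp U l f)‖ ≤ κ * r ^ (n - l).natAbs * ‖Dp U l f‖)
    (hK2 : ∀ n l, n < l → ∀ f, ‖P n (Dp U l f)‖ ≤ κ * r ^ (n - l).natAbs * ‖Dp U l f‖)
    (hup : ∀ f, Tendsto (fun b : ℕ => Ep U b f) atTop (𝓝 f))
    (hlow : ∀ f, Tendsto (fun a : ℕ => Ep U (-a) f) atTop (𝓝 0)) (J : Finset ℤ) (g : H) :
    ∑ n ∈ J, ‖P n g - Ep U (n + 1) g‖ ^ 2 ≤ (κ * (2 / (1 - r))) ^ 2 * ‖g‖ ^ 2 := by
  set X : ℕ → ℤ → H := fun N n => P n (Ep U N g - Ep U (n + 1) g) -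
    ((Ep U (n + 1) g - Ep U (-N) g) - P n (Ep U (n + 1) g - Ep U (-N) g)) with hX
  have hlim : Tendsto (fun N => ∑ n ∈ J, ‖X N n‖ ^ 2) atTop
      (𝓝 (∑ n ∈ J, ‖P n g - Ep U (n + 1) g‖ ^ 2)) := by
    refine tendsto_finsetSum _ fun n _ => ?_
    refine ((Tendsto.norm ?_).pow 2)
    have e : P n g - Ep U (n + 1) g = P n (g - Ep U (n + 1) g) -
        ((Ep U (n + 1) g - 0) - P n (Ep U (n + 1) g - 0)) := by
      rw [sub_zero, map_sub]; abel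
    rw [e]
    have a1 := (hup g).sub_const (Ep U (n + 1) g)
    have a2 := (hlow g).const_sub (Ep U (n + 1) g)
    exact (((P n).continuous.tendsto _).comp a1).sub (a2.sub (((P n).continuous.tendsto _).comp a2))
  refine le_of_tendsto hlim ?_
  have hev : ∀ᶠ N : ℕ in atTop, ∀ n ∈ J, -(N : ℤ) ≤ n ∧ n < N := by
    rw [Finset.eventually_all]
    intro n _
    filter_upwards [eventually_gt_atTop n.natAbs] with N hN
    omega
  filter_upwards [hev] with N hN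
  have hb : ∀ n ∈ J, ‖X N n‖ ≤ κ * ∑ l ∈ Ico (-(N : ℤ)) N, r ^ (n - l).natAbs * ‖Dp U l g‖ := by
    intro n hn
    obtain ⟨b1, b2⟩ := hN n hn
    have e1 : Ep U N g - Ep U (n + 1) g = ∑ l ∈ Ico (n + 1) N, Dp U l g :=
      (sum_Dp U (by omega) g).symm
    have e2 : Ep U (n + 1) g - Ep U (-N) g = ∑ l ∈ Ico (-(N : ℤ)) (n + 1), Dp U l g :=
      (sum_Dp U (by omega) g).symm
    have e3 : ‖P n (Ep U N g - Ep U (n + 1) g)‖ ≤
        ∑ l ∈ Ico (n + 1) (N : ℤ), κ * r ^ (n - l).natAbs * ‖Dp U l g‖ := by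
      rw [e1, map_sum]
      exact norm_sum_le_of_le _ fun l hl => hK2 n l (by rw [mem_Ico] at hl; omega) g
    have e4 : ‖(Ep U (n + 1) g - Ep U (-N) g) - P n (Ep U (n + 1) g - Ep U (-N) g)‖ ≤
        ∑ l ∈ Ico (-(N : ℤ)) (n + 1), κ * r ^ (n - l).natAbs * ‖Dp U l g‖ := by
      rw [e2, map_sum, ← sum_sub_distrib]
      exact norm_sum_le_of_le _ fun l hl => hK1 n l (by rw [mem_Ico] at hl; omega) g
    have e5 : ∑ l ∈ Ico (-(N : ℤ)) N, κ * r ^ (n - l).natAbs * ‖Dp U l g‖ =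
        ∑ l ∈ Ico (-(N : ℤ)) (n + 1), κ * r ^ (n - l).natAbs * ‖Dp U l g‖ +
        ∑ l ∈ Ico (n + 1) (N : ℤ), κ * r ^ (n - l).natAbs * ‖Dp U l g‖ := by
      rw [← sum_union]
      · congr 1
        ext l
        simp only [mem_union, mem_Ico]
        omega
      · rw [disjoint_left]
        intro l hl hl'
        rw [mem_Ico] at hl hl'
        omega
    calc ‖X N n‖ ≤ _ := norm_sub_le _ _
      _ ≤ _ := add_le_add e3 e4
      _ = ∑ l ∈ Ico (-(N : ℤ)) N, κ * r ^ (n - l).natAbs * ‖Dp U l g‖ := by rw [e5, add_comm]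
      _ = _ := by rw [mul_sum]; exact sum_congr rfl fun l _ => by ring
  calc ∑ n ∈ J, ‖X N n‖ ^ 2
      ≤ ∑ n ∈ J, (κ * ∑ l ∈ Ico (-(N : ℤ)) N, r ^ (n - l).natAbs * ‖Dp U l g‖) ^ 2 :=
        sum_le_sum fun n hn => pow_le_pow_left₀ (norm_nonneg _) (hb n hn) 2
    _ = κ ^ 2 * ∑ n ∈ J, (∑ l ∈ Ico (-(N : ℤ)) N, r ^ (n - l).natAbs * ‖Dp U l g‖) ^ 2 := by
        rw [mul_sum]; exact sum_congr rfl fun n _ => by ring
    _ ≤ κ ^ 2 * ((2 / (1 - r)) ^ 2 * ∑ l ∈ Ico (-(N : ℤ)) N, ‖Dp U l g‖ ^ 2) :=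
        mul_le_mul_of_nonneg_left (young h0 h1 J _ _) (sq_nonneg _)
    _ ≤ κ ^ 2 * ((2 / (1 - r)) ^ 2 * ‖g‖ ^ 2) :=
        mul_le_mul_of_nonneg_left (mul_le_mul_of_nonneg_left (sum_Dp_sq_le U _ g) (sq_nonneg _))
          (sq_nonneg _)
    _ = _ := by ring

end Pool.Agent.H73.Hyp
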