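import Pool.Agent.H73.Hyp.Flip
import Pool.Agent.H73.Hyp.Schur

/-! Frequency projections and their relation with the flips. -/

namespace Pool.Agent.H73.Hyp

open MeasureTheory FourierTransform
open scoped ENNReal

theorem flips (c : Fin 2) : Flips (Uf c) := ⟨Uf_Uf c, Uf_comm c c⟩

theorem fourier_inj {f g : L2} (h : (𝓕 f : L2) = 𝓕 g) : f = g :=
  (Lp.fourierTransformₗᵢ E2 ℂ).injective h

theorem fourier_sub (f g : L2) : (𝓕 (f - g) : L2) = 𝓕 f - 𝓕 g :=
  (Lp.fourierTransformₗᵢ E2 ℂ).map_sub f g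

theorem fourier_add (f g : L2) : (𝓕 (f + g) : L2) = 𝓕 f + 𝓕 g :=
  (Lp.fourierTransformₗᵢ E2 ℂ).map_add f g

/-! ### Projections on sets of frequencies -/

theorem ind_norm (S : Set E2) (x : E2) : ‖S.indicator (fun _ => (1 : ℂ)) x‖ ≤ 1 := by
  by_cases h : x ∈ S <;> simp [h]

/-- the multiplier operator of the indicator function of `S` -/
noncomputable def Pi (S : Set E2) (hS : MeasurableSet S) : L2 →L[ℂ] L2 :=
  Tm (S.indicator fun _ => (1 : ℂ)) (measurable_const.indicator hS) 1 (ind_norm S)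

theorem Pi_coe {S : Set E2} (hS : MeasurableSet S) (f : L2) :
    (𝓕 (Pi S hS f) : L2) =ᵐ[volume] S.indicator (𝓕 f : L2) := by
  filter_upwards [fourier_Tm_coe (measurable_const.indicator hS) (ind_norm S) f] with x hx
  unfold Pi
  rw [hx]
  by_cases h : x ∈ S <;> simp [h]

theorem Pi_norm_sq {S : Set E2} (hS : MeasurableSet S) (f : L2) :
    ‖Pi S hS f‖ ^ 2 = ∫ ξ, S.indicator (fun ξ => ‖(𝓕 f : L2) ξ‖ ^ 2) ξ := by
  rw [norm_sq_fourier]
  refine integral_congr_ae ?_
  filter_upwards [Pi_coe hS f] with ξ h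
  rw [h]
  by_cases h : ξ ∈ S <;> simp [h]

theorem Pi_inter {S T : Set E2} (hS : MeasurableSet S) (hT : MeasurableSet T) (f : L2) :
    Pi S hS (Pi T hT f) = Pi (S ∩ T) (hS.inter hT) f := by
  refine fourier_inj ?_
  ext1
  filter_upwards [Pi_coe hS (Pi T hT f), Pi_coe hT f, Pi_coe (hS.inter hT) f] with ξ h1 h2 h3
  rw [h1, h3]
  by_cases a : ξ ∈ S
  · rw [Set.indicator_of_mem a, h2]
    by_cases b : ξ ∈ T
    · rw [Set.indicator_of_mem b, Set.indicator_of_mem (Set.mem_inter a b)]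
    · rw [Set.indicator_of_notMem b, Set.indicator_of_notMem fun h => b h.2]
  · rw [Set.indicator_of_notMem a, Set.indicator_of_notMem fun h => a h.1]

theorem Pi_congr {S T : Set E2} (hS : MeasurableSet S) (hT : MeasurableSet T) (h : S = T)
    (f : L2) : Pi S hS f = Pi T hT f := by subst h; rfl

theorem Pi_comm {S T : Set E2} (hS : MeasurableSet S) (hT : MeasurableSet T) (f : L2) :
    Pi S hS (Pi T hT f) = Pi T hT (Pi S hS f) := by
  rw [Pi_inter, Pi_inter]
  exact Pi_congr _ _ (Set.inter_comm _ _) f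

theorem Pi_of_subset {S T : Set E2} (hS : MeasurableSet S) (hT : MeasurableSet T) (h : S ⊆ T)
    (f : L2) : Pi S hS (Pi T hT f) = Pi S hS f := by
  rw [Pi_inter]
  exact Pi_congr _ _ (Set.inter_eq_left.2 h) f

theorem Pi_idem {S : Set E2} (hS : MeasurableSet S) (f : L2) :
    Pi S hS (Pi S hS f) = Pi S hS f := Pi_of_subset hS hS subset_rfl f

theorem Pi_inner {S : Set E2} (hS : MeasurableSet S) (f g : L2) :
    inner ℂ (Pi S hS f) g = inner ℂ f (Pi S hS g) := by
  rw [← Lp.inner_fourier_eq, ← Lp.inner_fourier_eq f, MeasureTheory.L2.inner_def,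
    MeasureTheory.L2.inner_def]
  refine integral_congr_ae ?_
  filter_upwards [Pi_coe hS f, Pi_coe hS g] with ξ h1 h2
  rw [h1, h2]
  by_cases h : ξ ∈ S <;> simp [h]

theorem Pi_norm_le {S : Set E2} (hS : MeasurableSet S) (f : L2) : ‖Pi S hS f‖ ≤ ‖f‖ := by
  have := Tm_norm_le (measurable_const.indicator hS) (ind_norm S) f
  rw [one_mul] at this
  exact this

theorem Pi_compl {S : Set E2} (hS : MeasurableSet S) (f : L2) :
    f - Pi S hS f = Pi Sᶜ hS.compl f := by
  refine fourier_inj ?_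
  ext1
  rw [fourier_sub]
  filter_upwards [Pi_coe hS f, Pi_coe hS.compl f, Lp.coeFn_sub (𝓕 f : L2) (𝓕 (Pi S hS f))]
    with ξ h1 h2 h3
  rw [h3, h2, Pi.sub_apply, h1]
  by_cases h : ξ ∈ S <;> simp [h]

/-! ### Translations and flips -/

theorem Vt_Uf_ne {c c' : Fin 2} (h : c ≠ c') (l : ℤ) (t : ℝ) (f : L2) :
    Vt (t • ee c') (Uf c l f) = Uf c l (Vt (t • ee c') f) := by
  ext1
  filter_upwards [Vt_coe (t • ee c') (Uf c l f), ae_comp_add (t • ee c') (Uf_coe c l f),
    Uf_coe c l (Vt (t • ee c') f), ae_comp_fl c l (Vt_coe (t • ee c') f)] with x h1 h2 h3 h4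
  rw [h1, h2, h3, h4, fl_translate_ne h]

theorem inner_Vt (h : E2) (f : L2) :
    inner ℂ f (Vt h f) = ∫ ξ, chr h ξ * ((‖(𝓕 f : L2) ξ‖ ^ 2 : ℝ) : ℂ) := by
  rw [← Lp.inner_fourier_eq, MeasureTheory.L2.inner_def]
  refine integral_congr_ae ?_
  rw [fourier_Vt]
  filter_upwards [mulOp_coe (measurable_chr h) (fun ξ => (chr_norm h ξ).le) (𝓕 f)] with ξ h1
  rw [h1]
  have : inner ℂ ((𝓕 f : L2) ξ) (chr h ξ * (𝓕 f : L2) ξ) =
      chr h ξ * inner ℂ ((𝓕 f : L2) ξ) ((𝓕 f : L2) ξ) := by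
    rw [← smul_eq_mul, inner_smul_right]
  rw [this, inner_self_eq_norm_sq_to_K]
  norm_cast

/-- the distribution of the frequencies of `f` in the coordinate `c` -/
noncomputable def muf (c : Fin 2) (f : L2) : Measure ℝ :=
  Measure.map (fun ξ : E2 => ξ c)
    ((volume : Measure E2).withDensity fun ξ => ENNReal.ofReal (‖(𝓕 f : L2) ξ‖ ^ 2))

theorem aemeas_dens (f : L2) :
    AEMeasurable (fun ξ : E2 => ENNReal.ofReal (‖(𝓕 f : L2) ξ‖ ^ 2)) volume :=
  ((Lp.aestronglyMeasurable (𝓕 f : L2)).norm.pow 2).aemeasurable.ennreal_ofReal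

theorem lintegral_dens (f : L2) :
    ∫⁻ ξ, ENNReal.ofReal (‖(𝓕 f : L2) ξ‖ ^ 2) = ENNReal.ofReal (‖f‖ ^ 2) := by
  rw [norm_sq_fourier, ofReal_integral_eq_lintegral_ofReal (integrable_sq _)
    (Filter.Eventually.of_forall fun ξ => sq_nonneg _)]

instance (c : Fin 2) (f : L2) : IsFiniteMeasure (muf c f) := by
  have : IsFiniteMeasure ((volume : Measure E2).withDensity
      fun ξ => ENNReal.ofReal (‖(𝓕 f : L2) ξ‖ ^ 2)) := by
    refine isFiniteMeasure_withDensity ?_
    rw [lintegral_dens]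
    exact ENNReal.ofReal_ne_top
  unfold muf
  infer_instance

theorem charFun_muf (c : Fin 2) (f : L2) (t : ℝ) :
    charFun (muf c f) t = inner ℂ f (Vt ((t / (2 * Real.pi)) • ee c) f) := by
  rw [charFun_apply_real, inner_Vt]
  unfold muf
  rw [integral_map (measurable_coord c).aemeasurable (by fun_prop)]
  rw [integral_withDensity_eq_integral_toReal_smul₀ (aemeas_dens f)
    (Filter.Eventually.of_forall fun ξ => ENNReal.ofReal_lt_top)]
  refine integral_congr_ae (Filter.Eventually.of_forall fun ξ => ?_)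
  simp only
  rw [ENNReal.toReal_ofReal (sq_nonneg _), mul_comm (chr _ _)]
  rw [Complex.real_smul]
  congr 1
  unfold chr
  congr 1
  have h : inner ℝ ((t / (2 * Real.pi)) • ee c) ξ = t / (2 * Real.pi) * ξ c := by
    rw [inner_smul_left]
    unfold ee
    rw [EuclideanSpace.inner_single_left]
    simp
  rw [h]
  have hp : (Real.pi : ℂ) ≠ 0 := by exact_mod_cast Real.pi_ne_zero
  push_cast
  field_simp

theorem muf_Uf {c c' : Fin 2} (h : c ≠ c') (l : ℤ) (f : L2) : muf c' (Uf c l f) = muf c' f := by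
  refine Measure.ext_of_charFun ?_
  funext t
  rw [charFun_muf, charFun_muf, Vt_Uf_ne h, LinearIsometry.inner_map_map]

theorem muf_apply (c : Fin 2) (f : L2) {B : Set ℝ} (hB : MeasurableSet B) :
    muf c f B = ENNReal.ofReal (‖Pi {ξ | ξ c ∈ B} (measurable_coord c hB) f‖ ^ 2) := by
  have hS : MeasurableSet {ξ : E2 | ξ c ∈ B} := measurable_coord c hB
  unfold muf
  rw [Measure.map_apply (measurable_coord c) hB, withDensity_apply _ (measurable_coord c hB),
    Pi_norm_sq, ofReal_integral_eq_lintegral_ofReal]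
  · rw [← lintegral_indicator (measurable_coord c hB)]
    refine lintegral_congr fun ξ => ?_
    by_cases h : ξ ∈ {ξ : E2 | ξ c ∈ B}
    · rw [Set.indicator_of_mem h, Set.indicator_of_mem (show ξ ∈ (fun ξ : E2 => ξ c) ⁻¹' B from h)]
    · rw [Set.indicator_of_notMem h,
        Set.indicator_of_notMem (show ξ ∉ (fun ξ : E2 => ξ c) ⁻¹' B from h), ENNReal.ofReal_zero]
  · exact (integrable_sq _).indicator hS
  · refine Filter.Eventually.of_forall fun ξ => ?_
    exact Set.indicator_nonneg (fun _ _ => sq_nonneg _) _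

/-- The flips in the coordinate `c` commute with the projections on sets of frequencies that
depend on the other coordinate. -/
theorem Pi_Uf {c c' : Fin 2} (h : c ≠ c') (l : ℤ) {B : Set ℝ} (hB : MeasurableSet B) (f : L2) :
    Pi {ξ | ξ c' ∈ B} (measurable_coord c' hB) (Uf c l f) =
      Uf c l (Pi {ξ | ξ c' ∈ B} (measurable_coord c' hB) f) := by
  set P := Pi {ξ : E2 | ξ c' ∈ B} (measurable_coord c' hB) with hP
  have h1 : ∀ f, ‖P (Uf c l f)‖ ^ 2 = ‖P f‖ ^ 2 := by
    intro f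
    have e1 := muf_apply c' (Uf c l f) hB
    have e2 := muf_apply c' f hB
    rw [muf_Uf h, e2] at e1
    exact ((ENNReal.ofReal_eq_ofReal_iff (sq_nonneg _) (sq_nonneg _)).1 e1).symm
  have h2 : ∀ f, (inner ℂ (P f) f : ℂ) = ((‖P f‖ ^ 2 : ℝ) : ℂ) := by
    intro f
    rw [← Pi_idem, Pi_inner, Pi_idem]
    rw [inner_self_eq_norm_sq_to_K]
    norm_cast
  have h3 : ((Uf c l).toLinearMap ∘ₗ (P : L2 →ₗ[ℂ] L2) ∘ₗ (Uf c l).toLinearMap) =
      (P : L2 →ₗ[ℂ] L2) := by
    rw [← ext_inner_map]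
    intro f
    change inner ℂ (Uf c l (P (Uf c l f))) f = inner ℂ (P f) f
    rw [inner_U (flips c), h2, h2, h1]
  have h4 := congrArg (fun T : L2 →ₗ[ℂ] L2 => Uf c l (T f)) h3
  have h5 : Uf c l (Uf c l (P (Uf c l f))) = Uf c l (P f) := h4
  rw [Uf_Uf] at h5
  exact h5

end Pool.Agent.H73.Hyp
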