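import Mathlib

/-! Commuting involutions of a Hilbert space and the projections on the vectors fixed by all of
them from some index on. -/

namespace Pool.Agent.H73.Hyp

open Finset

variable {H : Type*} [NormedAddCommGroup H] [InnerProductSpace ℂ H]

/-- commuting isometric involutions -/
structure Flips (U : ℤ → H →ₗᵢ[ℂ] H) : Prop where
  /-- involution -/
  inv : ∀ l f, U l (U l f) = f
  /-- they commute -/
  comm : ∀ l m f, U l (U m f) = U m (U l f)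

/-- the vectors fixed by `U l` for `l ≥ i` -/
def Wf (U : ℤ → H →ₗᵢ[ℂ] H) (i : ℤ) : Submodule ℂ H where
  carrier := {f | ∀ l, i ≤ l → U l f = f}
  add_mem' := by
    intro a b ha hb l hl
    rw [map_add, ha l hl, hb l hl]
  zero_mem' := by
    intro l _
    rw [map_zero]
  smul_mem' := by
    intro c a ha l hl
    rw [map_smul, ha l hl]

theorem mem_Wf {U : ℤ → H →ₗᵢ[ℂ] H} {i : ℤ} {f : H} :
    f ∈ Wf U i ↔ ∀ l, i ≤ l → U l f = f := Iff.rfl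

theorem Wf_mono (U : ℤ → H →ₗᵢ[ℂ] H) {i j : ℤ} (h : i ≤ j) : Wf U i ≤ Wf U j :=
  fun _ hf l hl => hf l (h.trans hl)

theorem Wf_closed (U : ℤ → H →ₗᵢ[ℂ] H) (i : ℤ) : IsClosed (Wf U i : Set H) := by
  have : (Wf U i : Set H) = ⋂ l : {l : ℤ // i ≤ l}, {f | U l f = f} := by
    ext f
    simp only [SetLike.mem_coe, mem_Wf, Set.mem_iInter, Set.mem_ofPred_eq, Subtype.forall]
  rw [this]
  exact isClosed_iInter fun l => isClosed_eq (U l).continuous continuous_id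

variable [CompleteSpace H]

instance (U : ℤ → H →ₗᵢ[ℂ] H) (i : ℤ) : CompleteSpace (Wf U i) :=
  (Wf_closed U i).completeSpace_coe

/-- the orthogonal projection on the fixed vectors -/
noncomputable def Ep (U : ℤ → H →ₗᵢ[ℂ] H) (i : ℤ) : H →L[ℂ] H := (Wf U i).starProjection

theorem Ep_mem (U : ℤ → H →ₗᵢ[ℂ] H) (i : ℤ) (f : H) : Ep U i f ∈ Wf U i :=
  Submodule.starProjection_apply_mem _ _

theorem Ep_eq (U : ℤ → H →ₗᵢ[ℂ] H) {i : ℤ} {f : H} (h : f ∈ Wf U i) : Ep U i f = f :=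
  Submodule.starProjection_eq_self_iff.2 h

theorem Ep_norm_le (U : ℤ → H →ₗᵢ[ℂ] H) (i : ℤ) (f : H) : ‖Ep U i f‖ ≤ ‖f‖ :=
  Submodule.norm_starProjection_apply_le _ _

theorem Ep_inner (U : ℤ → H →ₗᵢ[ℂ] H) (i : ℤ) (f g : H) :
    inner ℂ (Ep U i f) g = inner ℂ f (Ep U i g) :=
  Submodule.inner_starProjection_left_eq_right _ f g

theorem Ep_unique (U : ℤ → H →ₗᵢ[ℂ] H) {i : ℤ} {f g : H} (h1 : g ∈ Wf U i)
    (h2 : ∀ w ∈ Wf U i, inner ℂ (f - g) w = 0) : Ep U i f = g :=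
  Submodule.eq_starProjection_of_mem_of_inner_eq_zero h1 h2

theorem Ep_Ep_of_le (U : ℤ → H →ₗᵢ[ℂ] H) {i j : ℤ} (h : i ≤ j) (f : H) :
    Ep U j (Ep U i f) = Ep U i f := Ep_eq U (Wf_mono U h (Ep_mem U i f))

theorem Ep_Ep_of_ge (U : ℤ → H →ₗᵢ[ℂ] H) {i j : ℤ} (h : i ≤ j) (f : H) :
    Ep U i (Ep U j f) = Ep U i f := by
  symm
  refine Ep_unique U (Ep_mem U i _) fun w hw => ?_
  have e1 : Ep U i w = w := Ep_eq U hw
  have e2 : Ep U j w = w := Ep_eq U (Wf_mono U h hw)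
  rw [inner_sub_left, Ep_inner, e1, Ep_inner, e2, sub_self]

omit [CompleteSpace H] in
theorem inner_U {U : ℤ → H →ₗᵢ[ℂ] H} (hU : Flips U) (l : ℤ) (f g : H) :
    inner ℂ (U l f) g = inner ℂ f (U l g) := by
  have h := (U l).inner_map_map f (U l g)
  rw [hU.inv] at h
  exact h

theorem U_Ep {U : ℤ → H →ₗᵢ[ℂ] H} (hU : Flips U) (i : ℤ) (f : H) :
    U i (Ep U (i + 1) f) = Ep U i f + Ep U i f - Ep U (i + 1) f := by
  have h2 : (2 : ℂ) ≠ 0 := two_ne_zero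
  have h1 : Ep U i f = (1 / 2 : ℂ) • (Ep U (i + 1) f + U i (Ep U (i + 1) f)) := by
    refine Ep_unique U ?_ fun w hw => ?_
    · intro l hl
      rcases eq_or_lt_of_le hl with rfl | hl'
      · rw [map_smul, map_add, hU.inv, add_comm]
      · have e := Ep_mem U (i + 1) f l (by omega)
        rw [map_smul, map_add, hU.comm, e]
    · have e1 : U i w = w := hw i le_rfl
      have e2 : Ep U (i + 1) w = w := Ep_eq U (Wf_mono U (by omega) hw)
      rw [inner_sub_left, inner_smul_left, inner_add_left, inner_U hU, e1, Ep_inner, e2]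
      have : (starRingEnd ℂ) (1 / 2 : ℂ) = 1 / 2 := by
        rw [map_div₀, map_one, map_ofNat]
      rw [this]; ring
  rw [h1]
  rw [← add_smul]
  norm_num

/-- A symmetric operator that commutes with the involutions commutes with the projections. -/
theorem Ep_comm {U : ℤ → H →ₗᵢ[ℂ] H} {S : H →L[ℂ] H}
    (hS : ∀ f g, inner ℂ (S f) g = inner ℂ f (S g)) (hc : ∀ l f, S (U l f) = U l (S f))
    (i : ℤ) (f : H) : Ep U i (S f) = S (Ep U i f) := by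
  have hW : ∀ w ∈ Wf U i, S w ∈ Wf U i := fun w hw l hl => by rw [← hc, hw l hl]
  refine Ep_unique U (hW _ (Ep_mem U i f)) fun w hw => ?_
  rw [← map_sub, hS, inner_sub_left, Ep_inner, Ep_eq U (hW w hw), sub_self]

/-- the martingale differences -/
noncomputable def Dp (U : ℤ → H →ₗᵢ[ℂ] H) (i : ℤ) : H →L[ℂ] H := Ep U (i + 1) - Ep U i

theorem Dp_apply (U : ℤ → H →ₗᵢ[ℂ] H) (i : ℤ) (f : H) : Dp U i f = Ep U (i + 1) f - Ep U i f :=
  rfl

theorem Dp_mem (U : ℤ → H →ₗᵢ[ℂ] H) (i : ℤ) (f : H) : Dp U i f ∈ Wf U (i + 1) :=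
  Submodule.sub_mem _ (Ep_mem U _ f) (Wf_mono U (by omega) (Ep_mem U i f))

theorem U_Dp_lt {U : ℤ → H →ₗᵢ[ℂ] H} {i l : ℤ} (h : i < l) (f : H) :
    U l (Dp U i f) = Dp U i f := Dp_mem U i f l (by omega)

theorem U_Dp_self {U : ℤ → H →ₗᵢ[ℂ] H} (hU : Flips U) (i : ℤ) (f : H) :
    U i (Dp U i f) = -Dp U i f := by
  have e1 : U i (Ep U i f) = Ep U i f := Ep_mem U i f i le_rfl
  rw [Dp_apply, map_sub, U_Ep hU, e1]
  abel

theorem Dp_inner (U : ℤ → H →ₗᵢ[ℂ] H) (i : ℤ) (f g : H) :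
    inner ℂ (Dp U i f) g = inner ℂ f (Dp U i g) := by
  rw [Dp_apply, Dp_apply, inner_sub_left, inner_sub_right, Ep_inner, Ep_inner]

theorem Ep_Dp_le (U : ℤ → H →ₗᵢ[ℂ] H) {i j : ℤ} (h : j ≤ i) (f : H) : Ep U j (Dp U i f) = 0 := by
  rw [Dp_apply, map_sub, Ep_Ep_of_ge U (by omega), Ep_Ep_of_ge U h, sub_self]

theorem Ep_Dp_gt (U : ℤ → H →ₗᵢ[ℂ] H) {i j : ℤ} (h : i < j) (f : H) :
    Ep U j (Dp U i f) = Dp U i f := Ep_eq U (Wf_mono U (by omega) (Dp_mem U i f))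

theorem Dp_Dp_ne (U : ℤ → H →ₗᵢ[ℂ] H) {i j : ℤ} (h : i ≠ j) (f : H) :
    Dp U j (Dp U i f) = 0 := by
  rcases lt_or_gt_of_ne h with h | h
  · rw [Dp_apply, Ep_Dp_gt U (by omega), Ep_Dp_gt U h, sub_self]
  · rw [Dp_apply, Ep_Dp_le U (by omega), Ep_Dp_le U (by omega), sub_self]

theorem Dp_Dp_self (U : ℤ → H →ₗᵢ[ℂ] H) (i : ℤ) (f : H) : Dp U i (Dp U i f) = Dp U i f := by
  rw [Dp_apply U i (Dp U i f), Ep_Dp_gt U (by omega), Ep_Dp_le U le_rfl, sub_zero]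

theorem Dp_orth (U : ℤ → H →ₗᵢ[ℂ] H) {i j : ℤ} (h : i ≠ j) (f g : H) :
    inner ℂ (Dp U i f) (Dp U j g) = 0 := by
  rw [Dp_inner, Dp_Dp_ne U h.symm, inner_zero_right]

theorem Dp_norm_le (U : ℤ → H →ₗᵢ[ℂ] H) (i : ℤ) (f : H) : ‖Dp U i f‖ ≤ ‖f‖ := by
  have h1 : Dp U i f = Ep U (i + 1) (f - Ep U i f) := by
    rw [map_sub, Ep_Ep_of_le U (by omega)]; rfl
  have h2 : ‖f - Ep U i f‖ ≤ ‖f‖ := by
    have h := Submodule.norm_sq_eq_add_norm_sq_starProjection f (Wf U i)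
    have e : (Wf U i)ᗮ.starProjection f = f - Ep U i f := by
      rw [Submodule.starProjection_orthogonal']; rfl
    rw [e] at h
    have h3 : 0 ≤ ‖(Wf U i).starProjection f‖ ^ 2 := sq_nonneg _
    exact abs_le_of_sq_le_sq' (by linarith) (norm_nonneg _) |>.2
  rw [h1]
  exact (Ep_norm_le U _ _).trans h2

omit [CompleteSpace H] in
/-- sums of orthogonal vectors -/
theorem norm_sum_sq_orth {ι : Type*} [DecidableEq ι] (s : Finset ι) (v : ι → H)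
    (h : ∀ i ∈ s, ∀ j ∈ s, i ≠ j → inner ℂ (v i) (v j) = 0) :
    ‖∑ i ∈ s, v i‖ ^ 2 = ∑ i ∈ s, ‖v i‖ ^ 2 := by
  induction s using Finset.induction_on with
  | empty => simp
  | insert a s ha ih =>
    rw [sum_insert ha, sum_insert ha, ← ih fun i hi j hj hij =>
      h i (mem_insert_of_mem hi) j (mem_insert_of_mem hj) hij]
    have h1 : inner ℂ (v a) (∑ i ∈ s, v i) = 0 := by
      rw [inner_sum]
      exact sum_eq_zero fun i hi => h a (mem_insert_self _ _) i (mem_insert_of_mem hi)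
        (by rintro rfl; exact ha hi)
    have := norm_add_sq_eq_norm_sq_add_norm_sq_of_inner_eq_zero (v a) (∑ i ∈ s, v i) h1
    nlinarith [this]

theorem sum_Dp (U : ℤ → H →ₗᵢ[ℂ] H) {a b : ℤ} (h : a ≤ b) (f : H) :
    ∑ i ∈ Ico a b, Dp U i f = Ep U b f - Ep U a f := by
  obtain ⟨n, rfl⟩ := Int.le.dest h
  induction n with
  | zero => simp
  | succ n ih =>
    have e : Ico a (a + (n + 1 : ℕ)) = insert (a + n) (Ico a (a + n)) := by
      ext x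
      simp only [mem_Ico, mem_insert]
      push_cast
      omega
    rw [e, sum_insert (by simp), ih (by omega), Dp_apply]
    push_cast
    rw [show a + (n : ℤ) + 1 = a + ((n : ℤ) + 1) by ring]
    abel

/-- Bessel's inequality -/
theorem sum_Dp_sq_le (U : ℤ → H →ₗᵢ[ℂ] H) (s : Finset ℤ) (f : H) :
    ∑ i ∈ s, ‖Dp U i f‖ ^ 2 ≤ ‖f‖ ^ 2 := by
  set g := ∑ i ∈ s, Dp U i f with hg
  have h1 : ‖g‖ ^ 2 = ∑ i ∈ s, ‖Dp U i f‖ ^ 2 :=
    norm_sum_sq_orth s _ fun i _ j _ hij => Dp_orth U hij f f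
  have h2 : (inner ℂ g f : ℂ) = ((∑ i ∈ s, ‖Dp U i f‖ ^ 2 : ℝ) : ℂ) := by
    rw [hg, sum_inner]
    push_cast
    refine sum_congr rfl fun i _ => ?_
    rw [← Dp_Dp_self U i f, Dp_inner, Dp_Dp_self, inner_self_eq_norm_sq_to_K]
    norm_cast
  have h3 : ‖(inner ℂ g f : ℂ)‖ ≤ ‖g‖ * ‖f‖ := norm_inner_le_norm g f
  rw [h2, Complex.norm_real, Real.norm_eq_abs, abs_of_nonneg (sum_nonneg fun i _ => sq_nonneg _),
    ← h1] at h3
  rw [← h1]
  rcases eq_or_lt_of_le (norm_nonneg g) with h0 | h0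
  · rw [← h0, zero_pow two_ne_zero]; exact sq_nonneg _
  · have : ‖g‖ ≤ ‖f‖ := by
      have h4 : ‖g‖ * ‖g‖ ≤ ‖g‖ * ‖f‖ := by rw [← sq]; exact h3
      exact le_of_mul_le_mul_left h4 h0
    exact pow_le_pow_left₀ (norm_nonneg _) this 2

end Pool.Agent.H73.Hyp
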