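import Pool.Agent.H73.Hyp.Comp3

/-! The hyperbolic Riesz means. -/

namespace Pool.Agent.H73.Hyp

open MeasureTheory FourierTransform Filter Topology Finset

/-- The symbol `(1 - s⁻² ξ₁² ξ₂²)_+ ^ lam`. -/
noncomputable def symb (lam s : ℝ) (ξ : E2) : ℝ :=
  (max (1 - s⁻¹ ^ 2 * (ξ 0) ^ 2 * (ξ 1) ^ 2) 0) ^ lam

theorem measurable_symb (lam s : ℝ) : Measurable (symb lam s) := by
  unfold symb
  have h0 := measurable_coord 0
  have h1 := measurable_coord 1
  exact (((measurable_const.sub ((measurable_const.mul (h0.pow_const 2)).mul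
    (h1.pow_const 2))).max measurable_const).pow_const lam)

/-- Hoelder continuity of `x_+ ^ lam` on `(-∞, 1]` -/
theorem holder_aux {lam : ℝ} (hl : 0 < lam) {x y : ℝ} (hx : x ≤ 1) (hxy : y ≤ x) :
    |(max x 0) ^ lam - (max y 0) ^ lam| ≤ max 1 lam * (x - y) ^ (min lam 1) := by
  have hXY : max y 0 ≤ max x 0 := max_le_max_right 0 hxy
  have hY0 : 0 ≤ max y 0 := le_max_right _ _
  have hX0 : 0 ≤ max x 0 := le_max_right _ _
  have hX1 : max x 0 ≤ 1 := max_le hx zero_le_one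
  have hd : max x 0 - max y 0 ≤ x - y := by
    rcases le_total y 0 with h | h
    · rw [max_eq_right h]
      rcases le_total x 0 with h' | h'
      · rw [max_eq_right h']; linarith
      · rw [max_eq_left h']; linarith
    · rw [max_eq_left h, max_eq_left (h.trans hxy)]
  set X := max x 0
  set Y := max y 0
  rw [abs_of_nonneg (sub_nonneg.2 (Real.rpow_le_rpow hY0 hXY hl.le))]
  have hxy0 : 0 ≤ x - y := by linarith
  rcases le_total lam 1 with h | h
  · rw [min_eq_left h, max_eq_left h, one_mul]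
    have h1 : X ^ lam ≤ Y ^ lam + (X - Y) ^ lam := by
      have := Real.rpow_add_le_add_rpow hY0 (sub_nonneg.2 hXY) hl.le h
      rwa [add_sub_cancel] at this
    have h2 : (X - Y) ^ lam ≤ (x - y) ^ lam := Real.rpow_le_rpow (sub_nonneg.2 hXY) hd hl.le
    linarith
  · rw [min_eq_right h, max_eq_right h, Real.rpow_one]
    rcases eq_or_lt_of_le hX0 with h0 | h0
    · have hY : Y = 0 := le_antisymm (hXY.trans h0.symm.le) hY0
      rw [← h0, hY, sub_self]
      exact mul_nonneg hl.le hxy0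
    · have hb := one_add_mul_self_le_rpow_one_add (s := Y / X - 1) (p := lam) (by
        have : 0 ≤ Y / X := by positivity
        linarith) h
      rw [add_sub_cancel, Real.div_rpow hY0 h0.le] at hb
      have hXl : 0 < X ^ lam := Real.rpow_pos_of_pos h0 _
      have h1 : (1 + lam * (Y / X - 1)) * X ^ lam ≤ Y ^ lam := by
        have := mul_le_mul_of_nonneg_right hb hXl.le
        rwa [div_mul_cancel₀ _ hXl.ne'] at this
      have h2 : X ^ lam ≤ X := by
        have := Real.rpow_le_rpow_of_exponent_ge h0 hX1 h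
        rwa [Real.rpow_one] at this
      have h3 : X ^ lam - Y ^ lam ≤ lam * ((1 - Y / X) * X ^ lam) := by nlinarith
      have h4 : (1 - Y / X) * X ^ lam ≤ X - Y := by
        have h5 : 0 ≤ 1 - Y / X := by
          rw [sub_nonneg, div_le_one h0]; exact hXY
        have h6 : (1 - Y / X) * X = X - Y := by field_simp
        rw [← h6]
        exact mul_le_mul_of_nonneg_left h2 h5
      have h7 : lam * ((1 - Y / X) * X ^ lam) ≤ lam * (x - y) :=
        mul_le_mul_of_nonneg_left (h4.trans hd) hl.le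
      linarith

theorem symb_nonneg (lam s : ℝ) (ξ : E2) : 0 ≤ symb lam s ξ :=
  Real.rpow_nonneg (le_max_right _ _) _

theorem symb_le_one {lam : ℝ} (hl : 0 < lam) (s : ℝ) (ξ : E2) : symb lam s ξ ≤ 1 := by
  unfold symb
  refine Real.rpow_le_one (le_max_right _ _) (max_le ?_ zero_le_one) hl.le
  have : 0 ≤ s⁻¹ ^ 2 * (ξ 0) ^ 2 * (ξ 1) ^ 2 := by positivity
  linarith

theorem symb_norm {lam : ℝ} (hl : 0 < lam) (s : ℝ) (ξ : E2) : ‖(symb lam s ξ : ℂ)‖ ≤ 1 := by
  rw [Complex.norm_real, Real.norm_eq_abs, abs_of_nonneg (symb_nonneg _ _ _)]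
  exact symb_le_one hl s ξ

/-- the size that governs everything -/
noncomputable def rh (ξ : E2) : ℝ := |ξ 0 * ξ 1|

theorem rh_nonneg (ξ : E2) : 0 ≤ rh ξ := abs_nonneg _

theorem measurable_rh : Measurable rh :=
  (continuous_abs.measurable).comp ((measurable_coord 0).mul (measurable_coord 1))

/-- `ρ / 2 ^ k` if `ρ < 2 ^ k`, and `0` otherwise -/
noncomputable def be (k : ℤ) (ρ : ℝ) : ℝ := if ρ < (2 : ℝ) ^ k then ρ / (2 : ℝ) ^ k else 0

theorem measurable_be (k : ℤ) : Measurable (be k) :=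
  Measurable.ite (measurableSet_lt measurable_id measurable_const) (measurable_id.div_const _)
    measurable_const

theorem be_nonneg (k : ℤ) {ρ : ℝ} (h : 0 ≤ ρ) : 0 ≤ be k ρ := by
  unfold be
  split_ifs
  · positivity
  · exact le_rfl

theorem be_le_one (k : ℤ) {ρ : ℝ} : be k ρ ≤ 1 := by
  unfold be
  split_ifs with h
  · rw [div_le_one (by positivity)]; exact h.le
  · exact zero_le_one

theorem sum_be (K : Finset ℤ) {ρ : ℝ} (h : 0 ≤ ρ) : ∑ k ∈ K, be k ρ ^ 2 ≤ 2 := by
  rcases eq_or_lt_of_le h with h0 | h0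
  · have : ∀ k ∈ K, be k ρ ^ 2 = 0 := fun k _ => by
      unfold be
      rw [← h0]
      split_ifs <;> simp
    rw [sum_eq_zero this]; norm_num
  · obtain ⟨j, hj1, hj2⟩ := exists_mem_Ico_zpow h0 (one_lt_two (α := ℝ))
    have h1 : ∀ k ∈ K, be k ρ ^ 2 ≤ if j + 1 ≤ k then (1 / 4 : ℝ) ^ (j + 1 - k).natAbs else 0 := by
      intro k _
      unfold be
      split_ifs with a b b
      · obtain ⟨m, rfl⟩ : ∃ m : ℕ, k = j + 1 + m := ⟨(k - (j + 1)).toNat, by omega⟩
        rw [show (j + 1 - (j + 1 + (m : ℤ))).natAbs = m by omega]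
        have e1 : ρ / (2 : ℝ) ^ (j + 1 + (m : ℤ)) ≤ (1 / 2) ^ m := by
          rw [div_le_iff₀ (by positivity), zpow_add₀ two_ne_zero (j + 1), zpow_natCast,
            ← mul_assoc, mul_comm ((1 / 2 : ℝ) ^ m), mul_assoc, ← mul_pow]
          norm_num
          exact hj2.le
        have e2 := pow_le_pow_left₀ (div_nonneg h (by positivity)) e1 2
        refine e2.trans (le_of_eq ?_)
        rw [← pow_mul, mul_comm m 2, pow_mul]
        norm_num
      · have := (zpow_lt_zpow_iff_right₀ (one_lt_two (α := ℝ))).1 (hj1.trans_lt a)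
        omega
      · rw [zero_pow two_ne_zero]; positivity
      · simp
    refine (sum_le_sum h1).trans ?_
    rw [← sum_filter]
    refine (geom_half (by norm_num) (by norm_num) _ (j + 1) ?_).trans (by norm_num)
    intro l hl l' hl' h
    rw [mem_filter] at hl hl'
    omega

/-- comparison with the sharp cut-off -/
theorem symb_sub_le {lam : ℝ} (hl : 1 / 2 < lam) (k : ℤ) (ξ : E2) :
    |symb lam ((2 : ℝ) ^ k) ξ - (if rh ξ < (2 : ℝ) ^ k then 1 else 0)| ≤
      max 1 lam * be k (rh ξ) := by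
  have hl0 : 0 < lam := by linarith
  have hp : (0 : ℝ) < (2 : ℝ) ^ k := by positivity
  have e : ((2 : ℝ) ^ k)⁻¹ ^ 2 * (ξ 0) ^ 2 * (ξ 1) ^ 2 = (rh ξ / (2 : ℝ) ^ k) ^ 2 := by
    unfold rh
    rw [div_pow, sq_abs]
    field_simp
  unfold symb be
  rw [e]
  set b := rh ξ / (2 : ℝ) ^ k with hb
  have hb0 : 0 ≤ b := div_nonneg (rh_nonneg _) hp.le
  split_ifs with h
  · have hb1 : b ≤ 1 := by rw [hb, div_le_one hp]; exact h.le
    have h1 := holder_aux hl0 (x := 1) (y := 1 - b ^ 2) le_rfl (by nlinarith)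
    rw [max_eq_left (zero_le_one (α := ℝ)), Real.one_rpow, sub_sub_cancel, abs_sub_comm] at h1
    refine h1.trans (mul_le_mul_of_nonneg_left ?_ (by positivity))
    have hm : 1 / 2 ≤ min lam 1 := le_min hl.le (by norm_num)
    have h2 : b ^ 2 = b ^ (2 : ℝ) := by norm_cast
    rw [h2, ← Real.rpow_mul hb0]
    rcases eq_or_lt_of_le hb0 with h0 | h0
    · rw [← h0, Real.zero_rpow (by linarith)]
    · have := Real.rpow_le_rpow_of_exponent_ge h0 hb1 (show 1 ≤ 2 * min lam 1 by linarith)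
      rwa [Real.rpow_one] at this
  · have hb1 : 1 ≤ b := by rw [hb, one_le_div hp]; exact not_lt.1 h
    rw [max_eq_right (by nlinarith), Real.zero_rpow hl0.ne']
    simp

/-- comparison of two means with parameters in the same dyadic interval -/
theorem symb_holder {lam : ℝ} (hl : 1 / 2 < lam) (k : ℤ) {t t' : ℝ} (h1 : (k : ℝ) ≤ t)
    (h2 : t ≤ t') (h3 : t' ≤ k + 1) (ξ : E2) :
    |symb lam ((2 : ℝ) ^ t) ξ - symb lam ((2 : ℝ) ^ t') ξ| ≤
      max 1 lam * 32 * (t' - t) ^ (min lam 1) * be (k + 1) (rh ξ) := by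
  have hl0 : 0 < lam := by linarith
  set s := (2 : ℝ) ^ t with hs
  set s' := (2 : ℝ) ^ t' with hs'
  have hp : (0 : ℝ) < (2 : ℝ) ^ k := by positivity
  have hs1 : (2 : ℝ) ^ k ≤ s := by
    rw [hs, ← Real.rpow_intCast]
    exact Real.rpow_le_rpow_of_exponent_le (by norm_num) h1
  have hs2 : s ≤ s' := Real.rpow_le_rpow_of_exponent_le (by norm_num) h2
  have hs3 : s' ≤ 2 * (2 : ℝ) ^ k := by
    have : 2 * (2 : ℝ) ^ k = (2 : ℝ) ^ ((k : ℝ) + 1) := by
      rw [Real.rpow_add two_pos, Real.rpow_intCast, Real.rpow_one]; ring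
    rw [this]
    exact Real.rpow_le_rpow_of_exponent_le (by norm_num) h3
  have hs0 : 0 < s := hp.trans_le hs1
  have hs0' : 0 < s' := hs0.trans_le hs2
  have ht0 : 0 ≤ t' - t := by linarith
  -- Lipschitz bound of the parameter
  have hlip : s' - s ≤ 2 * (2 : ℝ) ^ k * (t' - t) := by
    have e1 : s' - s = s' * (1 - (2 : ℝ) ^ (t - t')) := by
      rw [mul_sub, mul_one, hs', hs, ← Real.rpow_add two_pos]
      congr 2; ring
    have e2 : 1 - (2 : ℝ) ^ (t - t') ≤ t' - t := by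
      have h4 : (2 : ℝ) ^ (t - t') = Real.exp (Real.log 2 * (t - t')) :=
        Real.rpow_def_of_pos two_pos _
      have h5 := Real.add_one_le_exp (Real.log 2 * (t - t'))
      have h6 := Real.log_two_lt_d9
      rw [h4]
      nlinarith
    rw [e1]
    calc s' * (1 - (2 : ℝ) ^ (t - t')) ≤ s' * (t' - t) := mul_le_mul_of_nonneg_left e2 hs0'.le
      _ ≤ 2 * (2 : ℝ) ^ k * (t' - t) := mul_le_mul_of_nonneg_right hs3 ht0
  have eK : (2 : ℝ) ^ (k + 1) = 2 * (2 : ℝ) ^ k := by
    rw [zpow_add₀ two_ne_zero, zpow_one]; ring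
  have e : ∀ r : ℝ, 0 < r → r⁻¹ ^ 2 * (ξ 0) ^ 2 * (ξ 1) ^ 2 = (rh ξ) ^ 2 / r ^ 2 := by
    intro r hr
    unfold rh
    rw [sq_abs]
    field_simp
  unfold symb
  rw [e s hs0, e s' hs0']
  set R := rh ξ with hR
  have hR0 : 0 ≤ R := rh_nonneg ξ
  have hyx : 1 - R ^ 2 / s ^ 2 ≤ 1 - R ^ 2 / s' ^ 2 := by
    have : R ^ 2 / s' ^ 2 ≤ R ^ 2 / s ^ 2 := by gcongr
    linarith
  have hx1 : 1 - R ^ 2 / s' ^ 2 ≤ 1 := by
    have : 0 ≤ R ^ 2 / s' ^ 2 := by positivity
    linarith
  have key := holder_aux hl0 hx1 hyx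
  rw [abs_sub_comm] at key
  by_cases h : R < (2 : ℝ) ^ (k + 1)
  · unfold be
    rw [if_pos h]
    set b := R / (2 : ℝ) ^ (k + 1) with hb
    have hb0 : 0 ≤ b := div_nonneg hR0 (by positivity)
    have hb1 : b ≤ 1 := by rw [hb, div_le_one (by positivity)]; exact h.le
    have hRb : R = b * (2 * (2 : ℝ) ^ k) := by rw [hb, eK]; field_simp
    refine key.trans ?_
    have hm : 1 / 2 ≤ min lam 1 := le_min hl.le (by norm_num)
    have hm1 : min lam 1 ≤ 1 := min_le_right _ _
    set κ := min lam 1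
    have hdiff : 1 - R ^ 2 / s' ^ 2 - (1 - R ^ 2 / s ^ 2) ≤ 32 * b ^ 2 * (t' - t) := by
      have e1 : 1 - R ^ 2 / s' ^ 2 - (1 - R ^ 2 / s ^ 2) =
          R ^ 2 * ((s' - s) * (s' + s)) / (s ^ 2 * s' ^ 2) := by
        field_simp; ring
      rw [e1, div_le_iff₀ (by positivity)]
      set q := (2 : ℝ) ^ k
      have a1 : (s' - s) * (s' + s) ≤ (2 * q * (t' - t)) * (4 * q) := by
        refine mul_le_mul hlip (by linarith) (by linarith) (by positivity)
      have a2 : q ^ 2 * q ^ 2 ≤ s ^ 2 * s' ^ 2 := by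
        have b1 : q ^ 2 ≤ s ^ 2 := pow_le_pow_left₀ hp.le hs1 2
        have b2 : q ^ 2 ≤ s' ^ 2 := pow_le_pow_left₀ hp.le (hs1.trans hs2) 2
        exact mul_le_mul b1 b2 (by positivity) (by positivity)
      calc R ^ 2 * ((s' - s) * (s' + s)) ≤ R ^ 2 * ((2 * q * (t' - t)) * (4 * q)) :=
            mul_le_mul_of_nonneg_left a1 (sq_nonneg _)
        _ = 32 * b ^ 2 * (t' - t) * (q ^ 2 * q ^ 2) := by rw [hRb]; ring
        _ ≤ 32 * b ^ 2 * (t' - t) * (s ^ 2 * s' ^ 2) :=
            mul_le_mul_of_nonneg_left a2 (by positivity)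
    have h5 : (1 - R ^ 2 / s' ^ 2 - (1 - R ^ 2 / s ^ 2)) ^ κ ≤ 32 * b * (t' - t) ^ κ := by
      refine (Real.rpow_le_rpow (by linarith) hdiff (by linarith)).trans ?_
      rw [Real.mul_rpow (by positivity) ht0, Real.mul_rpow (by norm_num) (by positivity)]
      refine mul_le_mul_of_nonneg_right ?_ (by positivity)
      refine mul_le_mul ?_ ?_ (by positivity) (by norm_num)
      · have := Real.rpow_le_rpow_of_exponent_le (show (1 : ℝ) ≤ 32 by norm_num) hm1
        rwa [Real.rpow_one] at this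
      · have h2 : b ^ 2 = b ^ (2 : ℝ) := by norm_cast
        rw [h2, ← Real.rpow_mul hb0]
        rcases eq_or_lt_of_le hb0 with h0 | h0
        · rw [← h0, Real.zero_rpow (by linarith)]
        · have := Real.rpow_le_rpow_of_exponent_ge h0 hb1 (show 1 ≤ 2 * κ by linarith)
          rwa [Real.rpow_one] at this
    calc max 1 lam * (1 - R ^ 2 / s' ^ 2 - (1 - R ^ 2 / s ^ 2)) ^ κ
        ≤ max 1 lam * (32 * b * (t' - t) ^ κ) := mul_le_mul_of_nonneg_left h5 (by positivity)
      _ = max 1 lam * 32 * (t' - t) ^ κ * b := by ring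
  · unfold be
    rw [if_neg h, mul_zero]
    have hR1 : s' ≤ R := by
      rw [eK] at h
      exact hs3.trans (not_lt.1 h)
    have z : ∀ r : ℝ, 0 < r → r ≤ R → (max (1 - R ^ 2 / r ^ 2) 0) ^ lam = 0 := by
      intro r hr hrR
      have : 1 ≤ R ^ 2 / r ^ 2 := by
        rw [one_le_div (by positivity)]
        exact pow_le_pow_left₀ hr.le hrR 2
      rw [max_eq_right (by linarith), Real.zero_rpow hl0.ne']
    rw [z s hs0 (hs2.trans hR1), z s' hs0' hR1, sub_self, abs_zero]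

end Pool.Agent.H73.Hyp
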