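import Mathlib

/-! Bonami's two-point inequality for even exponents, and its vector form. -/

namespace Pool.Agent.H73.Hyp

open Finset

theorem sum_even (g : ℕ → ℝ) (m : ℕ) :
    ∑ i ∈ range (2 * m + 1), g i * (1 + (-1) ^ i) = 2 * ∑ j ∈ range (m + 1), g (2 * j) := by
  induction m with
  | zero => simp; ring
  | succ m ih =>
    rw [show 2 * (m + 1) + 1 = 2 * m + 1 + 1 + 1 by ring, sum_range_succ, sum_range_succ, ih,
      sum_range_succ _ (m + 1)]
    have h1 : ((-1 : ℝ)) ^ (2 * m + 1) = -1 := by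
      rw [pow_succ, pow_mul]; norm_num
    have h2 : ((-1 : ℝ)) ^ (2 * m + 1 + 1) = 1 := by
      rw [show 2 * m + 1 + 1 = 2 * (m + 1) by ring, pow_mul]; norm_num
    rw [h1, h2]
    rw [show 2 * m + 1 + 1 = 2 * (m + 1) by ring]
    ring

/-- the ratio of the binomial coefficients -/
theorem choose_le (m : ℕ) (hm : 1 ≤ m) : ∀ j, j ≤ m →
    ((2 * m).choose (2 * j) : ℝ) ≤ (m.choose j : ℝ) * (2 * m - 1) ^ j := by
  intro j
  induction j with
  | zero => simp
  | succ j ih =>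
    intro hj
    have h1 := ih (by omega)
    have hm1 : (1 : ℝ) ≤ m := by exact_mod_cast hm
    -- recurrences
    have r1 : ((2 * m).choose (2 * j + 1) : ℝ) * (2 * j + 1) =
        ((2 * m).choose (2 * j) : ℝ) * (2 * m - 2 * j) := by
      have := Nat.choose_succ_right_eq (2 * m) (2 * j)
      have h : ((2 * m - 2 * j : ℕ) : ℝ) = 2 * (m : ℝ) - 2 * j := by
        rw [Nat.cast_sub (by omega)]; push_cast; ring
      rw [← h]
      exact_mod_cast this
    have r2 : ((2 * m).choose (2 * j + 2) : ℝ) * (2 * j + 2) =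
        ((2 * m).choose (2 * j + 1) : ℝ) * (2 * m - (2 * j + 1)) := by
      have := Nat.choose_succ_right_eq (2 * m) (2 * j + 1)
      have h : ((2 * m - (2 * j + 1) : ℕ) : ℝ) = 2 * (m : ℝ) - (2 * j + 1) := by
        rw [Nat.cast_sub (by omega)]; push_cast; ring
      rw [← h]
      have h' : (((2 * m).choose (2 * j + 1 + 1) * (2 * j + 1 + 1) : ℕ) : ℝ) =
        (((2 * m).choose (2 * j + 1) * (2 * m - (2 * j + 1)) : ℕ) : ℝ) := by rw [this]
      push_cast at h'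
      rw [show (2 : ℝ) * j + 2 = 2 * j + 1 + 1 by ring]
      exact h'
    have r3 : (m.choose (j + 1) : ℝ) * (j + 1) = (m.choose j : ℝ) * (m - j) := by
      have := Nat.choose_succ_right_eq m j
      have h : ((m - j : ℕ) : ℝ) = (m : ℝ) - j := by
        rw [Nat.cast_sub (by omega)]
      rw [← h]
      exact_mod_cast this
    have hjm : (j : ℝ) + 1 ≤ m := by exact_mod_cast hj
    have hj0 : (0 : ℝ) ≤ j := Nat.cast_nonneg j
    -- combine
    have e1 : ((2 * m).choose (2 * (j + 1)) : ℝ) =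
        ((2 * m).choose (2 * j) : ℝ) * (2 * m - 2 * j) * (2 * m - (2 * j + 1)) /
          ((2 * j + 1) * (2 * j + 2)) := by
      rw [show 2 * (j + 1) = 2 * j + 2 by ring, eq_div_iff (by positivity)]
      calc ((2 * m).choose (2 * j + 2) : ℝ) * ((2 * j + 1) * (2 * j + 2))
          = (((2 * m).choose (2 * j + 2) : ℝ) * (2 * j + 2)) * (2 * j + 1) := by ring
        _ = (((2 * m).choose (2 * j + 1) : ℝ) * (2 * j + 1)) * (2 * m - (2 * j + 1)) := by
            rw [r2]; ring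
        _ = _ := by rw [r1]
    have e2 : (m.choose (j + 1) : ℝ) = (m.choose j : ℝ) * (m - j) / (j + 1) := by
      rw [eq_div_iff (by positivity), r3]
    rw [e1, e2, pow_succ]
    have hc : (0 : ℝ) ≤ (m.choose j : ℝ) := Nat.cast_nonneg _
    have hp : (0 : ℝ) ≤ (2 * m - 1 : ℝ) ^ j := pow_nonneg (by linarith) _
    have hmj : (0 : ℝ) ≤ m - j := by linarith
    calc ((2 * m).choose (2 * j) : ℝ) * (2 * m - 2 * j) * (2 * m - (2 * j + 1)) /
          ((2 * j + 1) * (2 * j + 2))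
        = ((2 * m).choose (2 * j) : ℝ) * ((m - j) / (j + 1)) *
            ((2 * m - (2 * j + 1)) / (2 * j + 1)) := by
          field_simp
      _ ≤ ((m.choose j : ℝ) * (2 * m - 1) ^ j) * ((m - j) / (j + 1)) * (2 * m - 1) := by
          apply mul_le_mul
          · exact mul_le_mul_of_nonneg_right h1 (by positivity)
          · rw [div_le_iff₀ (by positivity)]
            nlinarith
          · apply div_nonneg
            · linarith
            · positivity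
          · positivity
      _ = (m.choose j : ℝ) * (m - j) / (j + 1) * ((2 * m - 1) ^ j * (2 * m - 1)) := by
          field_simp

/-- Bonami's two-point inequality. -/
theorem two_point (m : ℕ) (hm : 1 ≤ m) (a b : ℝ) :
    (a + b) ^ (2 * m) + (a - b) ^ (2 * m) ≤ 2 * (a ^ 2 + (2 * m - 1) * b ^ 2) ^ m := by
  have hm1 : (1 : ℝ) ≤ m := by exact_mod_cast hm
  have h1 : (a + b) ^ (2 * m) + (a - b) ^ (2 * m) =
      ∑ i ∈ range (2 * m + 1), (b ^ i * a ^ (2 * m - i) * ((2 * m).choose i : ℝ)) *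
        (1 + (-1) ^ i) := by
    rw [add_comm a b, add_pow, show a - b = -b + a by ring, add_pow, ← sum_add_distrib]
    refine sum_congr rfl fun i _ => ?_
    rw [neg_pow b i]; ring
  rw [h1, sum_even (fun i => b ^ i * a ^ (2 * m - i) * ((2 * m).choose i : ℝ)) m]
  refine mul_le_mul_of_nonneg_left ?_ (by norm_num)
  rw [add_comm (a ^ 2), add_pow]
  refine sum_le_sum fun j hj => ?_
  have hj' : j ≤ m := by
    rw [mem_range] at hj; omega
  have h2 := choose_le m hm j hj'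
  have e1 : b ^ (2 * j) * a ^ (2 * m - 2 * j) = (b ^ 2) ^ j * (a ^ 2) ^ (m - j) := by
    rw [← pow_mul, ← pow_mul]
    congr 2
    omega
  calc b ^ (2 * j) * a ^ (2 * m - 2 * j) * ((2 * m).choose (2 * j) : ℝ)
      = (b ^ 2) ^ j * (a ^ 2) ^ (m - j) * ((2 * m).choose (2 * j) : ℝ) := by rw [e1]
    _ ≤ (b ^ 2) ^ j * (a ^ 2) ^ (m - j) * ((m.choose j : ℝ) * (2 * m - 1) ^ j) :=
        mul_le_mul_of_nonneg_left h2 (by positivity)
    _ = ((2 * (m : ℝ) - 1) * b ^ 2) ^ j * (a ^ 2) ^ (m - j) * (m.choose j : ℝ) := by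
        rw [mul_pow]; ring

variable {κ : Type*}

/-- The square of the norm of `ℓ^(2m)`. -/
noncomputable def nrm (S : Finset κ) (m : ℕ) (v : κ → ℝ) : ℝ :=
  (∑ k ∈ S, (v k) ^ (2 * m)) ^ ((1 : ℝ) / m)

theorem sum_pow_nonneg (S : Finset κ) (m : ℕ) (v : κ → ℝ) : 0 ≤ ∑ k ∈ S, (v k) ^ (2 * m) :=
  sum_nonneg fun k _ => by rw [pow_mul]; positivity

theorem nrm_nonneg (S : Finset κ) (m : ℕ) (v : κ → ℝ) : 0 ≤ nrm S m v :=
  Real.rpow_nonneg (sum_pow_nonneg S m v) _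

/-- The vector form of the two-point inequality: `ℓ^(2m)` is 2-smooth. -/
theorem nrm_two_point (S : Finset κ) (m : ℕ) (hm : 1 ≤ m) (a b : κ → ℝ) :
    nrm S m (fun k => a k + b k) + nrm S m (fun k => a k - b k) ≤
      2 * nrm S m a + 2 * (2 * m - 1) * nrm S m b := by
  have hm1 : (1 : ℝ) ≤ m := by exact_mod_cast hm
  have hm0 : (0 : ℝ) < m := by linarith
  set A := ∑ k ∈ S, (a k + b k) ^ (2 * m) with hA
  set B := ∑ k ∈ S, (a k - b k) ^ (2 * m) with hB
  have hA0 : 0 ≤ A := sum_pow_nonneg S m _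
  have hB0 : 0 ≤ B := sum_pow_nonneg S m _
  -- power mean
  have h1 : A ^ ((1 : ℝ) / m) + B ^ ((1 : ℝ) / m) ≤ 2 * ((A + B) / 2) ^ ((1 : ℝ) / m) := by
    have hc := Real.concaveOn_rpow (p := (1 : ℝ) / m) (by positivity)
      (by rw [div_le_one hm0]; exact hm1)
    have h2 := hc.2 (Set.mem_Ici.2 hA0) (Set.mem_Ici.2 hB0) (by norm_num : (0 : ℝ) ≤ 1 / 2)
      (by norm_num : (0 : ℝ) ≤ 1 / 2) (by norm_num : (1 / 2 : ℝ) + 1 / 2 = 1)
    simp only [smul_eq_mul] at h2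
    have h3 : (1 / 2 : ℝ) * A + 1 / 2 * B = (A + B) / 2 := by ring
    rw [h3] at h2
    linarith
  have h2 : (A + B) / 2 ≤ ∑ k ∈ S, ((a k) ^ 2 + (2 * m - 1) * (b k) ^ 2) ^ m := by
    rw [div_le_iff₀ (by norm_num), hA, hB, ← sum_add_distrib, sum_mul]
    refine sum_le_sum fun k _ => ?_
    have := two_point m hm (a k) (b k)
    linarith
  have h3 : ((A + B) / 2) ^ ((1 : ℝ) / m) ≤
      (∑ k ∈ S, ((a k) ^ 2 + (2 * m - 1) * (b k) ^ 2) ^ m) ^ ((1 : ℝ) / m) :=
    Real.rpow_le_rpow (by positivity) h2 (by positivity)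
  have h4 : (∑ k ∈ S, ((a k) ^ 2 + (2 * m - 1) * (b k) ^ 2) ^ m) ^ ((1 : ℝ) / m) ≤
      (∑ k ∈ S, ((a k) ^ 2) ^ m) ^ ((1 : ℝ) / m) +
      (∑ k ∈ S, ((2 * m - 1) * (b k) ^ 2) ^ m) ^ ((1 : ℝ) / m) := by
    have := Real.Lp_add_le_of_nonneg (s := S) (p := (m : ℝ)) hm1
      (f := fun k => (a k) ^ 2) (g := fun k => (2 * m - 1) * (b k) ^ 2)
      (fun k _ => by positivity) (fun k _ => mul_nonneg (by linarith) (by positivity))
    simpa only [Real.rpow_natCast] using this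
  have h5 : (∑ k ∈ S, ((a k) ^ 2) ^ m) ^ ((1 : ℝ) / m) = nrm S m a := by
    unfold nrm
    congr 1
    exact sum_congr rfl fun k _ => (pow_mul _ _ _).symm
  have h6 : (∑ k ∈ S, ((2 * m - 1) * (b k) ^ 2) ^ m) ^ ((1 : ℝ) / m) =
      (2 * m - 1) * nrm S m b := by
    unfold nrm
    have e : ∑ k ∈ S, ((2 * (m : ℝ) - 1) * (b k) ^ 2) ^ m =
        (2 * m - 1) ^ m * ∑ k ∈ S, (b k) ^ (2 * m) := by
      rw [mul_sum]
      refine sum_congr rfl fun k _ => ?_
      rw [mul_pow, ← pow_mul]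
    rw [e, Real.mul_rpow (pow_nonneg (by linarith) _) (sum_pow_nonneg S m b)]
    congr 1
    rw [← Real.rpow_natCast, ← Real.rpow_mul (by linarith), mul_one_div_cancel hm0.ne',
      Real.rpow_one]
  have h7 : nrm S m (fun k => a k + b k) = A ^ ((1 : ℝ) / m) := rfl
  have h8 : nrm S m (fun k => a k - b k) = B ^ ((1 : ℝ) / m) := rfl
  rw [h7, h8]
  rw [h5, h6] at h4
  linarith

/-- `ℓ^(2m)` dominates `ℓ^∞`. -/
theorem sq_le_nrm (S : Finset κ) (m : ℕ) (hm : 1 ≤ m) (v : κ → ℝ) {k : κ} (hk : k ∈ S) :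
    (v k) ^ 2 ≤ nrm S m v := by
  have hm0 : (0 : ℝ) < m := by exact_mod_cast hm
  have h1 : (v k) ^ (2 * m) ≤ ∑ k ∈ S, (v k) ^ (2 * m) :=
    single_le_sum (f := fun k => (v k) ^ (2 * m)) (fun k _ => by rw [pow_mul]; positivity) hk
  have h2 : ((v k) ^ (2 * m)) ^ ((1 : ℝ) / m) = (v k) ^ 2 := by
    rw [pow_mul, ← Real.rpow_natCast, ← Real.rpow_mul (by positivity), mul_one_div_cancel hm0.ne',
      Real.rpow_one]
  rw [← h2]
  exact Real.rpow_le_rpow (by rw [pow_mul]; positivity) h1 (by positivity)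

/-- `ℓ^(2m)` is dominated by `ℓ^∞`. -/
theorem nrm_le (S : Finset κ) (m : ℕ) (hm : 1 ≤ m) (v : κ → ℝ) {M : ℝ} (hM0 : 0 ≤ M)
    (hM : ∀ k ∈ S, (v k) ^ 2 ≤ M) : nrm S m v ≤ (S.card : ℝ) ^ ((1 : ℝ) / m) * M := by
  have hm0 : (0 : ℝ) < m := by exact_mod_cast hm
  have h1 : ∑ k ∈ S, (v k) ^ (2 * m) ≤ S.card * M ^ m := by
    rw [← nsmul_eq_mul]
    refine sum_le_card_nsmul _ _ _ fun k hk => ?_
    rw [pow_mul]
    exact pow_le_pow_left₀ (by positivity) (hM k hk) m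
  have h2 : ((S.card : ℝ) * M ^ m) ^ ((1 : ℝ) / m) = (S.card : ℝ) ^ ((1 : ℝ) / m) * M := by
    rw [Real.mul_rpow (by positivity) (by positivity)]
    congr 1
    rw [← Real.rpow_natCast, ← Real.rpow_mul hM0, mul_one_div_cancel hm0.ne', Real.rpow_one]
  rw [← h2]
  exact Real.rpow_le_rpow (sum_pow_nonneg S m v) h1 (by positivity)

end Pool.Agent.H73.Hyp
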